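import Pool.Agent.H686.RP.Build
set_option autoImplicit false

/-!
# Iterated averages over the seeds, tail bounds
-/

namespace Pool.Agent.H686.RP

open Finset

variable {n b : ℕ}

/-- average over the data number `j` -/
noncomputable def mn (j : ℕ) (F : Sd n b → ℝ) (s : Sd n b) : ℝ :=
  (∑ ω : Om n b, F (Function.update s j ω)) / (Fintype.card (Om n b))

/-- average over the data with numbers in a list -/
noncomputable def mns : List ℕ → (Sd n b → ℝ) → Sd n b → ℝ
  | [], F => F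
  | j :: l, F => mn j (mns l F)

theorem card_Om : (Fintype.card (Om n b) : ℝ) = (2 * b) ^ n := by
  simp [Om]

theorem card_pos' (hb : 0 < b) : (0 : ℝ) < (Fintype.card (Om n b) : ℝ) := by
  rw [card_Om]; positivity

theorem mn_mono {j : ℕ} {F G : Sd n b → ℝ} {s : Sd n b}
    (h : ∀ ω, F (Function.update s j ω) ≤ G (Function.update s j ω)) : mn j F s ≤ mn j G s := by
  unfold mn
  exact div_le_div_of_nonneg_right (sum_le_sum fun ω _ => h ω) (Nat.cast_nonneg _)

theorem mn_const (hb : 0 < b) (j : ℕ) (c : ℝ) (s : Sd n b) : mn j (fun _ => c) s = c := by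
  have h := card_pos' (n := n) hb
  unfold mn
  rw [sum_const, card_univ, nsmul_eq_mul]
  field_simp

theorem mn_add (j : ℕ) (F G : Sd n b → ℝ) (s : Sd n b) :
    mn j (fun s => F s + G s) s = mn j F s + mn j G s := by
  unfold mn
  rw [sum_add_distrib, add_div]

theorem mn_mul (j : ℕ) (c : ℝ) (F : Sd n b → ℝ) (s : Sd n b) :
    mn j (fun s => c * F s) s = c * mn j F s := by
  unfold mn
  rw [← mul_sum, mul_div_assoc]

theorem mn_comm (i j : ℕ) (F : Sd n b → ℝ) : mn i (mn j F) = mn j (mn i F) := by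
  funext s
  by_cases h : i = j
  · rw [h]
  · unfold mn
    rw [← sum_div, ← sum_div, sum_comm]
    simp_rw [Function.update_comm h]

theorem mn_idem (hb : 0 < b) (j : ℕ) (F : Sd n b → ℝ) : mn j (mn j F) = mn j F := by
  funext s
  have h : mn j F = fun s => mn j F s := rfl
  have h2 : ∀ ω, mn j F (Function.update s j ω) = mn j F s := by
    intro ω
    unfold mn
    simp_rw [Function.update_idem]
  have h3 := card_pos' (n := n) hb
  rw [mn]
  simp_rw [h2]
  rw [sum_const, card_univ, nsmul_eq_mul]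
  field_simp

theorem mns_mono {a : ℕ} {F G : Sd n b → ℝ} (l : List ℕ) : ∀ {s : Sd n b}, (∀ j ∈ l, a ≤ j) →
    (∀ s', (∀ j < a, s' j = s j) → F s' ≤ G s') → mns l F s ≤ mns l G s := by
  induction l with
  | nil => intro s _ h; exact h s fun _ _ => rfl
  | cons j l ih =>
    intro s hl h
    rw [mns, mns]
    apply mn_mono
    intro ω
    apply ih (fun i hi => hl i (List.mem_cons_of_mem _ hi))
    intro s' hs'
    apply h
    intro i hi
    rw [hs' i hi]
    have := hl j List.mem_cons_self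
    rw [Function.update_of_ne (by omega)]

theorem mns_const (hb : 0 < b) (c : ℝ) (l : List ℕ) : mns l (fun _ : Sd n b => c) = fun _ => c := by
  induction l with
  | nil => rfl
  | cons j l ih =>
    rw [mns, ih]
    funext s
    exact mn_const hb j c s

theorem mns_add (l : List ℕ) (F G : Sd n b → ℝ) :
    mns l (fun s => F s + G s) = fun s => mns l F s + mns l G s := by
  induction l with
  | nil => rfl
  | cons j l ih =>
    rw [mns, ih]
    funext s
    exact mn_add j _ _ s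

theorem mns_mul (l : List ℕ) (c : ℝ) (F : Sd n b → ℝ) :
    mns l (fun s => c * F s) = fun s => c * mns l F s := by
  induction l with
  | nil => rfl
  | cons j l ih =>
    rw [mns, ih]
    funext s
    exact mn_mul j _ _ s

theorem mns_sum {ι : Type*} (hb : 0 < b) (l : List ℕ) (I : Finset ι) (F : ι → Sd n b → ℝ) :
    mns l (fun s => ∑ i ∈ I, F i s) = fun s => ∑ i ∈ I, mns l (F i) s := by
  classical
  induction I using Finset.induction_on with
  | empty => simpa using mns_const hb 0 l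
  | insert a I ha ih =>
    simp_rw [sum_insert ha]
    rw [mns_add, ih]

theorem mns_mn (i : ℕ) (l : List ℕ) (F : Sd n b → ℝ) : mns l (mn i F) = mn i (mns l F) := by
  induction l with
  | nil => rfl
  | cons j l ih => rw [mns, mns, ih, mn_comm]

theorem mns_absorb (hb : 0 < b) {j : ℕ} (l : List ℕ) (F : Sd n b → ℝ) (h : j ∈ l) :
    mns l (mn j F) = mns l F := by
  induction l with
  | nil => simp at h
  | cons i l ih =>
    rw [mns, mns]
    by_cases hl : j ∈ l
    · rw [ih hl]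
    · have hij : j = i := by
        rcases List.mem_cons.1 h with h | h
        · exact h
        · exact absurd h hl
      rw [hij, mns_mn, mn_idem hb]

theorem mns_le {a : ℕ} {ε : ℝ} (hb : 0 < b) {l : List ℕ} {s : Sd n b} {F : Sd n b → ℝ}
    (hl : ∀ j ∈ l, a ≤ j) (h : ∀ s', (∀ j < a, s' j = s j) → F s' ≤ ε) : mns l F s ≤ ε := by
  have := mns_mono (G := fun _ => ε) l hl h
  rwa [mns_const hb] at this

theorem mns_le1 {a j : ℕ} {ε : ℝ} (hb : 0 < b) {l : List ℕ} {s : Sd n b} {F : Sd n b → ℝ}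
    (hl : ∀ j ∈ l, a ≤ j) (hj : j ∈ l) (h : ∀ s', (∀ j < a, s' j = s j) → mn j F s' ≤ ε) :
    mns l F s ≤ ε := by
  rw [← mns_absorb hb l F hj]
  exact mns_le hb hl h

theorem mns_le2 {a i j : ℕ} {ε : ℝ} (hb : 0 < b) {l : List ℕ} {s : Sd n b} {F : Sd n b → ℝ}
    (hl : ∀ j ∈ l, a ≤ j) (hi : i ∈ l) (hj : j ∈ l)
    (h : ∀ s', (∀ j < a, s' j = s j) → mn i (mn j F) s' ≤ ε) :
    mns l F s ≤ ε := by
  rw [← mns_absorb hb l F hj, ← mns_absorb hb l _ hi]
  exact mns_le hb hl h

theorem mn_exists {j : ℕ} {ε : ℝ} {s : Sd n b} {F : Sd n b → ℝ} (hb : 0 < b) (h : mn j F s < ε) :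
    ∃ s', F s' < ε := by
  by_contra h2
  push Not at h2
  have : mn j (fun _ => ε) s ≤ mn j F s := mn_mono fun ω => h2 _
  rw [mn_const hb] at this
  exact absurd h (not_lt.2 this)

theorem mns_exists {ε : ℝ} {F : Sd n b → ℝ} (hb : 0 < b) (l : List ℕ) : ∀ s : Sd n b, mns l F s < ε →
    ∃ s', F s' < ε := by
  induction l with
  | nil => intro s h; exact ⟨s, h⟩
  | cons j l ih =>
    intro s h
    obtain ⟨s', h'⟩ := mn_exists hb h
    exact ih s' h'

/-! ### products -/

theorem mean_prod (u : Fin n → Bool × Fin b → ℝ) :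
    (∑ ω : Om n b, ∏ i, u i (ω i)) / (Fintype.card (Om n b)) = ∏ i, (∑ a, u i a) / (2 * b) := by
  have h := Finset.prod_univ_sum (fun _ : Fin n => (univ : Finset (Bool × Fin b))) u
  rw [Fintype.piFinset_univ] at h
  rw [card_Om, prod_div_distrib, h]
  simp

theorem sum_ind (hb : 0 < b) (c : ℝ) :
    ∑ a : Bool × Fin b, (if a.2.val = 0 then c else 1) = 2 * (c + (b - 1)) := by
  obtain ⟨m, rfl⟩ : ∃ m, b = m + 1 := ⟨b - 1, by omega⟩
  rw [Fintype.sum_prod_type]
  simp only [Fintype.sum_bool]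
  rw [Fin.sum_univ_succ]
  simp
  ring

theorem sum_one' : ∑ _a : Bool × Fin b, (1 : ℝ) = 2 * b := by
  rw [sum_const, card_univ, nsmul_eq_mul]
  simp

theorem prod_half {ι : Type*} (W : Finset ι) (P : ι → Prop) [DecidablePred P] (c : ℝ) :
    ∏ i ∈ W, (if P i then c else 1) = c ^ (W.filter P).card := by
  rw [prod_ite, prod_const, prod_const_one, mul_one]

/-- few coincidences are improbable -/
theorem tail1 (hb : 0 < b) (W : Finset (Fin n)) (ρ : Vx n) (q : ℕ) :
    (∑ ω : Om n b, (∑ ω' : Om n b,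
      (if (W.filter fun i => (ω i).1 = ρ i ∧ (ω' i).2.val = 0).card ≤ q then (1 : ℝ) else 0)) /
        (Fintype.card (Om n b))) / (Fintype.card (Om n b)) ≤ 2 ^ q * (1 - 1 / (4 * b)) ^ W.card := by
  have hb' : (0 : ℝ) < b := by exact_mod_cast hb
  have h1 : ∀ ω ω' : Om n b,
      (if (W.filter fun i => (ω i).1 = ρ i ∧ (ω' i).2.val = 0).card ≤ q then (1 : ℝ) else 0) ≤
      2 ^ q * ∏ i, (if i ∈ W ∧ (ω i).1 = ρ i then (if (ω' i).2.val = 0 then (1 / 2 : ℝ) else 1) else 1) := by
    intro ω ω'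
    have h2 : ∏ i, (if i ∈ W ∧ (ω i).1 = ρ i then (if (ω' i).2.val = 0 then (1 / 2 : ℝ) else 1) else 1) =
        (1 / 2) ^ (W.filter fun i => (ω i).1 = ρ i ∧ (ω' i).2.val = 0).card := by
      rw [← prod_half, ← prod_ite_mem_eq W]
      apply prod_congr rfl
      intro i _
      split_ifs <;> simp_all
    rw [h2]
    split_ifs with h
    · obtain ⟨r, hr⟩ := Nat.exists_eq_add_of_le h
      conv_rhs => rw [hr]
      rw [pow_add, mul_right_comm, ← mul_pow]
      norm_num
      exact one_le_pow₀ (by norm_num)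
    · positivity
  have h2 : ∀ ω : Om n b, (∑ ω' : Om n b,
      ∏ i, (if i ∈ W ∧ (ω i).1 = ρ i then (if (ω' i).2.val = 0 then (1 / 2 : ℝ) else 1) else 1)) /
        (Fintype.card (Om n b)) = ∏ i, (if i ∈ W ∧ (ω i).1 = ρ i then (1 - 1 / (2 * b) : ℝ) else 1) := by
    intro ω
    rw [mean_prod fun i a => (if i ∈ W ∧ (ω i).1 = ρ i then (if a.2.val = 0 then (1 / 2 : ℝ) else 1) else 1)]
    apply prod_congr rfl
    intro i _
    split_ifs
    · rw [sum_ind hb]
      field_simp
      ring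
    · rw [sum_one', div_self (by positivity)]
  have h3 : (∑ ω : Om n b, ∏ i, (if i ∈ W ∧ (ω i).1 = ρ i then (1 - 1 / (2 * b) : ℝ) else 1)) /
        (Fintype.card (Om n b)) = (1 - 1 / (4 * b)) ^ W.card := by
    rw [mean_prod fun i a => (if i ∈ W ∧ a.1 = ρ i then (1 - 1 / (2 * b) : ℝ) else 1)]
    rw [← prod_const, ← prod_ite_mem_eq W]
    apply prod_congr rfl
    intro i _
    rw [Fintype.sum_prod_type]
    simp only [Fintype.sum_bool, sum_const, card_univ, Fintype.card_fin, nsmul_eq_mul]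
    by_cases hi : i ∈ W
    · cases h : ρ i
      · simp [hi]
        field_simp
        ring
      · simp [hi]
        field_simp
        ring
    · simp [hi]
      field_simp
      ring
  calc _ ≤ (∑ ω : Om n b, (∑ ω' : Om n b, 2 ^ q *
      ∏ i, (if i ∈ W ∧ (ω i).1 = ρ i then (if (ω' i).2.val = 0 then (1 / 2 : ℝ) else 1) else 1)) /
        (Fintype.card (Om n b))) / (Fintype.card (Om n b)) := by
        apply div_le_div_of_nonneg_right _ (Nat.cast_nonneg _)
        apply sum_le_sum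
        intro ω _
        apply div_le_div_of_nonneg_right _ (Nat.cast_nonneg _)
        apply sum_le_sum
        intro ω' _
        exact h1 ω ω'
    _ = (∑ ω : Om n b, 2 ^ q * ((∑ ω' : Om n b,
      ∏ i, (if i ∈ W ∧ (ω i).1 = ρ i then (if (ω' i).2.val = 0 then (1 / 2 : ℝ) else 1) else 1)) /
        (Fintype.card (Om n b)))) / (Fintype.card (Om n b)) := by
        congr 1
        apply sum_congr rfl
        intro ω _
        rw [← mul_sum, mul_div_assoc]
    _ = _ := by
        simp_rw [h2]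
        rw [← mul_sum, mul_div_assoc, h3]

/-- many elements are improbable -/
theorem tail2 (hb : 0 < b) (Y : Finset (Fin n)) (q : ℕ) :
    (∑ ω : Om n b, (if q < (Y.filter fun i => (ω i).2.val = 0).card then (1 : ℝ) else 0)) /
        (Fintype.card (Om n b)) ≤ (1 / 2) ^ q * (1 + 1 / b) ^ Y.card := by
  have hb' : (0 : ℝ) < b := by exact_mod_cast hb
  have h1 : ∀ ω : Om n b,
      (if q < (Y.filter fun i => (ω i).2.val = 0).card then (1 : ℝ) else 0) ≤
      (1 / 2) ^ q * ∏ i, (if i ∈ Y then (if (ω i).2.val = 0 then (2 : ℝ) else 1) else 1) := by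
    intro ω
    have h2 : ∏ i, (if i ∈ Y then (if (ω i).2.val = 0 then (2 : ℝ) else 1) else 1) =
        2 ^ (Y.filter fun i => (ω i).2.val = 0).card := by
      rw [← prod_half, ← prod_ite_mem_eq Y]
    rw [h2]
    split_ifs with h
    · obtain ⟨r, hr⟩ := Nat.exists_eq_add_of_le h.le
      rw [hr, pow_add, ← mul_assoc, ← mul_pow]
      norm_num
      exact one_le_pow₀ (by norm_num)
    · positivity
  have h3 : (∑ ω : Om n b, ∏ i, (if i ∈ Y then (if (ω i).2.val = 0 then (2 : ℝ) else 1) else 1)) /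
        (Fintype.card (Om n b)) = (1 + 1 / b) ^ Y.card := by
    rw [mean_prod fun i a => (if i ∈ Y then (if a.2.val = 0 then (2 : ℝ) else 1) else 1)]
    rw [← prod_const, ← prod_ite_mem_eq Y]
    apply prod_congr rfl
    intro i _
    by_cases hi : i ∈ Y
    · simp only [hi, if_true]
      rw [sum_ind hb]
      field_simp
      ring
    · simp only [hi, if_false]
      rw [sum_one', div_self (by positivity)]
  calc _ ≤ (∑ ω : Om n b, (1 / 2) ^ q * ∏ i, (if i ∈ Y then (if (ω i).2.val = 0 then (2 : ℝ) else 1) else 1)) /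
        (Fintype.card (Om n b)) := by
        apply div_le_div_of_nonneg_right _ (Nat.cast_nonneg _)
        apply sum_le_sum
        intro ω _
        exact h1 ω
    _ = _ := by rw [← mul_sum, mul_div_assoc, h3]

/-! ### numbers -/

theorem num1 {b q w : ℕ} (hb : 0 < b) (h : 8 * b * q ≤ w) :
    (2 : ℝ) ^ q * (1 - 1 / (4 * b)) ^ w ≤ (5 / 8) ^ q := by
  have hb' : (1 : ℝ) ≤ b := by exact_mod_cast hb
  have h0 : (0 : ℝ) ≤ 1 - 1 / (4 * b) := by
    rw [sub_nonneg, div_le_one (by positivity)]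
    linarith
  have h1 : (1 - 1 / (4 * b) : ℝ) ≤ 1 := by
    rw [sub_le_self_iff]; positivity
  have h2 : (1 - 1 / (4 * b) : ℝ) ^ w ≤ (1 - 1 / (4 * b)) ^ (8 * b * q) := pow_le_pow_of_le_one h0 h1 h
  have h3 : (1 - 1 / (4 * b) : ℝ) ^ (8 * b) ≤ 1 / 4 := by
    have h4 : (1 - 1 / (4 * b) : ℝ) ≤ Real.exp (-(1 / (4 * b))) := by
      have := Real.add_one_le_exp (-(1 / (4 * b)) : ℝ)
      linarith
    calc (1 - 1 / (4 * b) : ℝ) ^ (8 * b) ≤ Real.exp (-(1 / (4 * b))) ^ (8 * b) :=
          pow_le_pow_left₀ h0 h4 _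
      _ = Real.exp (-2) := by
          rw [← Real.exp_nat_mul]
          congr 1
          push_cast
          field_simp
          norm_num
      _ = (Real.exp 1 ^ 2)⁻¹ := by
          rw [← Real.exp_nat_mul, ← Real.exp_neg]
          norm_num
      _ ≤ 1 / 4 := by
          have h5 := Real.add_one_le_exp (1 : ℝ)
          rw [inv_eq_one_div]
          apply one_div_le_one_div_of_le (by norm_num)
          nlinarith
  calc (2 : ℝ) ^ q * (1 - 1 / (4 * b)) ^ w ≤ 2 ^ q * (1 - 1 / (4 * b)) ^ (8 * b * q) :=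
        mul_le_mul_of_nonneg_left h2 (by positivity)
    _ = 2 ^ q * ((1 - 1 / (4 * b)) ^ (8 * b)) ^ q := by rw [← pow_mul]
    _ ≤ 2 ^ q * (1 / 4) ^ q := mul_le_mul_of_nonneg_left (pow_le_pow_left₀ (pow_nonneg h0 _) h3 _)
        (by positivity)
    _ = (1 / 2) ^ q := by rw [← mul_pow]; norm_num
    _ ≤ _ := pow_le_pow_left₀ (by norm_num) (by norm_num) _

theorem num2 {b q w : ℕ} (hb : 0 < b) (h : 16 * w ≤ 3 * (q * b)) :
    (1 / 2 : ℝ) ^ q * (1 + 1 / b) ^ w ≤ (5 / 8) ^ q := by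
  have hb' : (0 : ℝ) < b := by exact_mod_cast hb
  have h1 : (1 + 1 / b : ℝ) ≤ Real.exp (1 / b) := by
    have := Real.add_one_le_exp (1 / b : ℝ)
    linarith
  have h2 : (w : ℝ) * (1 / b) ≤ q * (3 / 16) := by
    rw [mul_one_div, div_le_iff₀ hb']
    have : (16 * w : ℝ) ≤ 3 * (q * b) := by exact_mod_cast h
    linarith
  have h3 : Real.exp (3 / 16) ≤ 5 / 4 := by
    have h4 := Real.add_one_le_exp (-(3 / 16) : ℝ)
    rw [Real.exp_neg] at h4
    have h5 : (0 : ℝ) < Real.exp (3 / 16) := Real.exp_pos _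
    have h6 : Real.exp (3 / 16) * (Real.exp (3 / 16))⁻¹ = 1 := mul_inv_cancel₀ h5.ne'
    nlinarith
  calc (1 / 2 : ℝ) ^ q * (1 + 1 / b) ^ w ≤ (1 / 2 : ℝ) ^ q * Real.exp (1 / b) ^ w :=
        mul_le_mul_of_nonneg_left (pow_le_pow_left₀ (by positivity) h1 _) (by positivity)
    _ = (1 / 2 : ℝ) ^ q * Real.exp (w * (1 / b)) := by rw [Real.exp_nat_mul]
    _ ≤ (1 / 2 : ℝ) ^ q * Real.exp (q * (3 / 16)) :=
        mul_le_mul_of_nonneg_left (Real.exp_le_exp.2 h2) (by positivity)
    _ = (1 / 2 : ℝ) ^ q * Real.exp (3 / 16) ^ q := by rw [Real.exp_nat_mul]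
    _ ≤ (1 / 2 : ℝ) ^ q * (5 / 4) ^ q :=
        mul_le_mul_of_nonneg_left (pow_le_pow_left₀ (Real.exp_pos _).le h3 _) (by positivity)
    _ = (5 / 8) ^ q := by rw [← mul_pow]; norm_num

end Pool.Agent.H686.RP
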