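import Pool.Agent.H686.RP.Forced
set_option autoImplicit false

/-!
# Trees made of seeds
-/

namespace Pool.Agent.H686.RP

open Finset

variable {n b : ℕ}

/-- shapes of trees -/
inductive Sh : Type
  | leaf : Sh
  | last (g : Sh) : Sh
  | comb (g : Sh) (q : ℕ) (h : Sh) : Sh

/-- number of leaves -/
def Sh.sz : Sh → ℕ
  | .leaf => 1
  | .last g => g.sz
  | .comb g _ h => g.sz + h.sz

theorem Sh.sz_pos (S : Sh) : 0 < S.sz := by
  induction S with
  | leaf => simp [Sh.sz]
  | last g ih => simpa [Sh.sz] using ih
  | comb g q h ihg ihh => simp only [Sh.sz]; omega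

/-- spines do not end with a leaf -/
def Sh.ns : Sh → Prop
  | .leaf => False
  | .last _ => True
  | .comb _ _ h => h.ns

/-- well-formed shapes -/
def Sh.wf : Sh → Prop
  | .leaf => True
  | .last g => g.wf
  | .comb g _ h => g.wf ∧ h.wf ∧ h.ns

/-- the radius of the face which follows the leaf number `t` -/
def Sh.thr : Sh → ℕ → ℕ
  | .leaf, _ => 0
  | .last g, t => g.thr t
  | .comb g q h, t => if t < g.sz then (if t + 1 = g.sz then q else g.thr t) else h.thr (t - g.sz)

/-- number of the sets on the spine -/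
def Sh.nk : Sh → ℕ
  | .leaf => 0
  | .last _ => 0
  | .comb _ _ h => 1 + h.nk

/-- a bound for the number of the sets which matter -/
def Sh.wt : Sh → ℕ
  | .leaf => 0
  | .last g => g.nk + g.wt
  | .comb g _ h => max (g.nk + g.wt) (1 + h.wt)

/-- number of steps to the left -/
def Sh.dep : Sh → ℕ
  | .leaf => 0
  | .last g => g.dep
  | .comb g _ h => max (1 + g.dep) h.dep

/-- length of the potentials -/
def Sh.len : Sh → ℕ → ℕ
  | .leaf, _ => 1
  | .last g, k => 2 * k + g.len k
  | .comb g _ h, k => 2 + h.len k + (2 * (k + 1) + g.len (k + 1))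

/-- the radii lie between `Q` and `q'`, the inner ones are much larger -/
def Sh.gd (Q q' : ℕ) : Sh → Prop
  | .leaf => True
  | .last g => g.gd Q q'
  | .comb g q h => Q ≤ q ∧ q ≤ q' ∧ (∀ t, t + 1 < g.sz → 128 * q ≤ g.thr t) ∧ g.gd Q q' ∧ h.gd Q q'

theorem Sh.gd_thr {Q q' : ℕ} (S : Sh) : ∀ t, S.gd Q q' → t + 1 < S.sz → Q ≤ S.thr t ∧ S.thr t ≤ q' := by
  induction S with
  | leaf => intro t _ h; simp [Sh.sz] at h
  | last g ih => intro t hg h; rw [Sh.thr]; exact ih t hg h
  | comb g q h ihg ihh =>
    intro t hg ht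
    obtain ⟨h1, h2, h3, h4, h5⟩ := hg
    rw [Sh.thr]
    simp only [Sh.sz] at ht
    split_ifs with h6 h7
    · exact ⟨h1, h2⟩
    · exact ihg t h4 (by omega)
    · exact ihh _ h5 (by omega)

/-- random data for one step -/
abbrev Om (n b : ℕ) := Fin n → Bool × Fin b

/-- seeds -/
abbrev Sd (n b : ℕ) := ℕ → Om n b

/-- the random target number `t` -/
def Rs (s : Sd n b) (t : ℕ) : Vx n := fun i => (s (2 * t) i).1

/-- the random set number `t` -/
def Ks (s : Sd n b) (t : ℕ) : Finset (Fin n) := univ.filter fun i => (s (2 * t + 1) i).2.val = 0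

theorem Rs_congr {s s' : Sd n b} {t : ℕ} (h : s (2 * t) = s' (2 * t)) : Rs s t = Rs s' t := by
  unfold Rs; rw [h]

theorem Ks_congr {s s' : Sd n b} {t : ℕ} (h : s (2 * t + 1) = s' (2 * t + 1)) : Ks s t = Ks s' t := by
  unfold Ks; rw [h]

/-- the tree of a given shape made of a seed -/
def mk (s : Sd n b) : Sh → ℕ → Tr n
  | .leaf, o => .leaf (Rs s o)
  | .last g, o => .last (mk s g o)
  | .comb g q h, o => .comb (mk s g o) (Ks s (o + g.sz - 1)) q (mk s h (o + g.sz))

theorem lv_mk (s : Sd n b) (S : Sh) : ∀ o, lv (mk s S o) = S.sz := by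
  induction S with
  | leaf => intro o; rfl
  | last g ih => intro o; simp only [mk, lv, Sh.sz]; exact ih o
  | comb g q h ihg ihh => intro o; simp only [mk, lv, Sh.sz]; rw [ihg, ihh]

theorem ns_mk (s : Sd n b) (S : Sh) : ∀ o, S.ns → ns (mk s S o) := by
  induction S with
  | leaf => intro o h; exact h
  | last g ih => intro o h; simp only [mk, ns]
  | comb g q h ihg ihh => intro o h; simp only [mk, ns]; exact ihh _ h

theorem wf_mk (s : Sd n b) (S : Sh) : ∀ o, S.wf → wf (mk s S o) := by
  induction S with
  | leaf => intro o h; exact h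
  | last g ih => intro o h; simp only [mk, wf]; exact ih o h
  | comb g q h ihg ihh => intro o h; simp only [mk, wf]; exact ⟨ihg _ h.1, ihh _ h.2.1, ns_mk s _ _ h.2.2⟩

theorem lenB_mk (s : Sd n b) (S : Sh) : ∀ o k, lenB (mk s S o) k = S.len k := by
  induction S with
  | leaf => intro o k; rfl
  | last g ih => intro o k; simp only [mk, lenB, Sh.len]; rw [ih]
  | comb g q h ihg ihh => intro o k; simp only [mk, lenB, Sh.len]; rw [ihg, ihh]

theorem Rl_mk (s : Sd n b) (S : Sh) : ∀ o t, t < S.sz → Rl (mk s S o) t = Rs s (o + t) := by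
  induction S with
  | leaf =>
    intro o t h
    simp only [Sh.sz] at h
    obtain rfl : t = 0 := by omega
    rfl
  | last g ih => intro o t h; simp only [mk, Rl]; exact ih o t h
  | comb g q h ihg ihh =>
    intro o t ht
    simp only [mk, Rl]
    simp only [Sh.sz] at ht
    rw [lv_mk]
    split_ifs with h1
    · exact ihg o t h1
    · rw [ihh _ _ (by omega)]
      congr 1
      omega

theorem fin_mk (s : Sd n b) (S : Sh) : ∀ o, ∀ i ∉ lsp (mk s S o), (mk s S o).fin i = Rs s (o + S.sz - 1) i := by
  induction S with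
  | leaf => intro o i _; rfl
  | last g ih => intro o i h; simp only [mk, Tr.fin]; exact ih o i h
  | comb g q h ihg ihh =>
    intro o i hi
    simp only [mk, lsp, mem_union, not_or] at hi
    simp only [mk, Tr.fin, if_neg hi.1]
    rw [ihh _ _ hi.2, Sh.sz]
    congr 2
    omega

/-! ### dependence on the seed -/

theorem mk_congr {s s' : Sd n b} (S : Sh) : ∀ o, (∀ j, 2 * o ≤ j → j + 1 < 2 * (o + S.sz) → s j = s' j) →
    mk s S o = mk s' S o := by
  induction S with
  | leaf => intro o h; simp only [mk]; rw [Rs_congr (h _ le_rfl (by simp only [Sh.sz]; omega))]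
  | last g ih => intro o h; simp only [mk]; rw [ih o h]
  | comb g q h ihg ihh =>
    intro o hs
    have h1 := g.sz_pos
    have h2 := h.sz_pos
    simp only [Sh.sz] at hs
    simp only [mk]
    rw [ihg o fun j hj hj2 => hs j hj (by omega), ihh _ fun j hj hj2 => hs j (by omega) (by omega),
      Ks_congr (hs (2 * (o + g.sz - 1) + 1) (by omega) (by omega))]

theorem ksp_congr {s s' : Sd n b} (S : Sh) : ∀ o, (∀ j, 2 * o ≤ j → j + 2 < 2 * (o + S.sz) → s j = s' j) →
    ksp (mk s S o) = ksp (mk s' S o) := by
  induction S with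
  | leaf => intro o h; rfl
  | last g ih => intro o h; rfl
  | comb g q h ihg ihh =>
    intro o hs
    have h1 := g.sz_pos
    have h2 := h.sz_pos
    simp only [Sh.sz] at hs
    simp only [mk, ksp]
    rw [ihh _ fun j hj hj2 => hs j (by omega) (by omega),
      Ks_congr (hs (2 * (o + g.sz - 1) + 1) (by omega) (by omega))]

theorem lsp_congr {s s' : Sd n b} (S : Sh) : ∀ o, (∀ j, 2 * o ≤ j → j + 2 < 2 * (o + S.sz) → s j = s' j) →
    lsp (mk s S o) = lsp (mk s' S o) := by
  induction S with
  | leaf => intro o h; rfl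
  | last g ih => intro o h; simp only [mk, lsp]; exact ih o h
  | comb g q h ihg ihh =>
    intro o hs
    have h1 := g.sz_pos
    have h2 := h.sz_pos
    simp only [Sh.sz] at hs
    simp only [mk, lsp]
    rw [ihh _ fun j hj hj2 => hs j (by omega) (by omega),
      Ks_congr (hs (2 * (o + g.sz - 1) + 1) (by omega) (by omega))]

theorem av_congr {s s' : Sd n b} (S : Sh) : ∀ o t, t < S.sz →
    (∀ j, 2 * o ≤ j → j + 2 < 2 * (o + S.sz) → s j = s' j) →
    av (mk s S o) t = av (mk s' S o) t := by
  induction S with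
  | leaf => intro o t _ h; rfl
  | last g ih => intro o t ht h; simp only [mk, av]; rw [ih o t ht h, ksp_congr g o h]
  | comb g q h ihg ihh =>
    intro o t ht hs
    have h1 := g.sz_pos
    have h2 := h.sz_pos
    simp only [Sh.sz] at hs ht
    simp only [mk, av, lv_mk]
    split_ifs with h3
    · rw [ihg o t h3 fun j hj hj2 => hs j (by omega) (by omega),
        ksp_congr g o fun j hj hj2 => hs j (by omega) (by omega)]
    · exact ihh _ _ (by omega) fun j hj hj2 => hs j (by omega) (by omega)

theorem fr_congr {s s' : Sd n b} (S : Sh) : ∀ o t, t < S.sz →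
    (∀ j, 2 * o ≤ j → j < 2 * (o + t) → s j = s' j) →
    fr (mk s S o) t = fr (mk s' S o) t := by
  induction S with
  | leaf => intro o t _ h; rfl
  | last g ih => intro o t ht h; simp only [mk, fr]; exact ih o t ht h
  | comb g q h ihg ihh =>
    intro o t ht hs
    have h1 := g.sz_pos
    have h2 := h.sz_pos
    simp only [Sh.sz] at ht
    simp only [mk, fr, lv_mk]
    split_ifs with h3
    · exact ihg o t h3 hs
    · rw [ihh _ _ (by omega) fun j hj hj2 => hs j (by omega) (by omega),
        Ks_congr (hs (2 * (o + g.sz - 1) + 1) (by omega) (by omega))]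

theorem frc_congr {s s' : Sd n b} {x : Vx n} (S : Sh) : ∀ o t k (O : Asg n), t < S.sz →
    (∀ j, 2 * o ≤ j → j ≤ 2 * (o + t) → s j = s' j) →
    frc x (mk s S o) t k O = frc x (mk s' S o) t k O := by
  induction S with
  | leaf =>
    intro o t k O _ h
    simp only [mk, frc]
    rw [Rs_congr (h (2 * o) le_rfl (by omega))]
  | last g ih => intro o t k O ht h; simp only [mk, frc]; rw [ih o t k O ht h]
  | comb g q h ihg ihh =>
    intro o t k O ht hs
    have h1 := g.sz_pos
    have h2 := h.sz_pos
    simp only [Sh.sz] at ht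
    simp only [mk, frc, lv_mk]
    split_ifs with h3
    · rw [ihg o t _ _ h3 hs]
    · rw [Ks_congr (hs (2 * (o + g.sz - 1) + 1) (by omega) (by omega)),
        mk_congr g o fun j hj hj2 => hs j (by omega) (by omega),
        ihh _ _ _ _ (by omega) fun j hj hj2 => hs j (by omega) (by omega)]

theorem ext_congr {s s' : Sd n b} {x : Vx n} (S : Sh) : ∀ o t (O : Asg n), t < S.sz →
    (∀ j, 2 * o ≤ j → j ≤ 2 * (o + t) + 1 → s j = s' j) →
    (ext x (mk s S o) t O ↔ ext x (mk s' S o) t O) := by
  induction S with
  | leaf =>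
    intro o t O _ h
    simp only [mk, ext]
  | last g ih => intro o t O ht h; simp only [mk, ext]; exact ih o t O ht h
  | comb g q h ihg ihh =>
    intro o t O ht hs
    have h1 := g.sz_pos
    have h2 := h.sz_pos
    simp only [Sh.sz] at ht
    simp only [mk, ext, lv_mk]
    split_ifs with h3 h4
    · rw [Ks_congr (hs (2 * (o + g.sz - 1) + 1) (by omega) (by omega)),
        mk_congr g o fun j hj hj2 => hs j (by omega) (by omega)]
    · exact ihg o t _ h3 hs
    · rw [Ks_congr (hs (2 * (o + g.sz - 1) + 1) (by omega) (by omega)),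
        mk_congr g o fun j hj hj2 => hs j (by omega) (by omega)]
      exact ihh _ _ _ (by omega) fun j hj hj2 => hs j (by omega) (by omega)

/-! ### the face which follows a leaf -/

/-- the sets on the way to the last leaf of the subtree which ends with the leaf number `t` -/
def lsx : Tr n → ℕ → Finset (Fin n)
  | .leaf _, _ => ∅
  | .last g, t => lsx g t
  | .comb g _ _ h, t => if t < lv g then (if t + 1 = lv g then lsp g else lsx g t) else lsx h (t - lv g)

theorem lsx_congr {s s' : Sd n b} (S : Sh) : ∀ o t, t < S.sz →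
    (∀ j, 2 * o ≤ j → j < 2 * (o + t) → s j = s' j) →
    lsx (mk s S o) t = lsx (mk s' S o) t := by
  induction S with
  | leaf => intro o t _ h; rfl
  | last g ih => intro o t ht h; simp only [mk, lsx]; exact ih o t ht h
  | comb g q h ihg ihh =>
    intro o t ht hs
    have h1 := g.sz_pos
    have h2 := h.sz_pos
    simp only [Sh.sz] at ht
    simp only [mk, lsx, lv_mk]
    split_ifs with h3 h4
    · exact lsp_congr g o fun j hj hj2 => hs j (by omega) (by omega)
    · exact ihg o t h3 hs
    · exact ihh _ _ (by omega) fun j hj hj2 => hs j (by omega) (by omega)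

/-- if the following face is not reached then there are many differences -/
theorem not_ext_mk {s : Sd n b} {x : Vx n} (S : Sh) : ∀ o t (O : Asg n), t + 1 < S.sz →
    ¬ ext x (mk s S o) t O →
    S.thr t < ((Ks s (o + t)).filter fun i => x i ≠ Rs s (o + t) i ∨ i ∈ lsx (mk s S o) t).card := by
  induction S with
  | leaf => intro o t O h; simp [Sh.sz] at h
  | last g ih =>
    intro o t O ht h
    simp only [mk, ext] at h
    simp only [mk, lsx, Sh.thr]
    exact ih o t O ht h
  | comb g q h ihg ihh =>
    intro o t O ht hx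
    have h1 := g.sz_pos
    have h2 := h.sz_pos
    simp only [Sh.sz] at ht
    simp only [mk, ext, lv_mk] at hx
    simp only [mk, lsx, lv_mk, Sh.thr]
    by_cases h3 : t < g.sz
    · rw [if_pos h3] at hx
      simp only [if_pos h3]
      by_cases h4 : t + 1 = g.sz
      · rw [if_pos h4] at hx
        simp only [if_pos h4]
        push Not at hx
        refine lt_of_lt_of_le hx (card_le_card fun i hi => ?_)
        rw [mem_dis, mem_free] at hi
        rw [mem_filter]
        have h5 : o + g.sz - 1 = o + t := by omega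
        rw [h5] at hi
        refine ⟨hi.1.1, ?_⟩
        by_cases h6 : i ∈ lsp (mk s g o)
        · exact Or.inr h6
        · left
          rw [fin_mk s g o i h6, h5] at hi
          exact hi.2
      · rw [if_neg h4] at hx
        simp only [if_neg h4]
        exact ihg o t O (by omega) hx
    · rw [if_neg h3] at hx
      simp only [if_neg h3]
      have h5 : o + g.sz + (t - g.sz) = o + t := by omega
      have := ihh (o + g.sz) (t - g.sz) _ (by omega) hx
      rw [h5] at this
      exact this

/-- if the following face is reached then there are few differences -/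
theorem ext_mk {s : Sd n b} {x : Vx n} (S : Sh) : ∀ o t (O : Asg n), t + 1 < S.sz →
    ext x (mk s S o) t O →
    ((Ks s (o + t)).filter fun i => x i ≠ Rs s (o + t) i ∧ O i = none ∧ i ∉ fr (mk s S o) t ∧
      i ∉ lsx (mk s S o) t).card ≤ S.thr t := by
  induction S with
  | leaf => intro o t O h; simp [Sh.sz] at h
  | last g ih =>
    intro o t O ht h
    simp only [mk, ext] at h
    simp only [mk, lsx, fr, Sh.thr]
    exact ih o t O ht h
  | comb g q h ihg ihh =>
    intro o t O ht hx
    have h1 := g.sz_pos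
    have h2 := h.sz_pos
    simp only [Sh.sz] at ht
    simp only [mk, ext, lv_mk] at hx
    simp only [mk, lsx, fr, lv_mk, Sh.thr]
    by_cases h3 : t < g.sz
    · rw [if_pos h3] at hx
      simp only [if_pos h3]
      by_cases h4 : t + 1 = g.sz
      · rw [if_pos h4] at hx
        simp only [if_pos h4]
        refine le_trans (card_le_card fun i hi => ?_) hx
        rw [mem_dis, mem_free]
        rw [mem_filter] at hi
        have h5 : o + g.sz - 1 = o + t := by omega
        rw [h5, fin_mk s g o i hi.2.2.2.2, h5]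
        exact ⟨⟨hi.1, hi.2.2.1⟩, hi.2.1⟩
      · rw [if_neg h4] at hx
        simp only [if_neg h4]
        exact ihg o t O (by omega) hx
    · rw [if_neg h3] at hx
      simp only [if_neg h3]
      have h5 : o + g.sz + (t - g.sz) = o + t := by omega
      have := ihh (o + g.sz) (t - g.sz) _ (by omega) hx
      rw [h5] at this
      refine le_trans (card_le_card fun i hi => ?_) this
      rw [mem_filter] at hi ⊢
      obtain ⟨a1, a2, a3, a4, a5⟩ := hi
      rw [mem_union, not_or] at a4
      exact ⟨a1, a2, by simp [add, a3, a4.1], a4.2, a5⟩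

/-! ### sizes -/

theorem card_ksp {s : Sd n b} {κ : ℕ} (S : Sh) : ∀ o,
    (∀ j, o ≤ j → j + 1 < o + S.sz → (Ks s j).card ≤ κ) → (ksp (mk s S o)).card ≤ S.nk * κ := by
  induction S with
  | leaf => intro o _; simp [mk, ksp, Sh.nk]
  | last g ih => intro o _; simp [mk, ksp, Sh.nk]
  | comb g q h ihg ihh =>
    intro o hs
    have h1 := g.sz_pos
    have h2 := h.sz_pos
    simp only [Sh.sz] at hs
    simp only [mk, ksp, Sh.nk]
    have h3 := ihh (o + g.sz) fun j hj hj2 => hs j (by omega) (by omega)
    have h4 := hs (o + g.sz - 1) (by omega) (by omega)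
    calc _ ≤ _ := card_union_le _ _
      _ ≤ κ + h.nk * κ := Nat.add_le_add h4 h3
      _ = (1 + h.nk) * κ := by ring

theorem Sh.nk_le (S : Sh) : S.nk ≤ S.wt := by
  induction S with
  | leaf => simp [Sh.nk]
  | last g ih => simp [Sh.nk]
  | comb g q h ihg ihh => simp only [Sh.nk, Sh.wt]; omega

theorem card_lsp {s : Sd n b} {κ : ℕ} (S : Sh) : ∀ o,
    (∀ j, o ≤ j → j + 1 < o + S.sz → (Ks s j).card ≤ κ) → (lsp (mk s S o)).card ≤ S.wt * κ := by
  induction S with
  | leaf => intro o _; simp [mk, lsp, Sh.wt]
  | last g ih =>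
    intro o hs
    simp only [mk, lsp, Sh.wt]
    exact (ih o hs).trans (Nat.mul_le_mul_right _ (by omega))
  | comb g q h ihg ihh =>
    intro o hs
    have h1 := g.sz_pos
    have h2 := h.sz_pos
    simp only [Sh.sz] at hs
    simp only [mk, lsp, Sh.wt]
    have h3 := ihh (o + g.sz) fun j hj hj2 => hs j (by omega) (by omega)
    have h4 := hs (o + g.sz - 1) (by omega) (by omega)
    calc _ ≤ _ := card_union_le _ _
      _ ≤ κ + h.wt * κ := Nat.add_le_add h4 h3
      _ = (1 + h.wt) * κ := by ring
      _ ≤ _ := Nat.mul_le_mul_right _ (le_max_right _ _)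

theorem card_fr {s : Sd n b} {κ : ℕ} (S : Sh) : ∀ o t, t < S.sz →
    (∀ j, o ≤ j → j + 1 < o + S.sz → (Ks s j).card ≤ κ) → (fr (mk s S o) t).card ≤ S.wt * κ := by
  induction S with
  | leaf => intro o t _ _; simp [mk, fr, Sh.wt]
  | last g ih =>
    intro o t ht hs
    simp only [mk, fr, Sh.wt]
    exact (ih o t ht hs).trans (Nat.mul_le_mul_right _ (by omega))
  | comb g q h ihg ihh =>
    intro o t ht hs
    have h1 := g.sz_pos
    have h2 := h.sz_pos
    simp only [Sh.sz] at hs ht
    simp only [mk, fr, Sh.wt, lv_mk]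
    split_ifs with h5
    · exact (ihg o t h5 fun j hj hj2 => hs j (by omega) (by omega)).trans
        (Nat.mul_le_mul_right _ (le_trans (by omega) (le_max_left _ _)))
    · have h3 := ihh (o + g.sz) (t - g.sz) (by omega) fun j hj hj2 => hs j (by omega) (by omega)
      have h4 := hs (o + g.sz - 1) (by omega) (by omega)
      calc _ ≤ _ := card_union_le _ _
        _ ≤ κ + h.wt * κ := Nat.add_le_add h4 h3
        _ = (1 + h.wt) * κ := by ring
        _ ≤ _ := Nat.mul_le_mul_right _ (le_max_right _ _)

theorem card_av {s : Sd n b} {κ : ℕ} (S : Sh) : ∀ o t, t < S.sz →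
    (∀ j, o ≤ j → j + 1 < o + S.sz → (Ks s j).card ≤ κ) → (av (mk s S o) t).card ≤ S.wt * κ := by
  induction S with
  | leaf => intro o t _ _; simp [mk, av, Sh.wt]
  | last g ih =>
    intro o t ht hs
    simp only [mk, av, Sh.wt]
    calc _ ≤ _ := card_union_le _ _
      _ ≤ g.nk * κ + g.wt * κ := Nat.add_le_add (card_ksp g o hs) (ih o t ht hs)
      _ = _ := by ring
  | comb g q h ihg ihh =>
    intro o t ht hs
    have h1 := g.sz_pos
    have h2 := h.sz_pos
    simp only [Sh.sz] at hs ht
    simp only [mk, av, Sh.wt, lv_mk]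
    split_ifs with h5
    · calc _ ≤ _ := card_union_le _ _
        _ ≤ g.nk * κ + g.wt * κ := Nat.add_le_add
          (card_ksp g o fun j hj hj2 => hs j (by omega) (by omega))
          (ihg o t h5 fun j hj hj2 => hs j (by omega) (by omega))
        _ = (g.nk + g.wt) * κ := by ring
        _ ≤ _ := Nat.mul_le_mul_right _ (le_max_left _ _)
    · exact (ihh (o + g.sz) (t - g.sz) (by omega) fun j hj hj2 => hs j (by omega) (by omega)).trans
        (Nat.mul_le_mul_right _ (le_trans (by omega) (le_max_right _ _)))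

theorem card_lsx {s : Sd n b} {κ : ℕ} (S : Sh) : ∀ o t, t < S.sz →
    (∀ j, o ≤ j → j + 1 < o + S.sz → (Ks s j).card ≤ κ) → (lsx (mk s S o) t).card ≤ S.wt * κ := by
  induction S with
  | leaf => intro o t _ _; simp [mk, lsx, Sh.wt]
  | last g ih =>
    intro o t ht hs
    simp only [mk, lsx, Sh.wt]
    exact (ih o t ht hs).trans (Nat.mul_le_mul_right _ (by omega))
  | comb g q h ihg ihh =>
    intro o t ht hs
    have h1 := g.sz_pos
    have h2 := h.sz_pos
    simp only [Sh.sz] at hs ht
    simp only [mk, lsx, Sh.wt, lv_mk]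
    split_ifs with h5 h6
    · exact (card_lsp g o fun j hj hj2 => hs j (by omega) (by omega)).trans
        (Nat.mul_le_mul_right _ (le_trans (by omega) (le_max_left _ _)))
    · exact (ihg o t h5 fun j hj hj2 => hs j (by omega) (by omega)).trans
        (Nat.mul_le_mul_right _ (le_trans (by omega) (le_max_left _ _)))
    · exact (ihh (o + g.sz) (t - g.sz) (by omega) fun j hj hj2 => hs j (by omega) (by omega)).trans
        (Nat.mul_le_mul_right _ (le_trans (by omega) (le_max_right _ _)))

end Pool.Agent.H686.RP
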