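import Mathlib
set_option autoImplicit false

/-!
# Abstract objective functions with hidden absorbing faces: definitions

`Tr n` are trees which describe orientations of the `n`-cube, `ev x T c O` evaluates the tree `T` at the
vertex `x`; the result is a potential (a list of numbers, compared lexicographically) and the point towards
which the edges at `x` are oriented.
-/

namespace Pool.Agent.H686.RP

open Finset

/-- vertices of the `n`-cube -/
abbrev Vx (n : ℕ) := Fin n → Bool

/-- partial assignments -/
abbrev Asg (n : ℕ) := Fin n → Option Bool

/-- descriptions of orientations -/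
inductive Tr (n : ℕ) : Type
  | leaf (R : Vx n) : Tr n
  | last (g : Tr n) : Tr n
  | comb (g : Tr n) (K : Finset (Fin n)) (q : ℕ) (h : Tr n) : Tr n

variable {n : ℕ}

/-- the last target -/
def Tr.fin : Tr n → Vx n
  | .leaf R => R
  | .last g => g.fin
  | .comb g K _ h => fun i => if i ∈ K then g.fin i else h.fin i

/-- the directions of the spine -/
def Tr.sp : Tr n → Finset (Fin n)
  | .leaf _ => univ
  | .last _ => ∅
  | .comb _ K _ h => K ∪ h.sp

/-- a hidden face: its set of directions, the target and the radius -/
structure Ent (n : ℕ) where
  A : Finset (Fin n)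
  r : Vx n
  q : ℕ

/-- the directions in `A` where `x` differs from `r` -/
def dis (A : Finset (Fin n)) (r x : Vx n) : Finset (Fin n) := A.filter fun i => x i ≠ r i

/-- the directions of `A` which are not assigned -/
def free (A : Finset (Fin n)) (O : Asg n) : Finset (Fin n) := A.filter fun i => O i = none

/-- the number of the directions in `A` where `x` agrees with `r` -/
def ag (A : Finset (Fin n)) (r x : Vx n) : ℕ := (A.filter fun i => x i = r i).card

/-- assign the values of `r` to the directions of `A` which have no value yet -/
def add (O : Asg n) (A : Finset (Fin n)) (r : Vx n) : Asg n :=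
  fun i => if O i = none ∧ i ∈ A then some (r i) else O i

/-- remove from the set of `e` the directions of the spine of `g` where the targets differ -/
def cut (g : Tr n) (O : Asg n) (e : Ent n) : Finset (Fin n) :=
  e.A.filter fun i => ¬ (i ∈ g.sp ∧ O i = none ∧ g.fin i ≠ e.r i)

/-- results: potential and target -/
abbrev Res (n : ℕ) := List ℕ × Vx n

/-- prepend to the potential -/
def pre (a : List ℕ) (r : Res n) : Res n := (a ++ r.1, r.2)

/-- process the hidden faces of a list on the way to `g`, then continue with `k` -/
def evL (x : Vx n) (g : Tr n) (k : List (Ent n) → Asg n → Res n) :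
    List (Ent n) → List (Ent n) → Asg n → Res n
  | [], c, O => k c O
  | e :: l, c, O =>
    if (dis (cut g O e) e.r x).card ≤ e.q then
      pre [1, ag (free e.A O) e.r x] (evL x g k l c (add O e.A e.r))
    else pre [0] (evL x g k l (⟨cut g O e, e.r, e.q⟩ :: c) O)

/-- evaluation of a tree at a vertex -/
def ev (x : Vx n) : Tr n → List (Ent n) → Asg n → Res n
  | .leaf R, _, O => ([ag (free univ O) R x], fun i => (O i).getD (R i))
  | .last g, c, O => evL x g (ev x g) c [] O
  | .comb g K q h, c, O =>
    if (dis (free K O) g.fin x).card ≤ q then
      pre [1, ag (free K O) g.fin x] (ev x h c (add O K g.fin))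
    else pre [0] (evL x g (ev x g) (⟨free K O, g.fin, q⟩ :: c) [] O)

/-! ### invariants -/

/-- the targets of the hidden faces agree on common free directions -/
def PC (c : List (Ent n)) (O : Asg n) : Prop :=
  ∀ e ∈ c, ∀ e' ∈ c, ∀ i ∈ e.A, i ∈ e'.A → O i = none → e.r i = e'.r i

/-- the targets of the hidden faces agree with the last target of `g` on the spine of `g` -/
def IC (g : Tr n) (c : List (Ent n)) (O : Asg n) : Prop :=
  ∀ e ∈ c, ∀ i ∈ e.A, i ∈ g.sp → O i = none → e.r i = g.fin i

/-- `x` is far from the hidden faces -/
def Far (c : List (Ent n)) (x : Vx n) : Prop := ∀ e ∈ c, e.q < (dis e.A e.r x).card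

/-- lexicographic order with a first difference -/
def ltl : List ℕ → List ℕ → Prop
  | a :: l, b :: l' => a < b ∨ (a = b ∧ ltl l l')
  | _, _ => False

end Pool.Agent.H686.RP
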