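import Pool.Agent.H686.RP.Walk
set_option autoImplicit false

/-!
# The choice of the shape and of the parameters
-/

namespace Pool.Agent.H686.RP

open Finset

variable {n : ℕ}

/-- a spine with `c` combs -/
def spn (g : Sh) (q : ℕ) : ℕ → Sh
  | 0 => .last g
  | c + 1 => .comb g q (spn g q c)

/-- the shape with `m` levels -/
def shp (r : ℕ → ℕ) (d : ℕ) : ℕ → Sh
  | 0 => .leaf
  | m + 1 => spn (shp r d m) (r m) d

theorem sz_spn (g : Sh) (q c : ℕ) : (spn g q c).sz = (c + 1) * g.sz := by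
  induction c with
  | zero => simp [spn, Sh.sz]
  | succ c ih => rw [spn, Sh.sz, ih]; ring

theorem sz_shp (r : ℕ → ℕ) (d m : ℕ) : (shp r d m).sz = (d + 1) ^ m := by
  induction m with
  | zero => simp [shp, Sh.sz]
  | succ m ih => rw [shp, sz_spn, ih]; ring

theorem wf_spn {g : Sh} (q c : ℕ) (hg : g.wf) : (spn g q c).wf ∧ (spn g q c).ns := by
  induction c with
  | zero => exact ⟨hg, by simp [spn, Sh.ns]⟩
  | succ c ih => exact ⟨⟨hg, ih.1, ih.2⟩, ih.2⟩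

theorem wf_shp (r : ℕ → ℕ) (d m : ℕ) : (shp r d m).wf := by
  induction m with
  | zero => simp [shp, Sh.wf]
  | succ m ih => exact (wf_spn _ _ ih).1

theorem nk_spn (g : Sh) (q c : ℕ) : (spn g q c).nk = c := by
  induction c with
  | zero => simp [spn, Sh.nk]
  | succ c ih => rw [spn, Sh.nk, ih]; ring

theorem nk_shp (r : ℕ → ℕ) (d m : ℕ) : (shp r d m).nk ≤ d := by
  cases m with
  | zero => simp [shp, Sh.nk]
  | succ m => rw [shp, nk_spn]

theorem wt_spn (g : Sh) (q c : ℕ) : (spn g q c).wt ≤ c + (g.nk + g.wt) := by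
  induction c with
  | zero => simp [spn, Sh.wt]
  | succ c ih => rw [spn, Sh.wt]; omega

theorem wt_shp (r : ℕ → ℕ) (d m : ℕ) : (shp r d m).wt ≤ 2 * d * m := by
  induction m with
  | zero => simp [shp, Sh.wt]
  | succ m ih =>
    rw [shp]
    have h1 := wt_spn (shp r d m) (r m) d
    have h2 := nk_shp r d m
    have h3 : 2 * d * (m + 1) = 2 * d * m + 2 * d := by ring
    omega

theorem dep_spn (g : Sh) (q c : ℕ) : (spn g q c).dep ≤ 1 + g.dep := by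
  induction c with
  | zero => simp [spn, Sh.dep]
  | succ c ih => rw [spn, Sh.dep]; omega

theorem dep_shp (r : ℕ → ℕ) (d m : ℕ) : (shp r d m).dep ≤ m := by
  induction m with
  | zero => simp [shp, Sh.dep]
  | succ m ih =>
    rw [shp]
    have h1 := dep_spn (shp r d m) (r m) d
    omega

theorem thr_spn {g : Sh} {q R : ℕ} (hq : R ≤ q) (hg : ∀ t, t + 1 < g.sz → R ≤ g.thr t) (c : ℕ) :
    ∀ t, t + 1 < (spn g q c).sz → R ≤ (spn g q c).thr t := by
  induction c with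
  | zero => intro t ht; exact hg t ht
  | succ c ih =>
    intro t ht
    simp only [spn, Sh.sz] at ht
    rw [spn, Sh.thr]
    split_ifs with h1 h2
    · exact hq
    · exact hg t (by omega)
    · exact ih _ (by omega)

theorem thr_shp {r : ℕ → ℕ} {R : ℕ} (d m : ℕ) (hr : ∀ j < m, R ≤ r j) :
    ∀ t, t + 1 < (shp r d m).sz → R ≤ (shp r d m).thr t := by
  induction m with
  | zero => intro t ht; simp [shp, Sh.sz] at ht
  | succ m ih => exact thr_spn (hr m (by omega)) (ih fun j hj => hr j (by omega)) d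

theorem gd_spn {g : Sh} {q Q q' : ℕ} (h1 : Q ≤ q) (h2 : q ≤ q') (h3 : ∀ t, t + 1 < g.sz → 128 * q ≤ g.thr t)
    (h4 : g.gd Q q') (c : ℕ) : (spn g q c).gd Q q' := by
  induction c with
  | zero => exact h4
  | succ c ih => exact ⟨h1, h2, h3, h4, ih⟩

theorem gd_shp {r : ℕ → ℕ} {Q q' : ℕ} (d m : ℕ) (h1 : ∀ j < m, Q ≤ r j ∧ r j ≤ q')
    (h2 : ∀ i j, i < j → j < m → 128 * r j ≤ r i) : (shp r d m).gd Q q' := by
  induction m with
  | zero => simp [shp, Sh.gd]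
  | succ m ih =>
    exact gd_spn (h1 m (by omega)).1 (h1 m (by omega)).2
      (thr_shp d m fun j hj => h2 j m hj (by omega))
      (ih (fun j hj => h1 j (by omega)) fun i j hi hj => h2 i j hi (by omega)) d

theorem pow_le_half (Q : ℕ) : (5 / 8 : ℝ) ^ Q ≤ (1 / 2) ^ (Q / 2) := by
  calc (5 / 8 : ℝ) ^ Q ≤ (5 / 8) ^ (2 * (Q / 2)) :=
        pow_le_pow_of_le_one (by norm_num) (by norm_num) (by omega)
    _ = (25 / 64) ^ (Q / 2) := by rw [pow_mul]; norm_num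
    _ ≤ _ := pow_le_pow_left₀ (by norm_num) (by norm_num) _

theorem num3 {k : ℕ} (hk : 1 ≤ k) : 2 * k ^ 2 + 2 * k + 6 ≤ 2 ^ (6 * k) / 4 := by
  have h1 : k < 2 ^ k := Nat.lt_two_pow_self
  have h2 : 2 ≤ 2 ^ k := by
    calc 2 = 2 ^ 1 := rfl
      _ ≤ _ := Nat.pow_le_pow_right (by norm_num) hk
  have h3 : 2 ^ (6 * k) = (2 ^ k) ^ 6 := by rw [← pow_mul, mul_comm]
  rw [h3, Nat.le_div_iff_mul_le (by norm_num)]
  obtain ⟨z, hz⟩ : ∃ z, 2 ^ k = z + 2 := ⟨2 ^ k - 2, by omega⟩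
  rw [hz] at h1 ⊢
  have h4 : k ≤ z + 1 := by omega
  have h5 : k ^ 2 ≤ (z + 1) ^ 2 := Nat.pow_le_pow_left h4 2
  nlinarith [Nat.zero_le z, Nat.zero_le (z ^ 2), Nat.zero_le (z ^ 3), Nat.zero_le (z ^ 4),
    Nat.zero_le (z ^ 5), Nat.zero_le (z ^ 6)]

/-- the lower bound -/
theorem main {k : ℕ} (hk : 1 ≤ k) (hn : 2 ^ (32 * k) ≤ n) {ι : Type*} [Fintype ι]
    (hι : Fintype.card ι ≤ 2 ^ (n / 2 ^ (26 * k + 2)))
    (p : ι → List (Vx n × ℕ × Finset (Fin n)) → Fin n → ℝ) (hp0 : ∀ j l i, 0 ≤ p j l i)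
    (hp1 : ∀ j x c S l, S.Nonempty → ∑ i ∈ S, p j ((x, c, S) :: l) i = 1)
    (μ : ι → Vx n → ℝ) (hμ0 : ∀ j x, 0 ≤ μ j x) (hμ1 : ∀ j, ∑ x, μ j x = 1) :
    ∃ f : Vx n → ℕ, Function.Injective f ∧
      (∀ (U : Finset (Fin n)) (x : Vx n), ∃! y : Vx n,
        (∀ i, i ∉ U → y i = x i) ∧ ∀ i ∈ U, f (flp y i) < f y) ∧
      ∀ j, 1 - (1 / 2) ^ k ≤ ∑ x, μ j x * prb f (p j) (2 ^ (k ^ 2)) x [] := by
  obtain ⟨Q, hQ⟩ : ∃ Q, Q = n / 2 ^ (26 * k) := ⟨_, rfl⟩
  obtain ⟨b, hbdef⟩ : ∃ b, b = 2 ^ (19 * k) := ⟨_, rfl⟩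
  obtain ⟨κ, hκ⟩ : ∃ κ, κ = 16 * Q * 2 ^ (7 * k) := ⟨_, rfl⟩
  have hb : 0 < b := by rw [hbdef]; positivity
  -- sizes
  have hQn : Q * 2 ^ (26 * k) ≤ n := by rw [hQ]; exact Nat.div_mul_le_self _ _
  have hQ64 : 2 ^ (6 * k) ≤ Q := by
    rw [hQ, Nat.le_div_iff_mul_le (by positivity), ← pow_add]
    exact le_trans (le_of_eq (by ring_nf)) hn
  have hQ0 : 0 < Q := lt_of_lt_of_le (by positivity) hQ64
  have hnQ : n < 2 * (Q * 2 ^ (26 * k)) := by
    have h1 : n < 2 ^ (26 * k) * (Q + 1) := by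
      rw [hQ]
      exact Nat.lt_mul_div_succ n (by positivity)
    nlinarith
  obtain ⟨y, hy⟩ : ∃ y, y = 2 ^ k := ⟨_, rfl⟩
  have hy2 : 2 ≤ y := by
    rw [hy]
    calc 2 = 2 ^ 1 := rfl
      _ ≤ _ := Nat.pow_le_pow_right (by norm_num) hk
  have hky : k ≤ y := by rw [hy]; exact Nat.lt_two_pow_self.le
  have hby : b = y ^ 19 := by rw [hbdef, hy, ← pow_mul, mul_comm]
  have h26 : 2 ^ (26 * k) = y ^ 26 := by rw [hy, ← pow_mul, mul_comm]
  have h7 : 2 ^ (7 * k) = y ^ 7 := by rw [hy, ← pow_mul, mul_comm]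
  rw [h26] at hQn hnQ
  rw [h7] at hκ
  set r : ℕ → ℕ := fun j => 128 ^ (k - 1 - j) * Q with hr
  set q' : ℕ := 128 ^ (k - 1) * Q with hq'
  set S : Sh := shp r y k with hS
  set Z : ℕ := 2 * y * k with hZdef
  have hgd : S.gd Q q' := by
    apply gd_shp
    · intro j hj
      constructor
      · exact Nat.le_mul_of_pos_left _ (by positivity)
      · exact Nat.mul_le_mul_right _ (Nat.pow_le_pow_right (by norm_num) (by omega))
    · intro i j hij hj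
      calc 128 * (128 ^ (k - 1 - j) * Q) = 128 ^ (k - 1 - j + 1) * Q := by ring
        _ ≤ 128 ^ (k - 1 - i) * Q :=
          Nat.mul_le_mul_right _ (Nat.pow_le_pow_right (by norm_num) (by omega))
  have hwt : S.wt ≤ Z := wt_shp r y k
  have hdep : S.dep ≤ k := dep_shp r y k
  have hsz : S.sz = (y + 1) ^ k := sz_shp r y k
  have hwf : S.wf := wf_shp r y k
  have hZ : 16 * (Z * κ) ≤ b * Q := by
    have h1 : 1024 ≤ y ^ 10 := by
      calc 1024 = 2 ^ 10 := by norm_num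
        _ ≤ _ := Nat.pow_le_pow_left hy2 10
    calc 16 * (Z * κ) = 512 * k * (y ^ 8 * Q) := by rw [hZdef, hκ]; ring
      _ ≤ 1024 * y * (y ^ 8 * Q) := Nat.mul_le_mul_right _ (Nat.mul_le_mul (by norm_num) hky)
      _ ≤ y ^ 10 * y * (y ^ 8 * Q) := Nat.mul_le_mul_right _ (Nat.mul_le_mul_right _ h1)
      _ = b * Q := by rw [hby]; ring
  have hbq : 128 * (b * q') = Q * y ^ 26 := by
    obtain ⟨m, hm⟩ : ∃ m, k = m + 1 := ⟨k - 1, by omega⟩
    have h1 : 128 * 128 ^ (k - 1) = y ^ 7 := by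
      rw [← h7, hm]
      simp only [Nat.add_sub_cancel]
      rw [← pow_succ', pow_mul]
      norm_num
    calc 128 * (b * q') = 128 * 128 ^ (k - 1) * (b * Q) := by rw [hq']; ring
      _ = Q * y ^ 26 := by rw [h1, hby]; ring
  have hbQ : b * Q ≤ Q * y ^ 26 := by
    rw [hby, mul_comm]
    exact Nat.mul_le_mul_left _ (Nat.pow_le_pow_right (by omega) (by norm_num))
  have hn' : 8 * (b * q') + 2 * (Z * κ) ≤ n := by omega
  have hsize : 16 * n ≤ 3 * (κ * b) := by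
    have h1 : κ * b = 16 * (Q * y ^ 26) := by rw [hκ, hby]; ring
    omega
  have hT : 2 ^ (k ^ 2) < S.sz := by
    rw [hsz, pow_two, pow_mul, ← hy]
    exact Nat.pow_lt_pow_left (by omega) (by omega)
  have hS0 : 0 < S.sz := S.sz_pos
  -- averages
  obtain ⟨T, hTdef⟩ : ∃ T, T = 2 ^ (k ^ 2) := ⟨_, rfl⟩
  rw [← hTdef] at hT ⊢
  set ε : ℝ := (5 / 8) ^ Q with hε
  have hε0 : 0 ≤ ε := by positivity
  set F : ℕ := S.len 0 with hF
  set G : Sd n b → ℝ := fun s => (∑ j, 2 ^ k * (∑ x, μ j x * (BW S κ F (p j) s T 0 x [] + arr S κ x 0 s))) +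
    ∑ j ∈ range S.sz, ind (κ < (Ks s j).card) with hG
  obtain ⟨s₀⟩ : Nonempty (Sd n b) := ⟨fun _ _ => (false, ⟨0, hb⟩)⟩
  have hBW : ∀ j x, mns (L S 0) (fun s => BW S κ F (p j) s T 0 x []) s₀ ≤
      (T + 1) * ((T + 1) * ((S.dep + 1) * ε) + ε) := fun j x =>
    mns_L (by omega) hb
      (fun s => (BW_avg hb hwt hgd hZ hn' (hp0 j) (hp1 j) T T le_rfl 0 x [] s (by omega)).1) s₀
  have harr : ∀ x, mns (L S 0) (arr S κ x 0) s₀ ≤ ε := fun x =>
    arr_avg hb (by omega) hwt hgd x s₀ hn' L_ge L_mem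
  have hsiz : mns (L S 0) (fun s => ∑ j ∈ range S.sz, ind (κ < (Ks s j).card)) s₀ ≤ S.sz * ε := by
    rw [mns_sum hb]
    calc _ ≤ ∑ j ∈ range S.sz, ε := by
          apply sum_le_sum
          intro j hj
          rw [mem_range] at hj
          refine mns_le1 hb (L_ge (S := S)) (L_mem (2 * j + 1) (by omega) (by omega)) fun s' _ => ?_
          refine (pl_siz hb j s' hsize).trans (pow_le_pow_of_le_one (by norm_num) (by norm_num) ?_)
          rw [hκ, mul_comm 16 Q, mul_assoc]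
          exact Nat.le_mul_of_pos_right _ (by positivity)
      _ = _ := by rw [sum_const, card_range, nsmul_eq_mul]
  have hone : ∀ j, mns (L S 0) (fun s => 2 ^ k * (∑ x, μ j x * (BW S κ F (p j) s T 0 x [] + arr S κ x 0 s))) s₀ ≤
      2 ^ k * ((T + 1) * ((T + 1) * ((S.dep + 1) * ε) + ε) + ε) := by
    intro j
    rw [mns_mul]
    apply mul_le_mul_of_nonneg_left _ (by positivity)
    rw [mns_sum hb]
    simp_rw [mns_mul, mns_add]
    calc ∑ x, μ j x * (mns (L S 0) (fun s => BW S κ F (p j) s T 0 x []) s₀ +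
          mns (L S 0) (fun s => arr S κ x 0 s) s₀)
        ≤ ∑ x, μ j x * ((T + 1) * ((T + 1) * ((S.dep + 1) * ε) + ε) + ε) :=
          sum_le_sum fun x _ => mul_le_mul_of_nonneg_left (add_le_add (hBW j x) (harr x)) (hμ0 j x)
      _ = _ := by rw [← sum_mul, hμ1, one_mul]
  have hGavg : mns (L S 0) G s₀ < 1 := by
    rw [hG, mns_add, mns_sum hb]
    have a1 : (S.dep : ℝ) + 1 ≤ 2 ^ k := by
      have : S.dep + 1 ≤ 2 ^ k := by
        have := Nat.lt_two_pow_self (n := k)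
        omega
      exact_mod_cast this
    have a2 : (T : ℝ) + 1 ≤ 2 ^ (k ^ 2 + 1) := by
      rw [hTdef]
      push_cast
      have : (1 : ℝ) ≤ 2 ^ (k ^ 2) := one_le_pow₀ (by norm_num)
      rw [pow_succ (2 : ℝ) (k ^ 2)]
      linarith
    have a3 : (S.sz : ℝ) ≤ 2 ^ (k ^ 2 + k) := by
      have h1 : S.sz ≤ 2 ^ (k ^ 2 + k) := by
        calc S.sz = (y + 1) ^ k := hsz
          _ ≤ (2 * y) ^ k := Nat.pow_le_pow_left (by omega) _
          _ = 2 ^ (k ^ 2 + k) := by rw [hy, ← pow_succ', ← pow_mul]; congr 1; ring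
      exact_mod_cast h1
    have a5 : (1 : ℝ) ≤ 2 ^ (k ^ 2 + 1) * 2 ^ k := by
      rw [← pow_add]; exact one_le_pow₀ (by norm_num)
    have b1 : ((T : ℝ) + 1) * ((S.dep + 1) * ε) ≤ 2 ^ (k ^ 2 + 1) * (2 ^ k * ε) := by
      apply mul_le_mul a2 _ (by positivity) (by positivity)
      exact mul_le_mul_of_nonneg_right a1 hε0
    have b2 : ((T : ℝ) + 1) * ((S.dep + 1) * ε) + ε ≤ 2 * (2 ^ (k ^ 2 + 1) * (2 ^ k * ε)) := by
      have : ε ≤ 2 ^ (k ^ 2 + 1) * (2 ^ k * ε) := by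
        rw [← mul_assoc]
        exact le_mul_of_one_le_left hε0 a5
      linarith
    have b3 : ((T : ℝ) + 1) * (((T : ℝ) + 1) * ((S.dep + 1) * ε) + ε) ≤
        2 ^ (k ^ 2 + 1) * (2 * (2 ^ (k ^ 2 + 1) * (2 ^ k * ε))) :=
      mul_le_mul a2 b2 (by positivity) (by positivity)
    have b4 : (2 : ℝ) ^ k * (2 ^ (k ^ 2 + 1) * (2 * (2 ^ (k ^ 2 + 1) * (2 ^ k * ε)))) =
        2 ^ (2 * k ^ 2 + 2 * k + 3) * ε := by
      rw [show 2 * k ^ 2 + 2 * k + 3 = k + (k ^ 2 + 1) + 1 + (k ^ 2 + 1) + k by ring]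
      simp only [pow_add]
      ring
    have b5 : (2 : ℝ) ^ k * ε ≤ 2 ^ (2 * k ^ 2 + 2 * k + 3) * ε :=
      mul_le_mul_of_nonneg_right (pow_le_pow_right₀ (by norm_num) (by nlinarith)) hε0
    have b6 : (S.sz : ℝ) * ε ≤ 2 ^ (2 * k ^ 2 + 2 * k + 3) * ε :=
      mul_le_mul_of_nonneg_right (a3.trans (pow_le_pow_right₀ (by norm_num) (by nlinarith))) hε0
    have b7 : ∀ j, mns (L S 0) (fun s => 2 ^ k * (∑ x, μ j x * (BW S κ F (p j) s T 0 x [] +
        arr S κ x 0 s))) s₀ ≤ 2 ^ (2 * k ^ 2 + 2 * k + 4) * ε := by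
      intro j
      refine (hone j).trans ?_
      rw [mul_add]
      calc _ ≤ (2 : ℝ) ^ k * (2 ^ (k ^ 2 + 1) * (2 * (2 ^ (k ^ 2 + 1) * (2 ^ k * ε)))) + 2 ^ k * ε :=
            add_le_add (mul_le_mul_of_nonneg_left b3 (by positivity)) le_rfl
        _ ≤ 2 ^ (2 * k ^ 2 + 2 * k + 3) * ε + 2 ^ (2 * k ^ 2 + 2 * k + 3) * ε := add_le_add b4.le b5
        _ = _ := by ring
    have c1 : (Fintype.card ι : ℝ) ≤ 2 ^ (Q / 4) := by
      have h1 : n / 2 ^ (26 * k + 2) = Q / 4 := by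
        rw [hQ, Nat.div_div_eq_div_mul, pow_add]
        norm_num
      rw [h1] at hι
      exact_mod_cast hι
    have c2 : 2 * k ^ 2 + 2 * k + 6 ≤ Q / 4 := (num3 hk).trans (Nat.div_le_div_right hQ64)
    have c3 : (2 : ℝ) ^ (2 * k ^ 2 + 2 * k + 4) * ε ≤ (1 / 2) ^ (Q / 4 + 2) := by
      have h1 : ε ≤ (1 / 2) ^ (Q / 4 + (2 * k ^ 2 + 2 * k + 6)) :=
        (pow_le_half Q).trans (pow_le_pow_of_le_one (by norm_num) (by norm_num) (by omega))
      calc (2 : ℝ) ^ (2 * k ^ 2 + 2 * k + 4) * ε ≤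
            2 ^ (2 * k ^ 2 + 2 * k + 4) * (1 / 2) ^ (Q / 4 + (2 * k ^ 2 + 2 * k + 6)) :=
            mul_le_mul_of_nonneg_left h1 (by positivity)
        _ = (2 * (1 / 2)) ^ (2 * k ^ 2 + 2 * k + 4) * (1 / 2) ^ (Q / 4 + 2) := by
            rw [mul_pow, mul_assoc, ← pow_add]
            congr 2
            ring
        _ = _ := by norm_num
    have c4 : (Fintype.card ι : ℝ) * (2 ^ (2 * k ^ 2 + 2 * k + 4) * ε) ≤ 1 / 4 := by
      calc _ ≤ (2 : ℝ) ^ (Q / 4) * (1 / 2) ^ (Q / 4 + 2) :=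
            mul_le_mul c1 c3 (by positivity) (by positivity)
        _ = (2 * (1 / 2)) ^ (Q / 4) * (1 / 4) := by
            rw [mul_pow, mul_assoc, pow_add]
            norm_num
        _ = 1 / 4 := by norm_num
    have c5 : (2 : ℝ) ^ (2 * k ^ 2 + 2 * k + 3) * ε ≤ 1 / 4 := by
      have h1 : (2 : ℝ) ^ (2 * k ^ 2 + 2 * k + 3) * ε ≤ 2 ^ (2 * k ^ 2 + 2 * k + 4) * ε :=
        mul_le_mul_of_nonneg_right (pow_le_pow_right₀ (by norm_num) (by omega)) hε0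
      refine h1.trans (c3.trans ?_)
      calc (1 / 2 : ℝ) ^ (Q / 4 + 2) ≤ (1 / 2) ^ 2 :=
            pow_le_pow_of_le_one (by norm_num) (by norm_num) (by omega)
        _ = 1 / 4 := by norm_num
    calc (∑ j, mns (L S 0) (fun s => 2 ^ k * (∑ x, μ j x * (BW S κ F (p j) s T 0 x [] +
          arr S κ x 0 s))) s₀) + mns (L S 0) (fun s => ∑ j ∈ range S.sz, ind (κ < (Ks s j).card)) s₀
        ≤ (∑ _j : ι, 2 ^ (2 * k ^ 2 + 2 * k + 4) * ε) + S.sz * ε :=
          add_le_add (sum_le_sum fun j _ => b7 j) hsiz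
      _ ≤ 1 / 4 + 1 / 4 := by
          apply add_le_add
          · rw [sum_const, card_univ, nsmul_eq_mul]
            exact c4
          · exact b6.trans c5
      _ < 1 := by norm_num
  obtain ⟨s, hs⟩ := mns_exists hb _ _ hGavg
  simp only [hG] at hs
  have hBW0 : ∀ j x, 0 ≤ BW S κ F (p j) s T 0 x [] := fun j x => BW_nonneg (hp0 j) s T 0 x []
  have harr0 : ∀ x, 0 ≤ arr S κ x 0 s := fun x => arr_nonneg S κ x 0 s
  have hin0 : ∀ j, 0 ≤ 2 ^ k * (∑ x, μ j x * (BW S κ F (p j) s T 0 x [] + arr S κ x 0 s)) := fun j =>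
    mul_nonneg (by positivity) (sum_nonneg fun x _ => mul_nonneg (hμ0 j x)
      (add_nonneg (hBW0 j x) (harr0 x)))
  have hsum0 : 0 ≤ ∑ j ∈ range S.sz, ind (κ < (Ks s j).card) := sum_nonneg fun _ _ => ind_nonneg _
  have hsum1 : 0 ≤ ∑ j, 2 ^ k * (∑ x, μ j x * (BW S κ F (p j) s T 0 x [] + arr S κ x 0 s)) :=
    sum_nonneg fun j _ => hin0 j
  have hpk : (0 : ℝ) < 2 ^ k := by positivity
  have hgood : szg S.sz κ s := by
    intro j hj
    by_contra h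
    have h1 : ind (κ < (Ks s j).card) ≤ ∑ j ∈ range S.sz, ind (κ < (Ks s j).card) :=
      single_le_sum (f := fun j => ind (κ < (Ks s j).card)) (fun _ _ => ind_nonneg _) (mem_range.2 hj)
    rw [ind_true (not_le.1 h)] at h1
    linarith
  have hlen : lenB (mk s S 0) 0 ≤ F := by rw [lenB_mk]
  refine ⟨obj F (mk s S 0), obj_inj _ _, obj_face hlen, fun j => ?_⟩
  have h1 : ∀ x, 1 - (BW S κ F (p j) s T 0 x [] + arr S κ x 0 s) ≤
      prb (obj F (mk s S 0)) (p j) T x [] := by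
    intro x
    by_cases hext : ext x (mk s S 0) 0 (fun _ => none)
    · have h1 : arr S κ x 0 s = 1 := ind_true ⟨hext, hgood⟩
      have h2 := prb_nonneg (f := obj F (mk s S 0)) (hp0 j) T x []
      have h3 := hBW0 j x
      linarith
    · have h2 := coup hb hwt hgd hZ (hp0 j) (hp1 j) hQ0 hwf le_rfl s hgood T 0 x [] (by omega)
        (passed_zero _ _ _) hext
      have h3 := harr0 x
      linarith
  have h2 : 2 ^ k * (∑ x, μ j x * (BW S κ F (p j) s T 0 x [] + arr S κ x 0 s)) < 1 := by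
    have h3 := single_le_sum (f := fun j => 2 ^ k * (∑ x, μ j x * (BW S κ F (p j) s T 0 x [] +
      arr S κ x 0 s))) (fun j _ => hin0 j) (mem_univ j)
    linarith
  have h3 : (∑ x, μ j x * (BW S κ F (p j) s T 0 x [] + arr S κ x 0 s)) < (1 / 2) ^ k := by
    rw [one_div, inv_pow, ← one_div, lt_div_iff₀ hpk]
    linarith
  calc 1 - (1 / 2) ^ k ≤ 1 - ∑ x, μ j x * (BW S κ F (p j) s T 0 x [] + arr S κ x 0 s) := by linarith
    _ = ∑ x, μ j x * (1 - (BW S κ F (p j) s T 0 x [] + arr S κ x 0 s)) := by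
        simp_rw [mul_sub, mul_one]
        rw [sum_sub_distrib, hμ1]
    _ ≤ _ := sum_le_sum fun x _ => mul_le_mul_of_nonneg_left (h1 x) (hμ0 j x)

end Pool.Agent.H686.RP
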