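import Pool.Agent.H686.RP.Obj
set_option autoImplicit false

/-!
# The evaluation along the path to a given leaf
-/

namespace Pool.Agent.H686.RP

open Finset

variable {n : ℕ}

/-- number of leaves -/
def lv : Tr n → ℕ
  | .leaf _ => 1
  | .last g => lv g
  | .comb g _ _ h => lv g + lv h

theorem lv_pos (T : Tr n) : 0 < lv T := by
  induction T with
  | leaf R => simp [lv]
  | last g ih => simpa [lv] using ih
  | comb g K q h ihg ihh => simp only [lv]; omega

/-- the hidden sets of the spine -/
def ksp : Tr n → Finset (Fin n)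
  | .leaf _ => ∅
  | .last _ => ∅
  | .comb _ K _ h => K ∪ ksp h

/-- the hidden sets on the way to the last leaf -/
def lsp : Tr n → Finset (Fin n)
  | .leaf _ => ∅
  | .last g => lsp g
  | .comb _ K _ h => K ∪ lsp h

/-- spines do not end with a leaf -/
def ns : Tr n → Prop
  | .leaf _ => False
  | .last _ => True
  | .comb _ _ _ h => ns h

/-- well-formed trees -/
def wf : Tr n → Prop
  | .leaf _ => True
  | .last g => wf g
  | .comb g _ _ h => wf g ∧ wf h ∧ ns h

theorem sp_ns {T : Tr n} : ns T → T.sp = ksp T := by
  induction T with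
  | leaf R => intro h; exact absurd h (by simp [ns])
  | last g _ => intro _; rfl
  | comb g K q h _ ihh => intro h1; simp only [Tr.sp, ksp]; rw [ihh h1]

theorem leaf_or {T : Tr n} (h : wf T) : (∃ R, T = .leaf R) ∨ T.sp = ksp T := by
  cases T with
  | leaf R => exact Or.inl ⟨R, rfl⟩
  | last g => exact Or.inr rfl
  | comb g K q h' => exact Or.inr (sp_ns (T := .comb g K q h') h.2.2)

/-- the target of the leaf number `t` -/
def Rl : Tr n → ℕ → Vx n
  | .leaf R, _ => R
  | .last g, t => Rl g t
  | .comb g _ _ h, t => if t < lv g then Rl g t else Rl h (t - lv g)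

/-- the hidden sets of the spines below -/
def av : Tr n → ℕ → Finset (Fin n)
  | .leaf _, _ => ∅
  | .last g, t => ksp g ∪ av g t
  | .comb g _ _ h, t => if t < lv g then ksp g ∪ av g t else av h (t - lv g)

/-- the frozen sets on the way to the leaf number `t` -/
def fr : Tr n → ℕ → Finset (Fin n)
  | .leaf _, _ => ∅
  | .last g, t => fr g t
  | .comb g K _ h, t => if t < lv g then fr g t else K ∪ fr h (t - lv g)

/-- the radius of the face which follows the leaf number `t` -/
def thr : Tr n → ℕ → ℕ
  | .leaf _, _ => 0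
  | .last g, t => thr g t
  | .comb g _ q h, t => if t < lv g then (if t + 1 = lv g then q else thr g t) else thr h (t - lv g)

/-- evaluation along the path to the leaf number `t` -/
def frc (x : Vx n) : Tr n → ℕ → ℕ → Asg n → Res n
  | .leaf R, _, _, O => ([ag (free univ O) R x], fun i => (O i).getD (R i))
  | .last g, t, k, O => pre (List.replicate k 0) (frc x g t k O)
  | .comb g K _ h, t, k, O =>
    if t < lv g then pre (0 :: List.replicate (k + 1) 0) (frc x g t (k + 1) O)
    else pre [1, ag (free K O) g.fin x] (frc x h (t - lv g) k (add O K g.fin))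

/-- directions in which the face with directions `K` after `g` stays hidden -/
def hcore (K : Finset (Fin n)) (O : Asg n) (g : Tr n) (t : ℕ) (x : Vx n) : Finset (Fin n) :=
  (free K O).filter fun i => i ∉ ksp g ∪ av g t ∧ x i ≠ Rl g t i ∧ Rl g t i = g.fin i

/-- the hidden faces on the path are far away -/
def hid (x : Vx n) : Tr n → ℕ → Asg n → Prop
  | .leaf _, _, _ => True
  | .last g, t, O => hid x g t O
  | .comb g K q h, t, O =>
    if t < lv g then (t + 1 = lv g ∨ q < (hcore K O g t x).card) ∧ hid x g t O
    else hid x h (t - lv g) (add O K g.fin)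

/-- `x` is in all faces which have to be entered before the leaf number `t` -/
def passed (x : Vx n) : Tr n → ℕ → Asg n → Prop
  | .leaf _, _, _ => True
  | .last g, t, O => passed x g t O
  | .comb g K q h, t, O =>
    if t < lv g then passed x g t O
    else (dis (free K O) g.fin x).card ≤ q ∧ passed x h (t - lv g) (add O K g.fin)

/-- `x` is in the face which follows the leaf number `t` -/
def ext (x : Vx n) : Tr n → ℕ → Asg n → Prop
  | .leaf _, _, _ => False
  | .last g, t, O => ext x g t O
  | .comb g K q h, t, O =>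
    if t < lv g then (if t + 1 = lv g then (dis (free K O) g.fin x).card ≤ q else ext x g t O)
    else ext x h (t - lv g) (add O K g.fin)

/-- all conditions together -/
def okk (x : Vx n) : Tr n → ℕ → Asg n → Prop
  | .leaf _, _, _ => True
  | .last g, t, O => okk x g t O
  | .comb g K q h, t, O =>
    if t < lv g then
      (if t + 1 = lv g then q < (dis (free K O) g.fin x).card else q < (hcore K O g t x).card) ∧
        okk x g t O
    else (dis (free K O) g.fin x).card ≤ q ∧ okk x h (t - lv g) (add O K g.fin)

theorem ext_last {x : Vx n} (T : Tr n) : ∀ (t : ℕ) (O : Asg n), t + 1 = lv T → ¬ ext x T t O := by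
  induction T with
  | leaf R => intro t O _; simp [ext]
  | last g ih => intro t O h; rw [ext]; exact ih t O h
  | comb g K q h _ ihh =>
    intro t O ht
    have := lv_pos h
    simp only [lv] at ht
    rw [ext, if_neg (by omega)]
    exact ihh _ _ (by omega)

theorem okk_of {x : Vx n} (T : Tr n) : ∀ (t : ℕ) (O : Asg n), passed x T t O → ¬ ext x T t O → hid x T t O →
    okk x T t O := by
  induction T with
  | leaf R => intro t O _ _ _; simp [okk]
  | last g ih => intro t O h1 h2 h3; rw [okk]; exact ih t O h1 h2 h3
  | comb g K q h ihg ihh =>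
    intro t O h1 h2 h3
    rw [passed] at h1
    rw [ext] at h2
    rw [hid] at h3
    rw [okk]
    by_cases ht : t < lv g
    · rw [if_pos ht] at h1 h2 h3 ⊢
      by_cases ht2 : t + 1 = lv g
      · rw [if_pos ht2] at h2 ⊢
        exact ⟨by omega, ihg t O h1 (ext_last g t O ht2) h3.2⟩
      · rw [if_neg ht2] at h2 ⊢
        refine ⟨?_, ihg t O h1 h2 h3.2⟩
        rcases h3.1 with h4 | h4
        · exact absurd h4 ht2
        · exact h4
    · rw [if_neg ht] at h1 h2 h3 ⊢
      exact ⟨h1.1, ihh _ _ h1.2 h2 h3⟩

/-- a hidden face `e` in the context of `T` which stays hidden until the leaf number `t` -/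
def GE (x : Vx n) (T : Tr n) (t : ℕ) (O : Asg n) (e : Ent n) : Prop :=
  e.q < (e.A.filter fun i => i ∉ av T t ∧ x i ≠ Rl T t i ∧ Rl T t i = e.r i).card ∨
  (t + 1 = lv T ∧ (∀ i, O i = none → e.r i = T.fin i) ∧ e.q < (dis e.A e.r x).card)

/-- the same before the step to `g` -/
def GD (x : Vx n) (g : Tr n) (t : ℕ) (O : Asg n) (e : Ent n) : Prop :=
  e.q < (e.A.filter fun i => i ∉ ksp g ∪ av g t ∧ x i ≠ Rl g t i ∧ Rl g t i = e.r i).card ∨
  (t + 1 = lv g ∧ (∀ i, O i = none → e.r i = g.fin i) ∧ e.q < (dis e.A e.r x).card)

theorem GD.step {x : Vx n} {g : Tr n} {t : ℕ} {O : Asg n} {e : Ent n} (hg : wf g) (h : GD x g t O e) :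
    e.q < (dis (cut g O e) e.r x).card ∧ GE x g t O ⟨cut g O e, e.r, e.q⟩ := by
  rcases h with h | ⟨h1, h2, h3⟩
  · have hsub : (e.A.filter fun i => i ∉ ksp g ∪ av g t ∧ x i ≠ Rl g t i ∧ Rl g t i = e.r i) ⊆
        (cut g O e).filter fun i => i ∉ av g t ∧ x i ≠ Rl g t i ∧ Rl g t i = e.r i := by
      intro i hi
      rw [mem_filter] at hi ⊢
      obtain ⟨hA, hav, hx, hR⟩ := hi
      rw [mem_union, not_or] at hav
      refine ⟨mem_cut.2 ⟨hA, fun hs _ => ?_⟩, hav.2, hx, hR⟩
      rcases leaf_or hg with ⟨R, rfl⟩ | hsp
      · exact hR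
      · rw [hsp] at hs
        exact absurd hs hav.1
    have h4 := lt_of_lt_of_le h (card_le_card hsub)
    refine ⟨lt_of_lt_of_le h4 (card_le_card fun i hi => ?_), Or.inl h4⟩
    rw [mem_filter] at hi
    exact mem_dis.2 ⟨hi.1, by rw [← hi.2.2.2]; exact hi.2.2.1⟩
  · have hcut : cut g O e = e.A := by
      apply Finset.Subset.antisymm (fun i hi => (mem_cut.1 hi).1)
      intro i hi
      exact mem_cut.2 ⟨hi, fun _ h0 => (h2 i h0).symm⟩
    rw [hcut]
    exact ⟨h3, Or.inr ⟨h1, h2, h3⟩⟩

theorem pre_pre (a b : List ℕ) (r : Res n) : pre a (pre b r) = pre (a ++ b) r := by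
  simp [pre]

theorem evL_frc {x : Vx n} {g : Tr n} {t : ℕ} {O : Asg n} (hg : wf g)
    (ih : ∀ c, (∀ e ∈ c, GE x g t O e) → ev x g c O = frc x g t c.length O) :
    ∀ l c : List (Ent n), (∀ e ∈ l, GD x g t O e) → (∀ e ∈ c, GE x g t O e) →
      evL x g (ev x g) l c O = pre (List.replicate l.length 0) (frc x g t (l.length + c.length) O) := by
  intro l
  induction l with
  | nil =>
    intro c _ h2
    rw [evL, ih c h2]
    simp [pre]
  | cons e l ihl =>
    intro c h1 h2
    obtain ⟨h3, h4⟩ := (h1 e List.mem_cons_self).step hg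
    rw [evL, if_neg (by omega), ihl _ (fun a ha => h1 a (List.mem_cons_of_mem _ ha)) (by
      intro a ha
      rcases List.mem_cons.1 ha with h5 | h5
      · subst h5; exact h4
      · exact h2 a h5), pre_pre]
    simp only [List.length_cons]
    rw [show l.length + (c.length + 1) = l.length + 1 + c.length by ring]
    rfl

theorem ev_frc {x : Vx n} (T : Tr n) : ∀ (t : ℕ) (c : List (Ent n)) (O : Asg n), wf T →
    (∀ e ∈ c, GE x T t O e) → okk x T t O → ev x T c O = frc x T t c.length O := by
  induction T with
  | leaf R => intro t c O _ _ _; rfl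
  | last g ih =>
    intro t c O hw hc hok
    rw [ev, frc]
    have hw' : wf g := hw
    have hok' : okk x g t O := hok
    have h0 : ∀ c' : List (Ent n), (∀ e ∈ c', GE x g t O e) → ev x g c' O = frc x g t c'.length O :=
      fun c' hc' => ih t c' O hw' hc' hok'
    have h1 : ∀ e ∈ c, GD x g t O e := by
      intro e he
      rcases hc e he with h | h
      · exact Or.inl h
      · exact Or.inr h
    have := evL_frc (x := x) (g := g) (t := t) (O := O) hw' h0 c [] h1
      (fun e he => absurd he List.not_mem_nil)
    simpa using this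
  | comb g K q h ihg ihh =>
    intro t c O hw hc hok
    obtain ⟨hwg, hwh, hns⟩ := hw
    rw [ev, frc]
    rw [okk] at hok
    by_cases ht : t < lv g
    · rw [if_pos ht] at hok ⊢
      have hK : GD x g t O ⟨free K O, g.fin, q⟩ := by
        by_cases ht2 : t + 1 = lv g
        · rw [if_pos ht2] at hok
          exact Or.inr ⟨ht2, fun _ _ => rfl, hok.1⟩
        · rw [if_neg ht2] at hok
          exact Or.inl hok.1
      have hK2 := (hK.step hwg).1
      have hcutK : cut g O ⟨free K O, g.fin, q⟩ ⊆ free K O := fun i hi => (mem_cut.1 hi).1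
      have hq : q < (dis (free K O) g.fin x).card := by
        refine lt_of_lt_of_le hK2 (card_le_card fun i hi => ?_)
        rw [mem_dis] at hi ⊢
        exact ⟨hcutK hi.1, hi.2⟩
      rw [if_neg (by omega)]
      have := evL_frc (x := x) (t := t) (O := O) hwg (fun c hc => ihg t c O hwg hc hok.2)
        (⟨free K O, g.fin, q⟩ :: c) []
        (fun e he => by
          rcases List.mem_cons.1 he with h5 | h5
          · subst h5; exact hK
          · rcases hc e h5 with h6 | h6
            · left
              simpa only [av, Rl, if_pos ht] using h6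
            · exfalso
              have := lv_pos h
              have h7 := h6.1
              simp only [lv] at h7
              omega) (fun e he => absurd he List.not_mem_nil)
      rw [this, pre_pre]
      simp
    · rw [if_neg ht] at hok ⊢
      rw [if_pos hok.1]
      congr 1
      refine ihh _ _ _ hwh (fun e he => ?_) hok.2
      rcases hc e he with h6 | h6
      · left
        simpa only [av, Rl, if_neg ht] using h6
      · right
        refine ⟨?_, ?_, h6.2.2⟩
        · have := h6.1
          simp only [lv] at this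
          omega
        · intro i h0
          obtain ⟨h0', hK⟩ := add_none h0
          have := h6.2.1 i h0'
          simpa [Tr.fin, hK] using this

/-- the real evaluation agrees with the evaluation along the path -/
theorem eval_eq {x : Vx n} {T : Tr n} {t : ℕ} (hw : wf T) (h1 : passed x T t fun _ => none)
    (h2 : ¬ ext x T t fun _ => none) (h3 : hid x T t fun _ => none) :
    ev x T [] (fun _ => none) = frc x T t 0 fun _ => none :=
  ev_frc T t [] _ hw (fun _ he => absurd he List.not_mem_nil) (okk_of T t _ h1 h2 h3)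

/-! ### moves -/

theorem tgt_frc (x : Vx n) (T : Tr n) : ∀ (t k : ℕ) (O : Asg n) (i : Fin n) (b : Bool),
    O i = some b → (frc x T t k O).2 i = b := by
  induction T with
  | leaf R => intro t k O i b h; simp [frc, h]
  | last g ih => intro t k O i b h; rw [frc, pre_snd]; exact ih _ _ _ _ _ h
  | comb g K q h ihg ihh =>
    intro t k O i b hb
    rw [frc]
    split_ifs
    · rw [pre_snd]; exact ihg _ _ _ _ _ hb
    · rw [pre_snd]; exact ihh _ _ _ _ _ (add_eq hb)

theorem frc_free (x : Vx n) (T : Tr n) : ∀ (t k : ℕ) (O : Asg n) (i : Fin n), O i = none → i ∉ fr T t →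
    (frc x T t k O).2 i = Rl T t i := by
  induction T with
  | leaf R => intro t k O i h _; simp [frc, h, Rl]
  | last g ih => intro t k O i h h2; rw [frc, pre_snd]; exact ih _ _ _ _ h h2
  | comb g K q h ihg ihh =>
    intro t k O i h0 h2
    rw [frc]
    rw [fr] at h2
    simp only [Rl]
    split_ifs at h2 ⊢
    · rw [pre_snd]; exact ihg _ _ _ _ h0 h2
    · rw [pre_snd]
      rw [mem_union, not_or] at h2
      exact ihh _ _ _ _ (by simp [add, h0, h2.1]) h2.2

theorem passed_zero (x : Vx n) (T : Tr n) : ∀ O : Asg n, passed x T 0 O := by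
  induction T with
  | leaf R => intro O; simp [passed]
  | last g ih => intro O; rw [passed]; exact ih O
  | comb g K q h ihg _ => intro O; rw [passed, if_pos (lv_pos g)]; exact ihg O

theorem passed_move {x y : Vx n} {i : Fin n} (hn : Nb x y i) (T : Tr n) : ∀ (t k : ℕ) (O : Asg n),
    passed x T t O → (frc x T t k O).2 i = y i → passed y T t O := by
  induction T with
  | leaf R => intro t k O _ _; simp [passed]
  | last g ih =>
    intro t k O h1 h2
    rw [passed] at h1 ⊢
    rw [frc, pre_snd] at h2
    exact ih _ _ _ h1 h2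
  | comb g K q h ihg ihh =>
    intro t k O h1 h2
    rw [passed] at h1 ⊢
    rw [frc] at h2
    by_cases ht : t < lv g
    · rw [if_pos ht] at h1 h2 ⊢
      exact ihg _ _ _ h1 h2
    · rw [if_neg ht] at h1 h2 ⊢
      rw [pre_snd] at h2
      refine ⟨?_, ihh _ _ _ h1.2 h2⟩
      refine le_trans (card_le_card fun j hj => ?_) h1.1
      rw [mem_dis] at hj ⊢
      refine ⟨hj.1, ?_⟩
      by_cases hji : j = i
      · subst hji
        exfalso
        obtain ⟨hK, h0⟩ := mem_free.1 hj.1
        rw [tgt_frc x h _ _ _ _ _ (add_some h0 hK)] at h2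
        exact hj.2 h2.symm
      · rw [hn.eq j hji]
        exact hj.2

theorem passed_next {y : Vx n} (T : Tr n) : ∀ (t : ℕ) (O : Asg n), passed y T t O → ext y T t O →
    passed y T (t + 1) O := by
  induction T with
  | leaf R => intro t O _ _; simp [passed]
  | last g ih => intro t O h1 h2; rw [passed] at h1 ⊢; rw [ext] at h2; exact ih _ _ h1 h2
  | comb g K q h ihg ihh =>
    intro t O h1 h2
    rw [passed] at h1 ⊢
    rw [ext] at h2
    by_cases ht : t < lv g
    · rw [if_pos ht] at h1 h2
      by_cases ht2 : t + 1 = lv g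
      · rw [if_pos ht2] at h2
        rw [if_neg (by omega), ht2, Nat.sub_self]
        exact ⟨h2, passed_zero y h _⟩
      · rw [if_neg ht2] at h2
        rw [if_pos (by omega)]
        exact ihg _ _ h1 h2
    · rw [if_neg ht] at h1 h2
      rw [if_neg (by omega), show t + 1 - lv g = t - lv g + 1 by omega]
      exact ⟨h1.1, ihh _ _ h1.2 h2⟩

end Pool.Agent.H686.RP
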