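import Pool.Agent.H686.RP.Pot
set_option autoImplicit false

namespace Pool.Agent.H686.RP

open Finset

variable {n : ℕ}

/-! ### encoding of potentials by numbers -/

/-- the first `k` entries of a list as digits in base `B` -/
def enc (B : ℕ) : ℕ → List ℕ → ℕ
  | 0, _ => 0
  | _ + 1, [] => 0
  | k + 1, a :: l => a * B ^ k + enc B k l

theorem enc_lt {B : ℕ} (hB : 0 < B) : ∀ (k : ℕ) (l : List ℕ), (∀ a ∈ l, a < B) → enc B k l < B ^ k := by
  intro k
  induction k with
  | zero => intro l _; simp [enc]
  | succ k ih =>
    intro l hl
    cases l with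
    | nil => simp only [enc]; positivity
    | cons a l =>
      have h1 := ih l (fun b hb => hl b (List.mem_cons_of_mem _ hb))
      have h2 : a + 1 ≤ B := hl a List.mem_cons_self
      calc enc B (k + 1) (a :: l) = a * B ^ k + enc B k l := rfl
        _ < a * B ^ k + B ^ k := by omega
        _ = (a + 1) * B ^ k := by ring
        _ ≤ B * B ^ k := Nat.mul_le_mul_right _ h2
        _ = B ^ (k + 1) := by ring

theorem enc_ltl {B : ℕ} (hB : 0 < B) : ∀ (k : ℕ) (l l' : List ℕ), ltl l l' → l.length ≤ k →
    (∀ a ∈ l, a < B) → enc B k l < enc B k l' := by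
  intro k
  induction k with
  | zero =>
    intro l l' h hk _
    cases l with
    | nil => simp [ltl] at h
    | cons a l => simp at hk
  | succ k ih =>
    intro l l' h hk hl
    cases l with
    | nil => simp [ltl] at h
    | cons a l =>
      cases l' with
      | nil => simp [ltl] at h
      | cons b l' =>
        have h1 := enc_lt hB k l (fun b hb => hl b (List.mem_cons_of_mem _ hb))
        rcases h with h | ⟨rfl, h⟩
        · calc enc B (k + 1) (a :: l) = a * B ^ k + enc B k l := rfl
            _ < a * B ^ k + B ^ k := by omega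
            _ = (a + 1) * B ^ k := by ring
            _ ≤ b * B ^ k := Nat.mul_le_mul_right _ h
            _ ≤ b * B ^ k + enc B k l' := Nat.le_add_right _ _
        · have := ih l l' h (by simpa using hk) (fun b hb => hl b (List.mem_cons_of_mem _ hb))
          simp only [enc]
          omega

/-! ### length and entries of the potentials -/

/-- a bound for the length of the potential -/
def lenB : Tr n → ℕ → ℕ
  | .leaf _, _ => 1
  | .last g, k => 2 * k + lenB g k
  | .comb g _ _ h, k => 2 + lenB h k + (2 * (k + 1) + lenB g (k + 1))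

theorem lenB_mono (T : Tr n) : ∀ {k k' : ℕ}, k ≤ k' → lenB T k ≤ lenB T k' := by
  induction T with
  | leaf R => intro k k' _; simp [lenB]
  | last g ih => intro k k' h; have := ih h; simp only [lenB]; omega
  | comb g K q h ihg ihh =>
    intro k k' hk
    have h1 := ihh hk
    have h2 := ihg (Nat.succ_le_succ hk)
    simp only [lenB, Nat.succ_eq_add_one] at *
    omega

theorem len_evL {x : Vx n} {g : Tr n} {k : List (Ent n) → Asg n → Res n}
    (hk : ∀ c O, (k c O).1.length ≤ lenB g c.length) :
    ∀ (l c : List (Ent n)) (O : Asg n),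
      (evL x g k l c O).1.length ≤ 2 * l.length + lenB g (l.length + c.length) := by
  intro l
  induction l with
  | nil => intro c O; simpa [evL] using hk c O
  | cons e l ih =>
    intro c O
    rw [evL]
    split_ifs
    · rw [pre_fst]
      have := ih c (add O e.A e.r)
      have h2 := lenB_mono g (show l.length + c.length ≤ (e :: l).length + c.length by simp)
      simp only [List.length_append, List.length_cons, List.length_nil] at *
      omega
    · rw [pre_fst]
      have := ih (⟨cut g O e, e.r, e.q⟩ :: c) O
      have h2 := lenB_mono g (show l.length + (c.length + 1) ≤ (e :: l).length + c.length by simp; omega)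
      simp only [List.length_append, List.length_cons, List.length_nil] at *
      omega

theorem len_ev (x : Vx n) (T : Tr n) : ∀ (c : List (Ent n)) (O : Asg n),
    (ev x T c O).1.length ≤ lenB T c.length := by
  induction T with
  | leaf R => intro c O; simp [ev, lenB]
  | last g ih =>
    intro c O
    have := len_evL ih (x := x) c [] O
    rw [ev, lenB]
    simpa using this
  | comb g K q h ihg ihh =>
    intro c O
    rw [ev, lenB]
    split_ifs
    · rw [pre_fst]
      have := ihh c (add O K g.fin)
      simp only [List.length_append, List.length_cons, List.length_nil]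
      omega
    · rw [pre_fst]
      have := len_evL ihg (x := x) (⟨free K O, g.fin, q⟩ :: c) [] O
      simp only [List.length_append, List.length_cons, List.length_nil, Nat.add_zero] at *
      omega

theorem ag_le (A : Finset (Fin n)) (r x : Vx n) : ag A r x ≤ n := by
  unfold ag
  calc _ ≤ (univ : Finset (Fin n)).card := card_le_card (subset_univ _)
    _ = n := by simp

theorem ent_evL {x : Vx n} {g : Tr n} {k : List (Ent n) → Asg n → Res n}
    (hk : ∀ c O, ∀ a ∈ (k c O).1, a < n + 2) :
    ∀ (l c : List (Ent n)) (O : Asg n), ∀ a ∈ (evL x g k l c O).1, a < n + 2 := by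
  intro l
  induction l with
  | nil => intro c O; exact hk c O
  | cons e l ih =>
    intro c O a
    rw [evL]
    split_ifs
    · rw [pre_fst]
      simp only [List.mem_append, List.mem_cons, List.not_mem_nil, or_false]
      rintro ((h | h) | h)
      · omega
      · have := ag_le (free e.A O) e.r x; omega
      · exact ih _ _ a h
    · rw [pre_fst]
      simp only [List.mem_append, List.mem_cons, List.not_mem_nil, or_false]
      rintro (h | h)
      · omega
      · exact ih _ _ a h

theorem ent_ev (x : Vx n) (T : Tr n) : ∀ (c : List (Ent n)) (O : Asg n), ∀ a ∈ (ev x T c O).1, a < n + 2 := by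
  induction T with
  | leaf R =>
    intro c O a h
    simp only [ev, List.mem_cons, List.not_mem_nil, or_false] at h
    have := ag_le (free univ O) R x
    omega
  | last g ih => intro c O; rw [ev]; exact ent_evL ih _ _ _
  | comb g K q h ihg ihh =>
    intro c O a
    rw [ev]
    split_ifs
    · rw [pre_fst]
      simp only [List.mem_append, List.mem_cons, List.not_mem_nil, or_false]
      rintro ((h | h) | h)
      · omega
      · have := ag_le (free K O) g.fin x; omega
      · exact ihh _ _ a h
    · rw [pre_fst]
      simp only [List.mem_append, List.mem_cons, List.not_mem_nil, or_false]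
      rintro (h | h)
      · omega
      · exact ent_evL ihg _ _ _ a h

/-! ### the objective function -/

/-- a number below `2 ^ n` for every vertex -/
noncomputable def code (x : Vx n) : ℕ := (Fintype.equivFin (Vx n) x).val

theorem code_lt (x : Vx n) : code x < 2 ^ n := by
  have h := (Fintype.equivFin (Vx n) x).isLt
  simpa [code] using h

theorem code_inj {x y : Vx n} (h : code x = code y) : x = y :=
  (Fintype.equivFin (Vx n)).injective (Fin.ext h)

/-- the value of a potential at a vertex -/
noncomputable def valp (F : ℕ) (p : List ℕ) (x : Vx n) : ℕ := enc (n + 2) F p * 2 ^ n + code x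

/-- the objective function of a tree -/
noncomputable def obj (F : ℕ) (T : Tr n) (x : Vx n) : ℕ := valp F (pot T x) x

theorem obj_inj (F : ℕ) (T : Tr n) : Function.Injective (obj F T) := by
  intro x y h
  unfold obj valp at h
  have h1 := congrArg (· % 2 ^ n) h
  simp only [Nat.mul_add_mod_self_right, Nat.mod_eq_of_lt (code_lt x), Nat.mod_eq_of_lt (code_lt y)] at h1
  exact code_inj h1

/-- the neighbour in direction `i` -/
def flp (x : Vx n) (i : Fin n) : Vx n := Function.update x i (!x i)

theorem nb_flp (x : Vx n) (i : Fin n) : Nb x (flp x i) i := by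
  constructor
  · simp [flp]
  · intro j hj
    simp [flp, hj]

theorem obj_lt {F : ℕ} {T : Tr n} (hF : lenB T 0 ≤ F) {x y : Vx n} {i : Fin n} (hn : Nb x y i)
    (h : tau T x i = y i) : obj F T x < obj F T y := by
  have h1 := enc_ltl (show 0 < n + 2 by omega) F _ _ (pot_lt T hn h)
    ((len_ev x T [] _).trans hF) (ent_ev x T _ _)
  unfold obj valp
  have h2 := code_lt x
  have h3 : (enc (n + 2) F (pot T x) + 1) * 2 ^ n ≤ enc (n + 2) F (pot T y) * 2 ^ n :=
    Nat.mul_le_mul_right _ h1
  have h4 : (enc (n + 2) F (pot T x) + 1) * 2 ^ n = enc (n + 2) F (pot T x) * 2 ^ n + 2 ^ n := by ring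
  omega

theorem obj_lt_iff {F : ℕ} {T : Tr n} (hF : lenB T 0 ≤ F) {x y : Vx n} {i : Fin n} (hn : Nb x y i) :
    obj F T x < obj F T y ↔ tau T x i ≠ x i := by
  constructor
  · intro h h1
    have hne : x ≠ y := fun e => hn.ne (congrFun e i)
    obtain ⟨j, hj1, hj2⟩ := tau_wit T hne
    have hji : j = i := by
      by_contra hji
      exact hj1 (hn.eq j hji)
    subst hji
    have := obj_lt hF hn.symm (show tau T y j = x j by rw [← hj2, h1])
    omega
  · intro h
    apply obj_lt hF hn
    have := hn.ne
    revert this h
    cases tau T x i <;> cases x i <;> cases y i <;> simp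

theorem flp_lt_iff {F : ℕ} {T : Tr n} (hF : lenB T 0 ≤ F) {x : Vx n} {i : Fin n} :
    obj F T (flp x i) < obj F T x ↔ tau T x i = x i := by
  have h := obj_lt_iff hF (nb_flp x i)
  have h2 : obj F T x ≠ obj F T (flp x i) := fun e =>
    (nb_flp x i).ne (congrFun (obj_inj F T e) i)
  constructor
  · intro h3
    by_contra h4
    exact absurd (h.2 h4) (by omega)
  · intro h3
    by_contra h4
    have : obj F T x < obj F T (flp x i) := by omega
    exact h.1 this h3

theorem obj_face {F : ℕ} {T : Tr n} (hF : lenB T 0 ≤ F) (U : Finset (Fin n)) (x : Vx n) :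
    ∃! y : Vx n, (∀ i, i ∉ U → y i = x i) ∧ ∀ i ∈ U, obj F T (flp y i) < obj F T y := by
  obtain ⟨y, hy, hmax⟩ := Finset.exists_max_image
    ((univ : Finset (Vx n)).filter fun y => ∀ i, i ∉ U → y i = x i) (obj F T) ⟨x, by simp⟩
  rw [mem_filter] at hy
  refine ⟨y, ⟨hy.2, ?_⟩, ?_⟩
  · intro i hi
    have h1 : flp y i ∈ ((univ : Finset (Vx n)).filter fun y => ∀ i, i ∉ U → y i = x i) := by
      rw [mem_filter]
      refine ⟨mem_univ _, fun j hj => ?_⟩
      rw [← (nb_flp y i).eq j (fun e => hj (e ▸ hi))]
      exact hy.2 j hj
    have h2 := hmax _ h1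
    refine lt_of_le_of_ne h2 fun e => ?_
    exact (nb_flp y i).ne.symm (congrFun (obj_inj F T e) i)
  · rintro z ⟨hz1, hz2⟩
    by_contra hne
    obtain ⟨i, hi1, hi2⟩ := tau_wit T hne
    have hU : i ∈ U := by
      by_contra hU
      exact hi1 ((hz1 i hU).trans (hy.2 i hU).symm)
    have h3 := (flp_lt_iff hF).1 (hz2 i hU)
    have h4 : tau T y i = y i := by
      apply (flp_lt_iff hF).1
      have h1 : flp y i ∈ ((univ : Finset (Vx n)).filter fun y => ∀ i, i ∉ U → y i = x i) := by
        rw [mem_filter]
        refine ⟨mem_univ _, fun j hj => ?_⟩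
        rw [← (nb_flp y i).eq j (fun e => hj (e ▸ hU))]
        exact hy.2 j hj
      have h2 := hmax _ h1
      refine lt_of_le_of_ne h2 fun e => ?_
      exact (nb_flp y i).ne.symm (congrFun (obj_inj F T e) i)
    exact hi1 (by rw [← h3, ← h4, hi2])

end Pool.Agent.H686.RP
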