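import Pool.Agent.H686.RP.Valid
set_option autoImplicit false

namespace Pool.Agent.H686.RP

open Finset

variable {n : ℕ}

theorem ltl_append (a : List ℕ) {l l' : List ℕ} (h : ltl l l') : ltl (a ++ l) (a ++ l') := by
  induction a with
  | nil => exact h
  | cons b a ih => exact Or.inr ⟨rfl, ih⟩

/-- two neighbours -/
structure Nb (x y : Vx n) (i : Fin n) : Prop where
  ne : x i ≠ y i
  eq : ∀ j, j ≠ i → x j = y j

theorem Nb.symm {x y : Vx n} {i : Fin n} (h : Nb x y i) : Nb y x i :=
  ⟨h.ne.symm, fun j hj => (h.eq j hj).symm⟩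

theorem Nb.agr {x y : Vx n} {i : Fin n} (h : Nb x y i) {O : Asg n} (hO : O i = none) :
    ∀ j, O j ≠ none → x j = y j := by
  intro j hj
  apply h.eq j
  rintro rfl
  exact hj hO

/-- moving towards the target increases the agreement -/
theorem ag_lt {x y : Vx n} {i : Fin n} (h : Nb x y i) {A : Finset (Fin n)} {r : Vx n} (hi : i ∈ A)
    (hy : y i = r i) : ag A r x < ag A r y := by
  unfold ag
  apply card_lt_card
  rw [Finset.ssubset_iff_of_subset]
  · refine ⟨i, by simp [hi, hy], ?_⟩
    rw [mem_filter]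
    rintro ⟨-, h2⟩
    exact h.ne (h2.trans hy.symm)
  · intro j hj
    rw [mem_filter] at hj ⊢
    refine ⟨hj.1, ?_⟩
    by_cases hji : j = i
    · rw [hji]; exact hy
    · rw [← h.eq j hji]; exact hj.2

theorem ag_eq {x y : Vx n} {i : Fin n} (h : Nb x y i) {A : Finset (Fin n)} {r : Vx n} (hi : i ∉ A) :
    ag A r x = ag A r y := by
  unfold ag
  congr 1
  apply filter_congr
  intro j hj
  rw [h.eq j (fun e => hi (e ▸ hj))]

/-- if the neighbour is farther from a face then the direction is in the face -/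
theorem dis_lt {x y : Vx n} {i : Fin n} (h : Nb x y i) {A : Finset (Fin n)} {r : Vx n}
    (hc : (dis A r x).card < (dis A r y).card) : i ∈ A ∧ y i ≠ r i := by
  have : ¬ dis A r y ⊆ dis A r x := fun h => absurd (card_le_card h) (by omega)
  obtain ⟨j, hj, hj2⟩ := Finset.not_subset.1 this
  rw [mem_dis] at hj
  have hji : j = i := by
    by_contra hji
    exact hj2 (mem_dis.2 ⟨hj.1, by rw [h.eq j hji]; exact hj.2⟩)
  subst hji
  exact hj

theorem pot_evL {x y : Vx n} {g : Tr n} {i : Fin n} (hn : Nb x y i)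
    (hk : ∀ c O, PC c O → IC g c O → Far c x → Far c y → O i = none → (ev x g c O).2 i = y i →
      ltl (ev x g c O).1 (ev y g c O).1) :
    ∀ (l c : List (Ent n)) (O : Asg n), PC (l ++ c) O → IC g c O → Far (l ++ c) x → Far (l ++ c) y →
      O i = none → (evL x g (ev x g) l c O).2 i = y i →
      ltl (evL x g (ev x g) l c O).1 (evL y g (ev y g) l c O).1 := by
  intro l
  induction l with
  | nil => intro c O h1 h2 h3 h4 h5 h6; exact hk c O h1 h2 h3 h4 h5 h6
  | cons e l ih =>
    intro c O h1 h2 h3 h4 h0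
    rw [evL, evL]
    by_cases hx : (dis (cut g O e) e.r x).card ≤ e.q <;> by_cases hy : (dis (cut g O e) e.r y).card ≤ e.q
    · rw [if_pos hx, if_pos hy, pre_snd, pre_fst, pre_fst]
      intro h6
      by_cases hi : i ∈ e.A
      · rw [tgt_evL (tgt_ev x g) _ _ _ _ _ (add_some h0 hi)] at h6
        right
        refine ⟨rfl, Or.inl ?_⟩
        exact ag_lt hn (mem_free.2 ⟨hi, h0⟩) h6.symm
      · have hi' : i ∉ free e.A O := fun h => hi (mem_free.1 h).1
        rw [ag_eq hn hi']
        apply ltl_append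
        refine ih c (add O e.A e.r) (h1.skip.mono none_of_add) (h2.mono none_of_add)
          h3.skip h4.skip ?_ h6
        simp [add, hi, h0]
    · rw [if_pos hx, if_neg hy, pre_snd]
      push Not at hy
      intro h6
      obtain ⟨hi, hyi⟩ := dis_lt hn (lt_of_le_of_lt hx hy)
      rw [tgt_evL (tgt_ev x g) _ _ _ _ _ (add_some h0 (mem_cut.1 hi).1)] at h6
      exact absurd h6.symm hyi
    · rw [if_neg hx, if_pos hy, pre_fst, pre_fst]
      intro _
      exact Or.inl Nat.zero_lt_one
    · rw [if_neg hx, if_neg hy, pre_snd, pre_fst, pre_fst]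
      push Not at hx hy
      obtain ⟨a1, a2, a3⟩ := step_inv h1 h2 h3 hx
      obtain ⟨-, -, a4⟩ := step_inv h1 h2 h4 hy
      intro h6
      exact ltl_append _ (ih _ _ a1 a2 a3 a4 h0 h6)

theorem pot_ev {x y : Vx n} {i : Fin n} (hn : Nb x y i) (T : Tr n) : ∀ (c : List (Ent n)) (O : Asg n),
    PC c O → IC T c O → Far c x → Far c y → O i = none → (ev x T c O).2 i = y i →
      ltl (ev x T c O).1 (ev y T c O).1 := by
  induction T with
  | leaf R =>
    intro c O _ _ _ _ h0 h6
    have h7 : R i = y i := by simpa [ev, h0] using h6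
    left
    exact ag_lt hn (mem_free.2 ⟨mem_univ _, h0⟩) h7.symm
  | last g ihg =>
    intro c O h1 h2 h3 h4 h0 h6
    rw [ev] at h6
    rw [ev, ev]
    exact pot_evL hn ihg c [] O h1.nil_right (IC.nil _ _) (by simpa using h3) (by simpa using h4) h0 h6
  | comb g K q h ihg ihh =>
    intro c O h1 h2 h3 h4 h0
    rw [ev, ev]
    by_cases hx : (dis (free K O) g.fin x).card ≤ q <;> by_cases hy : (dis (free K O) g.fin y).card ≤ q
    · rw [if_pos hx, if_pos hy, pre_snd, pre_fst, pre_fst]
      intro h6
      by_cases hi : i ∈ K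
      · rw [tgt_ev x h _ _ _ _ (add_some h0 hi)] at h6
        right
        refine ⟨rfl, Or.inl ?_⟩
        exact ag_lt hn (mem_free.2 ⟨hi, h0⟩) h6.symm
      · have hi' : i ∉ free K O := fun h => hi (mem_free.1 h).1
        rw [ag_eq hn hi']
        apply ltl_append
        refine ihh c (add O K g.fin) (h1.mono none_of_add) h2.right h3 h4 ?_ h6
        simp [add, hi, h0]
    · rw [if_pos hx, if_neg hy, pre_snd]
      push Not at hy
      intro h6
      obtain ⟨hi, hyi⟩ := dis_lt hn (lt_of_le_of_lt hx hy)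
      rw [tgt_ev x h _ _ _ _ (add_some h0 (mem_free.1 hi).1)] at h6
      exact absurd h6.symm hyi
    · rw [if_neg hx, if_pos hy, pre_fst, pre_fst]
      intro _
      exact Or.inl Nat.zero_lt_one
    · rw [if_neg hx, if_neg hy, pre_snd, pre_fst, pre_fst]
      push Not at hx hy
      have hF : ∀ z : Vx n, Far c z → q < (dis (free K O) g.fin z).card →
          Far ((⟨free K O, g.fin, q⟩ : Ent n) :: c) z := by
        intro z hz hq a ha
        rcases List.mem_cons.1 ha with h4 | h4
        · subst h4; exact hq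
        · exact hz a h4
      intro h6
      exact ltl_append _ (pot_evL hn ihg _ [] O (PC.nil_right (h1.left h2)) (IC.nil _ _)
        (by simpa using hF x h3 hx) (by simpa using hF y h4 hy) h0 h6)

/-! ### the values of a tree without context -/

/-- the point towards which the edges at `x` are oriented -/
def tau (T : Tr n) (x : Vx n) : Vx n := (ev x T [] fun _ => none).2

/-- the potential of `x` -/
def pot (T : Tr n) (x : Vx n) : List ℕ := (ev x T [] fun _ => none).1

theorem tau_wit (T : Tr n) {x y : Vx n} (h : x ≠ y) : ∃ i, x i ≠ y i ∧ tau T x i = tau T y i := by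
  obtain ⟨i, -, h1, h2⟩ := wit_ev h T [] (fun _ => none) (fun _ h => absurd h List.not_mem_nil)
    (IC.nil _ _) (fun _ h => absurd h List.not_mem_nil) (fun _ h => absurd h List.not_mem_nil)
    (fun i h => absurd rfl h)
  exact ⟨i, h1, h2⟩

theorem pot_lt (T : Tr n) {x y : Vx n} {i : Fin n} (hn : Nb x y i) (h : tau T x i = y i) :
    ltl (pot T x) (pot T y) :=
  pot_ev hn T [] (fun _ => none) (fun _ h => absurd h List.not_mem_nil)
    (IC.nil _ _) (fun _ h => absurd h List.not_mem_nil) (fun _ h => absurd h List.not_mem_nil) rfl h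

end Pool.Agent.H686.RP
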