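import Pool.Agent.H686.RP.Avg
set_option autoImplicit false

/-!
# The bad events are improbable
-/

namespace Pool.Agent.H686.RP

open Finset

variable {n b : ℕ}

/-- indicator -/
noncomputable def ind (P : Prop) : ℝ := @ite ℝ P (Classical.propDecidable P) 1 0

theorem ind_true {P : Prop} (h : P) : ind P = 1 := by unfold ind; rw [if_pos h]

theorem ind_false {P : Prop} (h : ¬ P) : ind P = 0 := by unfold ind; rw [if_neg h]

theorem ind_nonneg (P : Prop) : 0 ≤ ind P := by
  by_cases h : P
  · rw [ind_true h]; norm_num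
  · rw [ind_false h]

theorem ind_mono {P P' : Prop} (h : P → P') : ind P ≤ ind P' := by
  by_cases h1 : P
  · rw [ind_true h1, ind_true (h h1)]
  · rw [ind_false h1]; exact ind_nonneg _

theorem ind_or {P P' P'' : Prop} (h : P → P' ∨ P'') : ind P ≤ ind P' + ind P'' := by
  by_cases h1 : P
  · rcases h h1 with h2 | h2
    · rw [ind_true h1, ind_true h2]; linarith [ind_nonneg P'']
    · rw [ind_true h1, ind_true h2]; linarith [ind_nonneg P']
  · rw [ind_false h1]; linarith [ind_nonneg P', ind_nonneg P'']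

theorem ind_eq (P : Prop) [Decidable P] : ind P = if P then 1 else 0 := by
  by_cases h : P
  · rw [ind_true h, if_pos h]
  · rw [ind_false h, if_neg h]

/-- all sets are small -/
def szg (N κ : ℕ) (s : Sd n b) : Prop := ∀ j < N, (Ks s j).card ≤ κ

theorem two_avg {q : ℕ} (hb : 0 < b) {i j : ℕ} {s : Sd n b} {F : Sd n b → ℝ} (W : Finset (Fin n))
    (ρ : Vx n) (hW : 8 * b * q ≤ W.card)
    (h : ∀ ω ω', F (Function.update (Function.update s i ω) j ω') ≤
      ind ((W.filter fun i => (ω i).1 = ρ i ∧ (ω' i).2.val = 0).card ≤ q)) :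
    mn i (mn j F) s ≤ (5 / 8) ^ q := by
  refine le_trans ?_ ((tail1 hb W ρ q).trans (num1 hb hW))
  unfold mn
  apply div_le_div_of_nonneg_right _ (Nat.cast_nonneg _)
  apply sum_le_sum
  intro ω _
  apply div_le_div_of_nonneg_right _ (Nat.cast_nonneg _)
  apply sum_le_sum
  intro ω' _
  rw [← ind_eq]
  exact h ω ω'

theorem two_zero (hb : 0 < b) {i j : ℕ} {s : Sd n b} {F : Sd n b → ℝ}
    (h : ∀ ω ω', F (Function.update (Function.update s i ω) j ω') ≤ 0) : mn i (mn j F) s ≤ 0 := by
  have h1 : mn i (mn j F) s ≤ mn i (fun _ => 0) s := by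
    apply mn_mono
    intro ω
    have : mn j F (Function.update s i ω) ≤ mn j (fun _ => 0) (Function.update s i ω) := by
      apply mn_mono
      intro ω'
      exact h ω ω'
    rwa [mn_const hb] at this
  rwa [mn_const hb] at h1

theorem one_avg {q : ℕ} (hb : 0 < b) {j : ℕ} {s : Sd n b} {F : Sd n b → ℝ} (Y : Finset (Fin n))
    (hY : 16 * Y.card ≤ 3 * (q * b))
    (h : ∀ ω, F (Function.update s j ω) ≤ ind (q < (Y.filter fun i => (ω i).2.val = 0).card)) :
    mn j F s ≤ (5 / 8) ^ q := by
  refine le_trans ?_ ((tail2 hb Y q).trans (num2 hb hY))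
  unfold mn
  apply div_le_div_of_nonneg_right _ (Nat.cast_nonneg _)
  apply sum_le_sum
  intro ω _
  rw [← ind_eq]
  exact h ω

theorem one_zero (hb : 0 < b) {j : ℕ} {s : Sd n b} {F : Sd n b → ℝ}
    (h : ∀ ω, F (Function.update s j ω) ≤ 0) : mn j F s ≤ 0 := by
  have : mn j F s ≤ mn j (fun _ => 0) s := mn_mono h
  rwa [mn_const hb] at this

/-- the hidden faces stay hidden -/
theorem pl_hid (hb : 0 < b) {N κ Z : ℕ} (g : Sh) {o t q lam : ℕ} (ht : t + 1 < g.sz) (ho : lam < N)
    (hlam : lam + 1 = o + g.sz) (hg : g.nk + g.wt ≤ Z) (x : Vx n) (O : Asg n)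
    (hO : (univ.filter fun i => O i ≠ none).card ≤ Z * κ) (s : Sd n b)
    (hW : 16 * (b * q) ≤ (dis univ (Rs s (o + t)) x).card) (hZ : 3 * (Z * κ) ≤ 8 * (b * q)) :
    mn (2 * lam) (mn (2 * lam + 1) fun s' =>
      ind ((hcore (Ks s' lam) O (mk s' g o) t x).card ≤ q ∧ szg N κ s')) s ≤ (5 / 8) ^ q := by
  by_cases hex : ∃ ω ω', szg N κ (Function.update (Function.update s (2 * lam) ω) (2 * lam + 1) ω')
  · obtain ⟨ω₁, ω₁', h1⟩ := hex
    set s₁ := Function.update (Function.update s (2 * lam) ω₁) (2 * lam + 1) ω₁' with hs₁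
    have hsz : ∀ j, o ≤ j → j + 1 < o + g.sz → (Ks s₁ j).card ≤ κ := fun j _ hj => h1 j (by omega)
    set X := (univ.filter fun i => O i ≠ none) ∪ ((ksp (mk s₁ g o) ∪ av (mk s₁ g o) t) ∪ lsp (mk s₁ g o))
      with hX
    have hXc : X.card ≤ 3 * (Z * κ) := by
      have a1 := card_ksp g o hsz
      have a2 := card_av g o t (by omega) hsz
      have a3 := card_lsp g o hsz
      have a4 : (ksp (mk s₁ g o) ∪ av (mk s₁ g o) t).card ≤ Z * κ := by
        calc _ ≤ _ := card_union_le _ _
          _ ≤ g.nk * κ + g.wt * κ := Nat.add_le_add a1 a2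
          _ = (g.nk + g.wt) * κ := by ring
          _ ≤ _ := Nat.mul_le_mul_right _ hg
      have a5 : (lsp (mk s₁ g o)).card ≤ Z * κ := a3.trans (Nat.mul_le_mul_right _ (by omega))
      calc X.card ≤ _ := card_union_le _ _
        _ ≤ Z * κ + (Z * κ + Z * κ) := Nat.add_le_add hO ((card_union_le _ _).trans (Nat.add_le_add a4 a5))
        _ = _ := by ring
    refine two_avg hb ((dis univ (Rs s (o + t)) x) \ X) (Rs s (o + t)) ?_ ?_
    · have := card_le_card_sdiff_add_card (s := dis univ (Rs s (o + t)) x) (t := X)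
      have h2 : 8 * b * q = 8 * (b * q) := by ring
      omega
    · intro ω ω'
      apply ind_mono
      rintro ⟨h2, -⟩
      refine le_trans (card_le_card fun i hi => ?_) h2
      set s' := Function.update (Function.update s (2 * lam) ω) (2 * lam + 1) ω' with hs'
      have hag : ∀ j, j ≠ 2 * lam → j ≠ 2 * lam + 1 → s' j = s₁ j := by
        intro j hj1 hj2
        rw [hs', hs₁, Function.update_of_ne hj2, Function.update_of_ne hj1,
          Function.update_of_ne hj2, Function.update_of_ne hj1]
      have hsj : ∀ j, j ≠ 2 * lam → j ≠ 2 * lam + 1 → s' j = s j := by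
        intro j hj1 hj2
        rw [hs', Function.update_of_ne hj2, Function.update_of_ne hj1]
      have e1 : ksp (mk s' g o) = ksp (mk s₁ g o) :=
        ksp_congr g o fun j _ hj => hag j (by omega) (by omega)
      have e2 : av (mk s' g o) t = av (mk s₁ g o) t :=
        av_congr g o t (by omega) fun j _ hj => hag j (by omega) (by omega)
      have e3 : lsp (mk s' g o) = lsp (mk s₁ g o) :=
        lsp_congr g o fun j _ hj => hag j (by omega) (by omega)
      have e4 : Rs s' (o + t) = Rs s (o + t) := Rs_congr (hsj _ (by omega) (by omega))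
      rw [mem_filter, mem_sdiff, mem_dis, hX, mem_union, mem_union, not_or, not_or, mem_filter] at hi
      obtain ⟨⟨⟨-, b1⟩, b2, b3, b4⟩, b5, b6⟩ := hi
      have b7 : (mk s' g o).fin i = (ω i).1 := by
        rw [fin_mk s' g o i (by rw [e3]; exact b4)]
        have : o + g.sz - 1 = lam := by omega
        rw [this]
        unfold Rs
        rw [hs', Function.update_of_ne (by omega), Function.update_self]
      unfold hcore
      rw [mem_filter, mem_free, e1, e2, Rl_mk s' g o t (by omega), e4, b7]
      refine ⟨⟨?_, ?_⟩, b3, b1, b5.symm⟩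
      · unfold Ks
        rw [mem_filter, hs', Function.update_self]
        exact ⟨mem_univ _, b6⟩
      · by_contra h3
        exact b2 ⟨mem_univ _, h3⟩
  · refine (two_zero hb ?_).trans (by positivity)
    intro ω ω'
    rw [ind_false]
    rintro ⟨-, h2⟩
    exact hex ⟨ω, ω', h2⟩

theorem hid_last {x : Vx n} (T : Tr n) : ∀ (t : ℕ) (O : Asg n), t + 1 = lv T → hid x T t O := by
  induction T with
  | leaf R => intro t O _; simp [hid]
  | last g ih => intro t O h; rw [hid]; exact ih t O h
  | comb g K q h _ ihh =>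
    intro t O ht
    have := lv_pos h
    simp only [lv] at ht
    rw [hid, if_neg (by omega)]
    exact ihh _ _ (by omega)

theorem Sh.thr_last (S : Sh) : ∀ t, t + 1 = S.sz → S.thr t = 0 := by
  induction S with
  | leaf => intro t _; rfl
  | last g ih => intro t h; rw [Sh.thr]; exact ih t h
  | comb g q h _ ihh =>
    intro t ht
    have := h.sz_pos
    simp only [Sh.sz] at ht
    rw [Sh.thr, if_neg (by omega)]
    exact ihh _ (by omega)

theorem mem_add_none {O : Asg n} {A : Finset (Fin n)} {r : Vx n} {i : Fin n} (h : add O A r i ≠ none) :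
    O i ≠ none ∨ i ∈ A := by
  by_contra h2
  push Not at h2
  apply h
  simp [add, h2.1, h2.2]

theorem hid_avg (hb : 0 < b) {N κ Q q' Z u : ℕ} (x : Vx n) (hQ : 3 * (Z * κ) ≤ 8 * (b * Q))
    {l : List ℕ} (hl1 : ∀ j ∈ l, 2 * u + 1 ≤ j) (hl2 : ∀ j, 2 * u + 1 ≤ j → j < 2 * N → j ∈ l) (S : Sh) :
    ∀ (o t : ℕ) (O : Asg n) (s : Sd n b), o + t = u → t < S.sz → o + S.sz ≤ N → S.gd Q q' → S.wt ≤ Z →
      ((univ.filter fun i => O i ≠ none) ∪ fr (mk s S o) t).card ≤ Z * κ →
      S.thr t * b ≤ 8 * (dis univ (Rs s u) x).card →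
      mns l (fun s' => ind (¬ hid x (mk s' S o) t O ∧ szg N κ s')) s ≤ S.dep * (5 / 8) ^ Q := by
  induction S with
  | leaf =>
    intro o t O s _ _ _ _ _ _ _
    refine mns_le hb hl1 fun s' _ => ?_
    rw [ind_false]
    · positivity
    · rintro ⟨h, -⟩
      apply h
      simp [mk, hid]
  | last g ih =>
    intro o t O s h1 h2 h3 h4 h5 h6 h7
    simp only [mk, hid, Sh.dep]
    simp only [Sh.wt] at h5
    exact ih o t O s h1 h2 h3 h4 (by omega) h6 h7
  | comb g q h ihg ihh =>
    intro o t O s hu ht hN hgd hwt hO hthr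
    have hg := g.sz_pos
    have hh := h.sz_pos
    simp only [Sh.sz] at ht hN
    simp only [Sh.wt] at hwt
    obtain ⟨hg1, hg2, hg3, hg4, hg5⟩ := hgd
    simp only [Sh.thr] at hthr
    simp only [mk, fr, lv_mk] at hO
    by_cases h1 : t < g.sz
    · rw [if_pos h1] at hthr hO
      by_cases h2 : t + 1 = g.sz
      · refine mns_le hb hl1 fun s' _ => ?_
        rw [ind_false]
        · positivity
        · rintro ⟨h3, -⟩
          apply h3
          simp only [mk, hid, lv_mk, if_pos h1]
          exact ⟨Or.inl h2, hid_last _ _ _ (by rw [lv_mk]; exact h2)⟩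
      · rw [if_neg h2] at hthr
        have a1 := hg3 t (by omega)
        have a2 : 128 * q * b ≤ 8 * (dis univ (Rs s u) x).card :=
          le_trans (Nat.mul_le_mul_right _ a1) hthr
        have a3 : b * Q ≤ b * q := Nat.mul_le_mul_left _ hg1
        have a4 : 128 * q * b = 128 * (b * q) := by ring
        have hpl : mns l (fun s' => ind ((hcore (Ks s' (o + g.sz - 1)) O (mk s' g o) t x).card ≤ q ∧
            szg N κ s')) s ≤ (5 / 8) ^ Q := by
          refine mns_le2 hb hl1 (i := 2 * (o + g.sz - 1)) (j := 2 * (o + g.sz - 1) + 1)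
            (hl2 _ (by omega) (by omega)) (hl2 _ (by omega) (by omega)) fun s' hs' => ?_
          refine (pl_hid hb g (by omega) (by omega) (by omega)
            (show g.nk + g.wt ≤ Z by omega) x O
            (le_trans (card_le_card subset_union_left) hO) s' ?_ (by omega)).trans ?_
          · rw [hu, Rs_congr (hs' (2 * u) (by omega))]
            omega
          · exact pow_le_pow_of_le_one (by norm_num) (by norm_num) hg1
        have hih := ihg o t O s hu h1 (by omega) hg4 (by omega) hO hthr
        have hle : mns l (fun s' => ind (¬ hid x (mk s' (.comb g q h) o) t O ∧ szg N κ s')) s ≤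
            mns l (fun s' => ind ((hcore (Ks s' (o + g.sz - 1)) O (mk s' g o) t x).card ≤ q ∧
            szg N κ s') + ind (¬ hid x (mk s' g o) t O ∧ szg N κ s')) s := by
          refine mns_mono l hl1 fun s' _ => ?_
          apply ind_or
          rintro ⟨h3, h4⟩
          simp only [mk, hid, lv_mk, if_pos h1] at h3
          by_cases h5 : hid x (mk s' g o) t O
          · left
            refine ⟨?_, h4⟩
            by_contra h6
            exact h3 ⟨Or.inr (not_le.1 h6), h5⟩
          · exact Or.inr ⟨h5, h4⟩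
        rw [mns_add] at hle
        refine hle.trans ?_
        calc _ ≤ (5 / 8 : ℝ) ^ Q + g.dep * (5 / 8 : ℝ) ^ Q := add_le_add hpl hih
          _ = (1 + g.dep : ℕ) * (5 / 8 : ℝ) ^ Q := by push_cast; ring
          _ ≤ _ := by
            apply mul_le_mul_of_nonneg_right _ (by positivity)
            simp only [Sh.dep]
            exact_mod_cast le_max_left _ _
    · rw [if_neg h1] at hthr hO
      have hih := ihh (o + g.sz) (t - g.sz) (add O (Ks s (o + g.sz - 1)) (mk s g o).fin) s (by omega)
        (by omega) (by omega) hg5 (by omega) (by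
          refine le_trans (card_le_card fun i hi => ?_) hO
          rw [mem_union, mem_filter] at hi
          rw [mem_union, mem_filter, mem_union]
          rcases hi with ⟨-, hi⟩ | hi
          · rcases mem_add_none hi with hi | hi
            · exact Or.inl ⟨mem_univ _, hi⟩
            · exact Or.inr (Or.inl hi)
          · exact Or.inr (Or.inr hi)) hthr
      refine le_trans ?_ (hih.trans ?_)
      · refine mns_mono l hl1 fun s' hs' => ?_
        apply ind_mono
        rintro ⟨h3, h4⟩
        refine ⟨?_, h4⟩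
        simp only [mk, hid, lv_mk, if_neg h1] at h3
        rwa [Ks_congr (hs' (2 * (o + g.sz - 1) + 1) (by omega)),
          mk_congr g o fun j hj hj2 => hs' j (by omega)] at h3
      · apply mul_le_mul_of_nonneg_right _ (by positivity)
        simp only [Sh.dep]
        exact_mod_cast le_max_right _ _

/-- the following face is entered -/
theorem pl_ext (hb : 0 < b) {κ Z Q q' : ℕ} (S : Sh) {t : ℕ} (ht : t + 1 < S.sz)
    (hg : S.wt ≤ Z) (hgd : S.gd Q q') (x : Vx n) (O : Asg n) (s : Sd n b) (hZ : 16 * (Z * κ) ≤ b * Q) :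
    mn (2 * t + 1) (fun s' => ind (8 * (dis univ (Rs s' t) x).card < S.thr t * b ∧
      ¬ ext x (mk s' S 0) t O ∧ szg S.sz κ s')) s ≤ (5 / 8) ^ Q := by
  have hthr := S.gd_thr t hgd ht
  have e4 : ∀ ω, Rs (Function.update s (2 * t + 1) ω) t = Rs s t := fun ω =>
    Rs_congr (Function.update_of_ne (by omega) _ _)
  by_cases hex : (∃ ω, szg S.sz κ (Function.update s (2 * t + 1) ω)) ∧
      8 * (dis univ (Rs s t) x).card < S.thr t * b
  · obtain ⟨⟨ω₁, h1⟩, h2⟩ := hex
    set s₁ := Function.update s (2 * t + 1) ω₁ with hs₁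
    have a1 := card_lsx S 0 t (by omega) (fun j _ hj => h1 j (by omega) : ∀ j, 0 ≤ j → j + 1 < 0 + S.sz →
      (Ks s₁ j).card ≤ κ)
    have a2 : (lsx (mk s₁ S 0) t).card ≤ Z * κ := a1.trans (Nat.mul_le_mul_right _ hg)
    have a3 : b * Q ≤ b * S.thr t := Nat.mul_le_mul_left _ hthr.1
    have a4 := card_union_le (dis univ (Rs s t) x) (lsx (mk s₁ S 0) t)
    have a5 : S.thr t * b = b * S.thr t := by ring
    refine (one_avg (q := S.thr t) hb (dis univ (Rs s t) x ∪ lsx (mk s₁ S 0) t) (by omega) ?_).trans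
      (pow_le_pow_of_le_one (by norm_num) (by norm_num) hthr.1)
    intro ω
    apply ind_mono
    rintro ⟨-, h3, -⟩
    have h4 := not_ext_mk S 0 t O ht h3
    refine lt_of_lt_of_le h4 (card_le_card fun i hi => ?_)
    have e5 : lsx (mk (Function.update s (2 * t + 1) ω) S 0) t = lsx (mk s₁ S 0) t :=
      lsx_congr S 0 t (by omega) fun j _ hj => by
        rw [hs₁, Function.update_of_ne (by omega), Function.update_of_ne (by omega)]
    rw [Nat.zero_add, mem_filter, e4, e5] at hi
    rw [mem_filter, mem_union, mem_dis]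
    obtain ⟨b1, b2⟩ := hi
    unfold Ks at b1
    rw [mem_filter, Function.update_self] at b1
    refine ⟨?_, b1.2⟩
    rcases b2 with b2 | b2
    · exact Or.inl ⟨mem_univ _, b2⟩
    · exact Or.inr b2
  · refine (one_zero hb ?_).trans (by positivity)
    intro ω
    rw [ind_false]
    rintro ⟨h2, -, h3⟩
    rw [e4] at h2
    exact hex ⟨⟨ω, h3⟩, h2⟩

/-- the face after the next leaf is far away -/
theorem pl_arr (hb : 0 < b) {κ Z Q q' : ℕ} (S : Sh) {t : ℕ} (ht : t + 1 < S.sz)
    (hg : S.wt ≤ Z) (hgd : S.gd Q q') (x : Vx n) (s : Sd n b)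
    (hn : 8 * (b * q') + 2 * (Z * κ) ≤ n) :
    mn (2 * t) (mn (2 * t + 1) fun s' => ind (ext x (mk s' S 0) t (fun _ => none) ∧ szg S.sz κ s')) s ≤
      (5 / 8) ^ Q := by
  have hthr := S.gd_thr t hgd ht
  by_cases hex : ∃ ω ω', szg S.sz κ (Function.update (Function.update s (2 * t) ω) (2 * t + 1) ω')
  · obtain ⟨ω₁, ω₁', h1⟩ := hex
    set s₁ := Function.update (Function.update s (2 * t) ω₁) (2 * t + 1) ω₁' with hs₁
    have hsz : ∀ j, 0 ≤ j → j + 1 < 0 + S.sz → (Ks s₁ j).card ≤ κ := fun j _ hj => h1 j (by omega)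
    have a1 : (lsx (mk s₁ S 0) t).card ≤ Z * κ :=
      (card_lsx S 0 t (by omega) hsz).trans (Nat.mul_le_mul_right _ hg)
    have a2 : (fr (mk s₁ S 0) t).card ≤ Z * κ :=
      (card_fr S 0 t (by omega) hsz).trans (Nat.mul_le_mul_right _ hg)
    have a3 := card_union_le (fr (mk s₁ S 0) t) (lsx (mk s₁ S 0) t)
    have a4 : b * S.thr t ≤ b * q' := Nat.mul_le_mul_left _ hthr.2
    refine (two_avg (q := S.thr t) hb (univ \ (fr (mk s₁ S 0) t ∪ lsx (mk s₁ S 0) t)) (fun i => !x i)
      ?_ ?_).trans (pow_le_pow_of_le_one (by norm_num) (by norm_num) hthr.1)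
    · have := card_le_card_sdiff_add_card (s := (univ : Finset (Fin n)))
        (t := fr (mk s₁ S 0) t ∪ lsx (mk s₁ S 0) t)
      rw [card_univ, Fintype.card_fin] at this
      have h2 : 8 * b * S.thr t = 8 * (b * S.thr t) := by ring
      omega
    · intro ω ω'
      apply ind_mono
      rintro ⟨h2, -⟩
      have h3 := ext_mk S 0 t _ ht h2
      refine le_trans (card_le_card fun i hi => ?_) h3
      set s' := Function.update (Function.update s (2 * t) ω) (2 * t + 1) ω' with hs'
      have hag : ∀ j, j < 2 * t → s' j = s₁ j := by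
        intro j hj
        rw [hs', hs₁, Function.update_of_ne (by omega), Function.update_of_ne (by omega),
          Function.update_of_ne (by omega), Function.update_of_ne (by omega)]
      have e1 : fr (mk s' S 0) t = fr (mk s₁ S 0) t :=
        fr_congr S 0 t (by omega) fun j _ hj => hag j (by omega)
      have e2 : lsx (mk s' S 0) t = lsx (mk s₁ S 0) t :=
        lsx_congr S 0 t (by omega) fun j _ hj => hag j (by omega)
      rw [mem_filter, mem_sdiff, mem_union, not_or] at hi
      obtain ⟨⟨-, b2, b3⟩, b5, b6⟩ := hi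
      rw [Nat.zero_add, mem_filter, e1, e2]
      refine ⟨?_, ?_, rfl, b2, b3⟩
      · unfold Ks
        rw [mem_filter, hs', Function.update_self]
        exact ⟨mem_univ _, b6⟩
      · unfold Rs
        rw [hs', Function.update_of_ne (by omega), Function.update_self, b5]
        cases x i <;> simp
  · refine (two_zero hb ?_).trans (by positivity)
    intro ω ω'
    rw [ind_false]
    rintro ⟨-, h2⟩
    exact hex ⟨ω, ω', h2⟩

/-- the sets are small -/
theorem pl_siz (hb : 0 < b) {κ : ℕ} (j : ℕ) (s : Sd n b) (hn : 16 * n ≤ 3 * (κ * b)) :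
    mn (2 * j + 1) (fun s' => ind (κ < (Ks s' j).card)) s ≤ (5 / 8) ^ κ := by
  refine one_avg hb univ ?_ fun ω => ?_
  · rw [card_univ, Fintype.card_fin]
    exact hn
  · apply ind_mono
    unfold Ks
    rw [Function.update_self]
    exact id

end Pool.Agent.H686.RP
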