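import Pool.Agent.H686.RP.Defs
set_option autoImplicit false

namespace Pool.Agent.H686.RP

open Finset

variable {n : ℕ}

@[simp] theorem pre_snd (a : List ℕ) (r : Res n) : (pre a r).2 = r.2 := rfl
@[simp] theorem pre_fst (a : List ℕ) (r : Res n) : (pre a r).1 = a ++ r.1 := rfl

theorem mem_dis {A : Finset (Fin n)} {r x : Vx n} {i : Fin n} : i ∈ dis A r x ↔ i ∈ A ∧ x i ≠ r i := by
  simp [dis]

theorem mem_free {A : Finset (Fin n)} {O : Asg n} {i : Fin n} : i ∈ free A O ↔ i ∈ A ∧ O i = none := by
  simp [free]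

theorem mem_cut {g : Tr n} {O : Asg n} {e : Ent n} {i : Fin n} :
    i ∈ cut g O e ↔ i ∈ e.A ∧ (i ∈ g.sp → O i = none → g.fin i = e.r i) := by
  simp only [cut, mem_filter, ne_eq, not_and, not_not]

theorem add_some {O : Asg n} {A : Finset (Fin n)} {r : Vx n} {i : Fin n} (hO : O i = none) (hi : i ∈ A) :
    add O A r i = some (r i) := by
  simp [add, hO, hi]

theorem add_eq {O : Asg n} {A : Finset (Fin n)} {r : Vx n} {i : Fin n} {b : Bool} (hO : O i = some b) :
    add O A r i = some b := by
  simp [add, hO]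

theorem add_none {O : Asg n} {A : Finset (Fin n)} {r : Vx n} {i : Fin n} (h : add O A r i = none) :
    O i = none ∧ i ∉ A := by
  unfold add at h
  split_ifs at h with h1
  refine ⟨h, fun hi => h1 ⟨h, hi⟩⟩

/-! ### assigned directions keep their values -/

theorem tgt_evL {x : Vx n} {g : Tr n} {k : List (Ent n) → Asg n → Res n}
    (hk : ∀ c O i b, O i = some b → (k c O).2 i = b) :
    ∀ (l c : List (Ent n)) (O : Asg n) (i : Fin n) (b : Bool), O i = some b →
      (evL x g k l c O).2 i = b := by
  intro l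
  induction l with
  | nil => intro c O i b h; exact hk c O i b h
  | cons e l ih =>
    intro c O i b h
    rw [evL]
    split_ifs
    · rw [pre_snd]; exact ih _ _ _ _ (add_eq h)
    · rw [pre_snd]; exact ih _ _ _ _ h

theorem tgt_ev (x : Vx n) (T : Tr n) : ∀ (c : List (Ent n)) (O : Asg n) (i : Fin n) (b : Bool),
    O i = some b → (ev x T c O).2 i = b := by
  induction T with
  | leaf R => intro c O i b h; simp [ev, h]
  | last g ihg =>
    intro c O i b h
    rw [ev]
    exact tgt_evL ihg _ _ _ _ _ h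
  | comb g K q h ihg ihh =>
    intro c O i b hb
    rw [ev]
    split_ifs
    · rw [pre_snd]; exact ihh _ _ _ _ (add_eq hb)
    · rw [pre_snd]; exact tgt_evL ihg _ _ _ _ _ hb

/-! ### invariants -/

theorem PC.mono {c : List (Ent n)} {O O' : Asg n} (h : PC c O) (hO : ∀ i, O' i = none → O i = none) :
    PC c O' := fun e he e' he' i hi hi' h0 => h e he e' he' i hi hi' (hO i h0)

theorem IC.mono {g : Tr n} {c : List (Ent n)} {O O' : Asg n} (h : IC g c O)
    (hO : ∀ i, O' i = none → O i = none) : IC g c O' :=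
  fun e he i hi hs h0 => h e he i hi hs (hO i h0)

theorem PC.step {e : Ent n} {l c : List (Ent n)} {O : Asg n} (h : PC ((e :: l) ++ c) O) (A : Finset (Fin n))
    (hA : A ⊆ e.A) : PC (l ++ (⟨A, e.r, e.q⟩ :: c)) O := by
  intro a ha b hb i hia hib h0
  have key : ∀ a ∈ l ++ ((⟨A, e.r, e.q⟩ : Ent n) :: c), ∀ i ∈ a.A,
      ∃ a' ∈ (e :: l) ++ c, i ∈ a'.A ∧ a'.r = a.r := by
    intro a ha i hi
    rcases List.mem_append.1 ha with h1 | h1
    · exact ⟨a, by simp [h1], hi, rfl⟩
    · rcases List.mem_cons.1 h1 with h2 | h2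
      · subst h2; exact ⟨e, by simp, hA hi, rfl⟩
      · exact ⟨a, by simp [h2], hi, rfl⟩
  obtain ⟨a', ha', hia', hra⟩ := key a ha i hia
  obtain ⟨b', hb', hib', hrb⟩ := key b hb i hib
  rw [← hra, ← hrb]
  exact h a' ha' b' hb' i hia' hib' h0

theorem PC.skip {e : Ent n} {l c : List (Ent n)} {O : Asg n} (h : PC ((e :: l) ++ c) O) :
    PC (l ++ c) O := by
  intro a ha b hb
  exact h a (by simp only [List.cons_append, List.mem_cons]; right; exact ha) b
    (by simp only [List.cons_append, List.mem_cons]; right; exact hb)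

theorem none_of_add {O : Asg n} {A : Finset (Fin n)} {r : Vx n} :
    ∀ i, add O A r i = none → O i = none := fun _ h => (add_none h).1

/-- the directions where `x` is wrong and where the final target is that of `e` -/
def good (e : Ent n) (O : Asg n) (x t : Vx n) : Finset (Fin n) :=
  (dis e.A e.r x).filter fun i => O i ≠ none ∨ t i = e.r i

/-- the bound for `good` survives the assignment of the values of a face of the list -/
theorem good_le {e e' : Ent n} {O : Asg n} {x t : Vx n} (hpc : ∀ i ∈ e.A, i ∈ e'.A → O i = none → e.r i = e'.r i)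
    (ht : ∀ i, O i = none → i ∈ e'.A → t i = e'.r i) :
    good e (add O e'.A e'.r) x t ⊆ good e O x t := by
  intro i hi
  unfold good at hi ⊢
  rw [mem_filter] at hi ⊢
  refine ⟨hi.1, ?_⟩
  rcases hi.2 with h | h
  · by_cases h0 : O i = none
    · by_cases h1 : i ∈ e'.A
      · right
        rw [ht i h0 h1]
        exact (hpc i (mem_dis.1 hi.1).1 h1 h0).symm
      · exact absurd (by simp [add, h1, h0]) h
    · exact Or.inl h0
  · exact Or.inr h

theorem LB_evL {x : Vx n} {g : Tr n}
    (hk : ∀ c O, PC c O → IC g c O → Far c x → ∀ e ∈ c, e.q < (good e O x (ev x g c O).2).card) :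
    ∀ (l c : List (Ent n)) (O : Asg n), PC (l ++ c) O → IC g c O → Far (l ++ c) x →
      ∀ e ∈ l ++ c, e.q < (good e O x (evL x g (ev x g) l c O).2).card := by
  intro l
  induction l with
  | nil => intro c O h1 h2 h3; exact hk c O h1 h2 h3
  | cons e' l ih =>
    intro c O h1 h2 h3 e he
    rw [evL]
    have hmem : ∀ a ∈ l ++ c, a ∈ (e' :: l) ++ c := fun a ha => by
      simp only [List.cons_append, List.mem_cons]; right; exact ha
    split_ifs with ht
    · rw [pre_snd]
      have htau : ∀ i, O i = none → i ∈ e'.A →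
          (evL x g (ev x g) l c (add O e'.A e'.r)).2 i = e'.r i := fun i h0 hi =>
        tgt_evL (tgt_ev x g) _ _ _ _ _ (add_some h0 hi)
      rcases List.mem_append.1 he with h4 | h4
      · rcases List.mem_cons.1 h4 with h5 | h5
        · subst h5
          refine lt_of_lt_of_le (h3 e he) (card_le_card fun i hi => ?_)
          unfold good
          rw [mem_filter]
          refine ⟨hi, ?_⟩
          by_cases h0 : O i = none
          · right; exact htau i h0 (mem_dis.1 hi).1
          · left; exact h0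
        · have he2 : e ∈ l ++ c := List.mem_append_left _ h5
          have := ih c (add O e'.A e'.r) (h1.skip.mono none_of_add) (h2.mono none_of_add)
            (fun a ha => h3 a (hmem a ha)) e he2
          exact lt_of_lt_of_le this (card_le_card (good_le (fun i hi hi' h0 =>
            h1 e he e' (by simp) i hi hi' h0) htau))
      · have he2 : e ∈ l ++ c := List.mem_append_right _ h4
        have := ih c (add O e'.A e'.r) (h1.skip.mono none_of_add) (h2.mono none_of_add)
          (fun a ha => h3 a (hmem a ha)) e he2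
        exact lt_of_lt_of_le this (card_le_card (good_le (fun i hi hi' h0 =>
          h1 e he e' (by simp) i hi hi' h0) htau))
    · rw [pre_snd]
      push Not at ht
      have hcut : cut g O e' ⊆ e'.A := fun i hi => (mem_cut.1 hi).1
      have hI : IC g (⟨cut g O e', e'.r, e'.q⟩ :: c) O := by
        intro a ha i hi hs h0
        rcases List.mem_cons.1 ha with h4 | h4
        · subst h4
          exact ((mem_cut.1 hi).2 hs h0).symm
        · exact h2 a h4 i hi hs h0
      have hF : Far (l ++ (⟨cut g O e', e'.r, e'.q⟩ :: c)) x := by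
        intro a ha
        rcases List.mem_append.1 ha with h4 | h4
        · exact h3 a (by simp [h4])
        · rcases List.mem_cons.1 h4 with h5 | h5
          · subst h5; exact ht
          · exact h3 a (by simp [h5])
      have hP := h1.step (cut g O e') hcut
      have key := ih (⟨cut g O e', e'.r, e'.q⟩ :: c) O hP hI hF
      rcases List.mem_append.1 he with h4 | h4
      · rcases List.mem_cons.1 h4 with h5 | h5
        · subst h5
          refine lt_of_lt_of_le (key ⟨cut g O e, e.r, e.q⟩ (by simp)) (card_le_card fun i hi => ?_)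
          unfold good at hi ⊢
          rw [mem_filter, mem_dis] at hi ⊢
          exact ⟨⟨hcut hi.1.1, hi.1.2⟩, hi.2⟩
        · exact key e (by simp [h5])
      · exact key e (by simp [h4])

/-- the invariants after entering the face of a spine -/
theorem IC.right {g h : Tr n} {K : Finset (Fin n)} {q : ℕ} {c : List (Ent n)} {O : Asg n}
    (h2 : IC (.comb g K q h) c O) : IC h c (add O K g.fin) := by
  intro e he i hi hs h0
  obtain ⟨h0', hK⟩ := add_none h0
  have := h2 e he i hi (by simp [Tr.sp, hs]) h0'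
  simpa [Tr.fin, hK] using this

theorem PC.left {g h : Tr n} {K : Finset (Fin n)} {q : ℕ} {c : List (Ent n)} {O : Asg n} (h1 : PC c O)
    (h2 : IC (.comb g K q h) c O) : PC (⟨free K O, g.fin, q⟩ :: c) O := by
  have key : ∀ e ∈ c, ∀ i ∈ e.A, i ∈ free K O → O i = none → e.r i = g.fin i := by
    intro e he i hi hK h0
    have hK' := (mem_free.1 hK).1
    have := h2 e he i hi (by simp [Tr.sp, hK']) h0
    simpa [Tr.fin, hK'] using this
  intro a ha b hb i hia hib h0
  rcases List.mem_cons.1 ha with h3 | h3 <;> rcases List.mem_cons.1 hb with h4 | h4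
  · subst h3; subst h4; rfl
  · subst h3; exact (key b h4 i hib hia h0).symm
  · subst h4; exact key a h3 i hia hib h0
  · exact h1 a h3 b h4 i hia hib h0

theorem PC.nil_right {l : List (Ent n)} {O : Asg n} (h : PC l O) : PC (l ++ []) O := by simpa using h

theorem IC.nil (g : Tr n) (O : Asg n) : IC g [] O := fun _ h => absurd h List.not_mem_nil

theorem LB_ev (x : Vx n) (T : Tr n) : ∀ (c : List (Ent n)) (O : Asg n), PC c O → IC T c O → Far c x →
    ∀ e ∈ c, e.q < (good e O x (ev x T c O).2).card := by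
  induction T with
  | leaf R =>
    intro c O h1 h2 h3 e he
    refine lt_of_lt_of_le (h3 e he) (card_le_card fun i hi => ?_)
    unfold good
    rw [mem_filter]
    refine ⟨hi, ?_⟩
    by_cases h0 : O i = none
    · right
      have := h2 e he i (mem_dis.1 hi).1 (by simp [Tr.sp]) h0
      rw [this]
      simp [ev, h0, Tr.fin]
    · exact Or.inl h0
  | last g ihg =>
    intro c O h1 h2 h3 e he
    rw [ev]
    exact LB_evL ihg c [] O h1.nil_right (IC.nil _ _) (by simpa using h3) e (by simpa using he)
  | comb g K q h ihg ihh =>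
    intro c O h1 h2 h3 e he
    rw [ev]
    split_ifs with ht
    · rw [pre_snd]
      have := ihh c (add O K g.fin) (h1.mono none_of_add) h2.right h3 e he
      refine lt_of_lt_of_le this (card_le_card (good_le (e' := ⟨K, g.fin, 0⟩) ?_ ?_))
      · intro i hi hi' h0
        have := h2 e he i hi (by simp only [Tr.sp, mem_union]; exact Or.inl hi') h0
        simp only [Tr.fin] at this
        rw [this, if_pos hi']
      · intro i h0 hi
        exact tgt_ev _ _ _ _ _ _ (add_some h0 hi)
    · rw [pre_snd]
      push Not at ht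
      have hF : Far ((⟨free K O, g.fin, q⟩ : Ent n) :: c) x := by
        intro a ha
        rcases List.mem_cons.1 ha with h4 | h4
        · subst h4; exact ht
        · exact h3 a h4
      exact LB_evL ihg _ [] O (PC.nil_right (h1.left h2)) (IC.nil _ _) (by simpa using hF) e
        (by simp [he])

/-! ### two different vertices have a common target at a direction where they differ -/

theorem exists_good {e : Ent n} {O : Asg n} {x y t : Vx n} {A : Finset (Fin n)}
    (h1 : (dis A e.r x).card ≤ e.q) (h2 : e.q < (good ⟨A, e.r, e.q⟩ O y t).card)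
    (hxy : ∀ i, O i ≠ none → x i = y i) :
    ∃ i ∈ A, O i = none ∧ y i ≠ e.r i ∧ x i = e.r i ∧ t i = e.r i := by
  have : ¬ good ⟨A, e.r, e.q⟩ O y t ⊆ dis A e.r x := fun h =>
    absurd (card_le_card h) (by omega)
  obtain ⟨i, hi, hi2⟩ := Finset.not_subset.1 this
  unfold good at hi
  rw [mem_filter, mem_dis] at hi
  have hx : x i = e.r i := by
    by_contra h
    exact hi2 (mem_dis.2 ⟨hi.1.1, h⟩)
  have h0 : O i = none := by
    by_contra h
    apply hi.1.2
    rw [← hxy i h, hx]
  refine ⟨i, hi.1.1, h0, hi.1.2, hx, ?_⟩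
  rcases hi.2 with h | h
  · exact absurd h0 h
  · exact h

/-- invariants of a processing step in which a face stays hidden -/
theorem step_inv {x : Vx n} {g : Tr n} {e : Ent n} {l c : List (Ent n)} {O : Asg n}
    (h1 : PC ((e :: l) ++ c) O) (h2 : IC g c O) (h3 : Far ((e :: l) ++ c) x)
    (ht : e.q < (dis (cut g O e) e.r x).card) :
    PC (l ++ (⟨cut g O e, e.r, e.q⟩ :: c)) O ∧ IC g (⟨cut g O e, e.r, e.q⟩ :: c) O ∧
      Far (l ++ (⟨cut g O e, e.r, e.q⟩ :: c)) x := by
  refine ⟨h1.step _ fun i hi => (mem_cut.1 hi).1, ?_, ?_⟩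
  · intro a ha i hi hs h0
    rcases List.mem_cons.1 ha with h4 | h4
    · subst h4
      exact ((mem_cut.1 hi).2 hs h0).symm
    · exact h2 a h4 i hi hs h0
  · intro a ha
    rcases List.mem_append.1 ha with h4 | h4
    · exact h3 a (by simp [h4])
    · rcases List.mem_cons.1 h4 with h5 | h5
      · subst h5; exact ht
      · exact h3 a (by simp [h5])

theorem Far.skip {e : Ent n} {l c : List (Ent n)} {x : Vx n} (h : Far ((e :: l) ++ c) x) :
    Far (l ++ c) x := fun a ha => h a (by simp only [List.cons_append, List.mem_cons]; right; exact ha)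

/-- the mixed case -/
theorem wit_mixed {x y : Vx n} {g : Tr n} {e : Ent n} {l c : List (Ent n)} {O : Asg n}
    (h1 : PC ((e :: l) ++ c) O) (h2 : IC g c O) (h3 : Far ((e :: l) ++ c) y)
    (hxy : ∀ i, O i ≠ none → x i = y i)
    (hx : (dis (cut g O e) e.r x).card ≤ e.q) (hy : e.q < (dis (cut g O e) e.r y).card) :
    ∃ i ∈ e.A, O i = none ∧ y i ≠ e.r i ∧ x i = e.r i ∧
      (evL y g (ev y g) l (⟨cut g O e, e.r, e.q⟩ :: c) O).2 i = e.r i := by
  obtain ⟨a1, a2, a3⟩ := step_inv h1 h2 h3 hy
  have := LB_evL (LB_ev y g) l _ O a1 a2 a3 ⟨cut g O e, e.r, e.q⟩ (by simp)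
  obtain ⟨i, hi, b1, b2, b3, b4⟩ := exists_good hx this hxy
  exact ⟨i, (mem_cut.1 hi).1, b1, b2, b3, b4⟩

theorem wit_evL {x y : Vx n} {g : Tr n} (hne : x ≠ y)
    (hk : ∀ c O, PC c O → IC g c O → Far c x → Far c y → (∀ i, O i ≠ none → x i = y i) →
      ∃ i, O i = none ∧ x i ≠ y i ∧ (ev x g c O).2 i = (ev y g c O).2 i) :
    ∀ (l c : List (Ent n)) (O : Asg n), PC (l ++ c) O → IC g c O → Far (l ++ c) x → Far (l ++ c) y →
      (∀ i, O i ≠ none → x i = y i) →
      ∃ i, O i = none ∧ x i ≠ y i ∧
        (evL x g (ev x g) l c O).2 i = (evL y g (ev y g) l c O).2 i := by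
  intro l
  induction l with
  | nil => intro c O h1 h2 h3 h4 h5; exact hk c O h1 h2 h3 h4 h5
  | cons e l ih =>
    intro c O h1 h2 h3 h4 hxy
    rw [evL, evL]
    by_cases hx : (dis (cut g O e) e.r x).card ≤ e.q <;> by_cases hy : (dis (cut g O e) e.r y).card ≤ e.q
    · rw [if_pos hx, if_pos hy, pre_snd, pre_snd]
      by_cases hd : ∃ i, O i = none ∧ i ∈ e.A ∧ x i ≠ y i
      · obtain ⟨i, h0, hi, hne'⟩ := hd
        refine ⟨i, h0, hne', ?_⟩
        rw [tgt_evL (tgt_ev x g) _ _ _ _ _ (add_some h0 hi),
          tgt_evL (tgt_ev y g) _ _ _ _ _ (add_some h0 hi)]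
      · push Not at hd
        obtain ⟨i, h0, h6, h7⟩ := ih c (add O e.A e.r) (h1.skip.mono none_of_add) (h2.mono none_of_add)
          h3.skip h4.skip (fun i h => by
            by_cases h0 : O i = none
            · by_cases hi : i ∈ e.A
              · exact hd i h0 hi
              · exact absurd (by simp [add, h0, hi]) h
            · exact hxy i h0)
        exact ⟨i, (add_none h0).1, h6, h7⟩
    · rw [if_pos hx, if_neg hy, pre_snd, pre_snd]
      push Not at hy
      obtain ⟨i, hi, h0, b2, b3, b4⟩ := wit_mixed h1 h2 h4 hxy hx hy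
      refine ⟨i, h0, by rw [b3]; exact Ne.symm b2, ?_⟩
      rw [b4, tgt_evL (tgt_ev x g) _ _ _ _ _ (add_some h0 hi)]
    · rw [if_neg hx, if_pos hy, pre_snd, pre_snd]
      push Not at hx
      obtain ⟨i, hi, h0, b2, b3, b4⟩ := wit_mixed h1 h2 h3 (fun i h => (hxy i h).symm) hy hx
      refine ⟨i, h0, by rw [b3]; exact b2, ?_⟩
      rw [b4, tgt_evL (tgt_ev y g) _ _ _ _ _ (add_some h0 hi)]
    · rw [if_neg hx, if_neg hy, pre_snd, pre_snd]
      push Not at hx hy
      obtain ⟨a1, a2, a3⟩ := step_inv h1 h2 h3 hx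
      obtain ⟨-, -, a4⟩ := step_inv h1 h2 h4 hy
      exact ih _ _ a1 a2 a3 a4 hxy

theorem wit_ev {x y : Vx n} (hne : x ≠ y) (T : Tr n) : ∀ (c : List (Ent n)) (O : Asg n), PC c O → IC T c O →
    Far c x → Far c y → (∀ i, O i ≠ none → x i = y i) →
      ∃ i, O i = none ∧ x i ≠ y i ∧ (ev x T c O).2 i = (ev y T c O).2 i := by
  induction T with
  | leaf R =>
    intro c O _ _ _ _ hxy
    obtain ⟨i, hi⟩ := Function.ne_iff.1 hne
    have h0 : O i = none := by
      by_contra h
      exact hi (hxy i h)
    exact ⟨i, h0, hi, by simp [ev]⟩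
  | last g ihg =>
    intro c O h1 h2 h3 h4 hxy
    rw [ev, ev]
    exact wit_evL hne ihg c [] O h1.nil_right (IC.nil _ _) (by simpa using h3) (by simpa using h4) hxy
  | comb g K q h ihg ihh =>
    intro c O h1 h2 h3 h4 hxy
    have mixed : ∀ x y : Vx n, Far c y → (∀ i, O i ≠ none → x i = y i) →
        (dis (free K O) g.fin x).card ≤ q → q < (dis (free K O) g.fin y).card →
        ∃ i, i ∈ K ∧ O i = none ∧ y i ≠ g.fin i ∧ x i = g.fin i ∧
          (evL y g (ev y g) (⟨free K O, g.fin, q⟩ :: c) [] O).2 i = g.fin i := by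
      intro x y hy4 hxy hx hy
      have hF : Far ((⟨free K O, g.fin, q⟩ : Ent n) :: c) y := by
        intro a ha
        rcases List.mem_cons.1 ha with h4 | h4
        · subst h4; exact hy
        · exact hy4 a h4
      have := LB_evL (LB_ev y g) (⟨free K O, g.fin, q⟩ :: c) [] O (PC.nil_right (h1.left h2))
        (IC.nil _ _) (by simpa using hF) ⟨free K O, g.fin, q⟩ (by simp)
      obtain ⟨i, hi, b1, b2, b3, b4⟩ := exists_good (e := ⟨free K O, g.fin, q⟩) hx this hxy
      exact ⟨i, (mem_free.1 hi).1, b1, b2, b3, b4⟩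
    rw [ev, ev]
    by_cases hx : (dis (free K O) g.fin x).card ≤ q <;> by_cases hy : (dis (free K O) g.fin y).card ≤ q
    · rw [if_pos hx, if_pos hy, pre_snd, pre_snd]
      by_cases hd : ∃ i, O i = none ∧ i ∈ K ∧ x i ≠ y i
      · obtain ⟨i, h0, hi, hne'⟩ := hd
        refine ⟨i, h0, hne', ?_⟩
        rw [tgt_ev x h _ _ _ _ (add_some h0 hi), tgt_ev y h _ _ _ _ (add_some h0 hi)]
      · push Not at hd
        obtain ⟨i, h0, h6, h7⟩ := ihh c (add O K g.fin) (h1.mono none_of_add) h2.right h3 h4
          (fun i h => by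
            by_cases h0 : O i = none
            · by_cases hi : i ∈ K
              · exact hd i h0 hi
              · exact absurd (by simp [add, h0, hi]) h
            · exact hxy i h0)
        exact ⟨i, (add_none h0).1, h6, h7⟩
    · rw [if_pos hx, if_neg hy, pre_snd, pre_snd]
      push Not at hy
      obtain ⟨i, hi, h0, b2, b3, b4⟩ := mixed x y h4 hxy hx hy
      refine ⟨i, h0, by rw [b3]; exact Ne.symm b2, ?_⟩
      rw [b4, tgt_ev x h _ _ _ _ (add_some h0 hi)]
    · rw [if_neg hx, if_pos hy, pre_snd, pre_snd]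
      push Not at hx
      obtain ⟨i, hi, h0, b2, b3, b4⟩ := mixed y x h3 (fun i h => (hxy i h).symm) hy hx
      refine ⟨i, h0, by rw [b3]; exact b2, ?_⟩
      rw [b4, tgt_ev y h _ _ _ _ (add_some h0 hi)]
    · rw [if_neg hx, if_neg hy, pre_snd, pre_snd]
      push Not at hx hy
      have hF : ∀ z : Vx n, Far c z → q < (dis (free K O) g.fin z).card →
          Far ((⟨free K O, g.fin, q⟩ : Ent n) :: c) z := by
        intro z hz hq a ha
        rcases List.mem_cons.1 ha with h4 | h4
        · subst h4; exact hq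
        · exact hz a h4
      exact wit_evL hne ihg _ [] O (PC.nil_right (h1.left h2)) (IC.nil _ _)
        (by simpa using hF x h3 hx) (by simpa using hF y h4 hy) hxy

end Pool.Agent.H686.RP
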