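import Pool.Agent.H686.RP.Prob
set_option autoImplicit false

/-!
# The walk
-/

namespace Pool.Agent.H686.RP

open Finset

variable {n b : ℕ}

/-- the improving directions at the vertex `x` -/
def imp (f : Vx n → ℕ) (x : Vx n) : Finset (Fin n) := univ.filter fun i => f x < f (flp x i)

/-- the probability that at least `T` further steps are made -/
noncomputable def prb (f : Vx n → ℕ) (p : List (Vx n × ℕ × Finset (Fin n)) → Fin n → ℝ) :
    ℕ → Vx n → List (Vx n × ℕ × Finset (Fin n)) → ℝ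
  | 0, _, _ => 1
  | T + 1, x, l => ∑ i ∈ imp f x, p ((x, f x, imp f x) :: l) i *
      prb f p T (flp x i) ((x, f x, imp f x) :: l)

theorem prb_nonneg {f : Vx n → ℕ} {p : List (Vx n × ℕ × Finset (Fin n)) → Fin n → ℝ}
    (hp0 : ∀ l i, 0 ≤ p l i) (T : ℕ) : ∀ x l, 0 ≤ prb f p T x l := by
  induction T with
  | zero => intro x l; simp [prb]
  | succ T ih => intro x l; rw [prb]; exact sum_nonneg fun i _ => mul_nonneg (hp0 _ _) (ih _ _)

/-- the bad events -/
noncomputable def bad (S : Sh) (κ : ℕ) (x : Vx n) (t : ℕ) (s : Sd n b) : ℝ :=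
  ind (S.thr t * b ≤ 8 * (dis univ (Rs s t) x).card ∧ ¬ hid x (mk s S 0) t (fun _ => none) ∧ szg S.sz κ s) +
  ind (8 * (dis univ (Rs s t) x).card < S.thr t * b ∧ ¬ ext x (mk s S 0) t (fun _ => none) ∧ szg S.sz κ s)

/-- the walk arrives in a face which should be far away -/
noncomputable def arr (S : Sh) (κ : ℕ) (x : Vx n) (t : ℕ) (s : Sd n b) : ℝ :=
  ind (ext x (mk s S 0) t (fun _ => none) ∧ szg S.sz κ s)

theorem bad_nonneg (S : Sh) (κ : ℕ) (x : Vx n) (t : ℕ) (s : Sd n b) : 0 ≤ bad S κ x t s :=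
  add_nonneg (ind_nonneg _) (ind_nonneg _)

theorem arr_nonneg (S : Sh) (κ : ℕ) (x : Vx n) (t : ℕ) (s : Sd n b) : 0 ≤ arr S κ x t s := ind_nonneg _

theorem bad_avg (hb : 0 < b) {κ Z Q q' : ℕ} {S : Sh} {t : ℕ} (ht : t < S.sz)
    (hg : S.wt ≤ Z) (hgd : S.gd Q q') (x : Vx n) (s : Sd n b) (hZ : 16 * (Z * κ) ≤ b * Q)
    {l : List ℕ} (hl1 : ∀ j ∈ l, 2 * t + 1 ≤ j) (hl2 : ∀ j, 2 * t + 1 ≤ j → j < 2 * S.sz → j ∈ l) :
    mns l (bad S κ x t) s ≤ (S.dep + 1) * (5 / 8) ^ Q := by
  unfold bad
  rw [mns_add]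
  have h1 : mns l (fun s' : Sd n b => ind (S.thr t * b ≤ 8 * (dis univ (Rs s' t) x).card ∧
      ¬ hid x (mk s' S 0) t (fun _ => none) ∧ szg S.sz κ s')) s ≤ S.dep * (5 / 8) ^ Q := by
    by_cases hex : (∃ s' : Sd n b, (∀ j < 2 * t + 1, s' j = s j) ∧ szg S.sz κ s') ∧
        S.thr t * b ≤ 8 * (dis univ (Rs s t) x).card
    · obtain ⟨⟨s₁, h2, h3⟩, h4⟩ := hex
      have hfr : (fr (mk s S 0) t).card ≤ Z * κ := by
        rw [fr_congr (s := s) (s' := s₁) S 0 t ht fun j _ hj => (h2 j (by omega)).symm]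
        exact (card_fr S 0 t ht fun j _ hj => h3 j (by omega)).trans (Nat.mul_le_mul_right _ hg)
      refine le_trans (mns_mono l hl1 fun s' _ => ?_) (hid_avg (N := S.sz) (u := t) hb x
        (show 3 * (Z * κ) ≤ 8 * (b * Q) by omega)
        hl1 hl2 S 0 t (fun _ => none) s (by omega) ht (by omega) hgd hg ?_ h4)
      · apply ind_mono
        rintro ⟨-, h5, h6⟩
        exact ⟨h5, h6⟩
      · refine le_trans (card_le_card fun i hi => ?_) hfr
        simpa using hi
    · refine (mns_le hb hl1 fun s' hs' => (?_ : _ ≤ (0 : ℝ))).trans (by positivity)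
      rw [ind_false]
      rintro ⟨h2, -, h4⟩
      rw [Rs_congr (hs' (2 * t) (by omega))] at h2
      exact hex ⟨⟨s', hs', h4⟩, h2⟩
  have h2 : mns l (fun s' : Sd n b => ind (8 * (dis univ (Rs s' t) x).card < S.thr t * b ∧
      ¬ ext x (mk s' S 0) t (fun _ => none) ∧ szg S.sz κ s')) s ≤ (5 / 8) ^ Q := by
    by_cases h3 : t + 1 < S.sz
    · refine mns_le1 hb hl1 (hl2 (2 * t + 1) le_rfl (by omega)) fun s' _ => ?_
      exact pl_ext hb S h3 hg hgd x (fun _ => none) s' hZ
    · refine (mns_le hb hl1 fun s' _ => (?_ : _ ≤ (0 : ℝ))).trans (by positivity)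
      rw [ind_false]
      rintro ⟨h4, -⟩
      rw [S.thr_last t (by omega)] at h4
      omega
  calc _ ≤ (S.dep : ℝ) * (5 / 8) ^ Q + (5 / 8) ^ Q := add_le_add h1 h2
    _ = _ := by ring

theorem arr_avg (hb : 0 < b) {κ Z Q q' : ℕ} {S : Sh} {t : ℕ} (ht : t < S.sz)
    (hg : S.wt ≤ Z) (hgd : S.gd Q q') (x : Vx n) (s : Sd n b) (hn : 8 * (b * q') + 2 * (Z * κ) ≤ n)
    {l : List ℕ} (hl1 : ∀ j ∈ l, 2 * t ≤ j) (hl2 : ∀ j, 2 * t ≤ j → j < 2 * S.sz → j ∈ l) :
    mns l (arr S κ x t) s ≤ (5 / 8) ^ Q := by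
  by_cases h3 : t + 1 < S.sz
  · refine mns_le2 hb hl1 (hl2 (2 * t) le_rfl (by omega)) (hl2 (2 * t + 1) (by omega) (by omega))
      fun s' _ => ?_
    exact pl_arr hb S h3 hg hgd x s' hn
  · refine (mns_le hb hl1 fun s' _ => (?_ : _ ≤ (0 : ℝ))).trans (by positivity)
    unfold arr
    rw [ind_false]
    rintro ⟨h4, -⟩
    exact ext_last _ _ _ (by rw [lv_mk]; omega) h4

/-! ### the walk which is steered by the forced evaluation -/

/-- the improving directions according to the forced evaluation -/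
def fS (S : Sh) (s : Sd n b) (t : ℕ) (x : Vx n) : Finset (Fin n) :=
  univ.filter fun i => x i ≠ (frc x (mk s S 0) t 0 fun _ => none).2 i

/-- what the rule sees according to the forced evaluation -/
noncomputable def fe (S : Sh) (F : ℕ) (s : Sd n b) (t : ℕ) (x : Vx n) : Vx n × ℕ × Finset (Fin n) :=
  (x, valp F (frc x (mk s S 0) t 0 fun _ => none).1 x, fS S s t x)

theorem fS_congr {S : Sh} {s s' : Sd n b} {t : ℕ} (ht : t < S.sz) (h : ∀ j < 2 * t + 1, s' j = s j)
    (x : Vx n) : fS S s' t x = fS S s t x := by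
  unfold fS
  rw [frc_congr (s := s') (s' := s) S 0 t 0 _ ht fun j _ hj => h j (by omega)]

theorem fe_congr {S : Sh} (F : ℕ) {s s' : Sd n b} {t : ℕ} (ht : t < S.sz) (h : ∀ j < 2 * t + 1, s' j = s j)
    (x : Vx n) : fe S F s' t x = fe S F s t x := by
  unfold fe
  rw [fS_congr ht h, frc_congr (s := s') (s' := s) S 0 t 0 _ ht fun j _ hj => h j (by omega)]

/-- bad events within one phase -/
noncomputable def St (S : Sh) (κ F : ℕ) (p : List (Vx n × ℕ × Finset (Fin n)) → Fin n → ℝ)
    (s : Sd n b) (t : ℕ) : ℕ → Vx n → List (Vx n × ℕ × Finset (Fin n)) → ℝ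
  | 0, x, _ => bad S κ x t s
  | T + 1, x, l => bad S κ x t s + ∑ i ∈ fS S s t x, p (fe S F s t x :: l) i *
      St S κ F p s t T (flp x i) (fe S F s t x :: l)

open Classical in
/-- bad events of the walk -/
noncomputable def BW (S : Sh) (κ F : ℕ) (p : List (Vx n × ℕ × Finset (Fin n)) → Fin n → ℝ)
    (s : Sd n b) : ℕ → ℕ → Vx n → List (Vx n × ℕ × Finset (Fin n)) → ℝ
  | 0, t, x, _ => bad S κ x t s
  | T + 1, t, x, l => bad S κ x t s + ∑ i ∈ fS S s t x, p (fe S F s t x :: l) i *
      (if ext (flp x i) (mk s S 0) t (fun _ => none) then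
        arr S κ (flp x i) (t + 1) s + BW S κ F p s T (t + 1) (flp x i) (fe S F s t x :: l)
      else BW S κ F p s T t (flp x i) (fe S F s t x :: l))

open Classical in
/-- bad events of the walk after the end of the phase -/
noncomputable def Ex (S : Sh) (κ F : ℕ) (p : List (Vx n × ℕ × Finset (Fin n)) → Fin n → ℝ)
    (s : Sd n b) (t : ℕ) : ℕ → Vx n → List (Vx n × ℕ × Finset (Fin n)) → ℝ
  | 0, _, _ => 0
  | T + 1, x, l => ∑ i ∈ fS S s t x, p (fe S F s t x :: l) i *
      (if ext (flp x i) (mk s S 0) t (fun _ => none) then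
        arr S κ (flp x i) (t + 1) s + BW S κ F p s T (t + 1) (flp x i) (fe S F s t x :: l)
      else Ex S κ F p s t T (flp x i) (fe S F s t x :: l))

section

variable {S : Sh} {κ F : ℕ} {p : List (Vx n × ℕ × Finset (Fin n)) → Fin n → ℝ}

theorem St_nonneg (hp0 : ∀ l i, 0 ≤ p l i) (s : Sd n b) (t : ℕ) (T : ℕ) :
    ∀ x l, 0 ≤ St S κ F p s t T x l := by
  induction T with
  | zero => intro x l; rw [St]; exact bad_nonneg _ _ _ _ _
  | succ T ih =>
    intro x l
    rw [St]
    exact add_nonneg (bad_nonneg _ _ _ _ _) (sum_nonneg fun i _ => mul_nonneg (hp0 _ _) (ih _ _))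

theorem BW_nonneg (hp0 : ∀ l i, 0 ≤ p l i) (s : Sd n b) (T : ℕ) :
    ∀ t x l, 0 ≤ BW S κ F p s T t x l := by
  induction T with
  | zero => intro t x l; rw [BW]; exact bad_nonneg _ _ _ _ _
  | succ T ih =>
    intro t x l
    rw [BW]
    refine add_nonneg (bad_nonneg _ _ _ _ _) (sum_nonneg fun i _ => mul_nonneg (hp0 _ _) ?_)
    split_ifs
    · exact add_nonneg (arr_nonneg _ _ _ _ _) (ih _ _ _)
    · exact ih _ _ _

theorem BW_le (hp0 : ∀ l i, 0 ≤ p l i) (s : Sd n b) (t : ℕ) (T : ℕ) :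
    ∀ x l, BW S κ F p s T t x l ≤ St S κ F p s t T x l + Ex S κ F p s t T x l := by
  induction T with
  | zero => intro x l; rw [BW, St, Ex]; linarith
  | succ T ih =>
    intro x l
    rw [BW, St, Ex, add_assoc, ← sum_add_distrib]
    apply add_le_add le_rfl
    apply sum_le_sum
    intro i _
    rw [← mul_add]
    apply mul_le_mul_of_nonneg_left _ (hp0 _ _)
    split_ifs
    · linarith [St_nonneg (S := S) (κ := κ) (F := F) hp0 s t T (flp x i) (fe S F s t x :: l)]
    · exact ih _ _

theorem wsum_le (hp0 : ∀ l i, 0 ≤ p l i)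
    (hp1 : ∀ x c S l, S.Nonempty → ∑ i ∈ S, p ((x, c, S) :: l) i = 1) {s : Sd n b} {t : ℕ} {x : Vx n}
    {l : List (Vx n × ℕ × Finset (Fin n))} {f : Fin n → ℝ} {C : ℝ} (hC : 0 ≤ C)
    (h : ∀ i ∈ fS S s t x, f i ≤ C) : ∑ i ∈ fS S s t x, p (fe S F s t x :: l) i * f i ≤ C := by
  rcases (fS S s t x).eq_empty_or_nonempty with h1 | h1
  · rw [h1, sum_empty]; exact hC
  · calc _ ≤ ∑ i ∈ fS S s t x, p (fe S F s t x :: l) i * C :=
        sum_le_sum fun i hi => mul_le_mul_of_nonneg_left (h i hi) (hp0 _ _)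
      _ = C := by
        rw [← sum_mul]
        unfold fe
        rw [hp1 _ _ _ _ h1, one_mul]

/-- the numbers of the data which are averaged -/
def L (S : Sh) (a : ℕ) : List ℕ := List.range' a (2 * S.sz - a)

theorem L_ge {S : Sh} {a : ℕ} : ∀ j ∈ L S a, a ≤ j := by
  intro j hj
  unfold L at hj
  rw [List.mem_range'_1] at hj
  exact hj.1

theorem L_mem {S : Sh} {a : ℕ} : ∀ j, a ≤ j → j < 2 * S.sz → j ∈ L S a := by
  intro j hj hj2
  unfold L
  rw [List.mem_range'_1]
  omega

theorem L_cons {S : Sh} {a : ℕ} (h : a < 2 * S.sz) : L S a = a :: L S (a + 1) := by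
  unfold L
  obtain ⟨m, hm⟩ : ∃ m, 2 * S.sz - a = m + 1 := ⟨2 * S.sz - a - 1, by omega⟩
  rw [hm, List.range'_succ]
  congr 2
  omega

theorem mns_L {S : Sh} {a : ℕ} (h : a < 2 * S.sz) (hb : 0 < b) {G : Sd n b → ℝ} {C : ℝ}
    (hG : ∀ s, mns (L S (a + 1)) G s ≤ C) (s : Sd n b) : mns (L S a) G s ≤ C := by
  rw [L_cons h, mns]
  have := mn_mono (j := a) (F := mns (L S (a + 1)) G) (G := fun _ => C) (s := s) fun ω => hG _
  rwa [mn_const hb] at this

variable (hb : 0 < b) {Z Q q' : ℕ} (hg : S.wt ≤ Z) (hgd : S.gd Q q') (hZ : 16 * (Z * κ) ≤ b * Q)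
  (hn : 8 * (b * q') + 2 * (Z * κ) ≤ n) (hp0 : ∀ l i, 0 ≤ p l i)
  (hp1 : ∀ x c S l, S.Nonempty → ∑ i ∈ S, p ((x, c, S) :: l) i = 1)

include hb hg hgd hZ hp0 hp1 in
theorem St_avg (t : ℕ) (ht : t < S.sz) (T : ℕ) : ∀ x l (s : Sd n b),
    mns (L S (2 * t + 1)) (fun s' => St S κ F p s' t T x l) s ≤ (T + 1) * ((S.dep + 1) * (5 / 8) ^ Q) := by
  induction T with
  | zero =>
    intro x l s
    simp only [St]
    refine (bad_avg hb ht hg hgd x s hZ L_ge L_mem).trans ?_
    simp
  | succ T ih =>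
    intro x l s
    have h1 : mns (L S (2 * t + 1)) (fun s' => St S κ F p s' t (T + 1) x l) s ≤
        mns (L S (2 * t + 1)) (fun s' => bad S κ x t s' + ∑ i ∈ fS S s t x, p (fe S F s t x :: l) i *
          St S κ F p s' t T (flp x i) (fe S F s t x :: l)) s := by
      refine mns_mono _ L_ge fun s' hs' => ?_
      rw [St, fS_congr ht hs', fe_congr F ht hs']
    refine h1.trans ?_
    rw [mns_add, mns_sum hb]
    simp_rw [mns_mul]
    have h2 := bad_avg hb ht hg hgd x s hZ (L_ge (S := S)) L_mem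
    have h3 := wsum_le (S := S) (F := F) hp0 hp1 (s := s) (t := t) (x := x) (l := l)
      (f := fun i => mns (L S (2 * t + 1)) (fun s' => St S κ F p s' t T (flp x i) (fe S F s t x :: l)) s)
      (C := (T + 1) * ((S.dep + 1) * (5 / 8) ^ Q)) (by positivity) fun i _ => ih _ _ _
    calc _ ≤ (S.dep + 1 : ℝ) * (5 / 8) ^ Q + (T + 1) * ((S.dep + 1) * (5 / 8) ^ Q) := add_le_add h2 h3
      _ = _ := by push_cast; ring

include hb hg hgd hZ hn hp0 hp1 in
theorem BW_avg (Tm : ℕ) (T : ℕ) : T ≤ Tm → ∀ t x l (s : Sd n b), t + T < S.sz →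
    mns (L S (2 * t + 1)) (fun s' => BW S κ F p s' T t x l) s ≤
      (T + 1) * ((Tm + 1) * ((S.dep + 1) * (5 / 8) ^ Q) + (5 / 8) ^ Q) ∧
    mns (L S (2 * t + 2)) (fun s' => Ex S κ F p s' t T x l) s ≤
      (5 / 8) ^ Q + T * ((Tm + 1) * ((S.dep + 1) * (5 / 8) ^ Q) + (5 / 8) ^ Q) := by
  set e : ℝ := (Tm + 1) * ((S.dep + 1) * (5 / 8) ^ Q) + (5 / 8) ^ Q with he
  have he0 : 0 ≤ e := by positivity
  have key : ∀ T ≤ Tm, ∀ t x l (s : Sd n b), t + T < S.sz →
      (∀ s : Sd n b, mns (L S (2 * t + 2)) (fun s' => Ex S κ F p s' t T x l) s ≤ (5 / 8) ^ Q + T * e) →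
      mns (L S (2 * t + 1)) (fun s' => BW S κ F p s' T t x l) s ≤ (T + 1) * e := by
    intro T hT t x l s ht hEx
    have h1 : mns (L S (2 * t + 1)) (fun s' => BW S κ F p s' T t x l) s ≤
        mns (L S (2 * t + 1)) (fun s' => St S κ F p s' t T x l + Ex S κ F p s' t T x l) s :=
      mns_mono _ L_ge fun s' _ => BW_le hp0 _ _ _ _ _
    rw [mns_add] at h1
    have h2 := St_avg (F := F) hb hg hgd hZ hp0 hp1 t (by omega) T x l s
    have h3 := mns_L (show 2 * t + 1 < 2 * S.sz by omega) hb hEx s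
    have h4 : (T + 1 : ℝ) * ((S.dep + 1) * (5 / 8) ^ Q) ≤ (Tm + 1) * ((S.dep + 1) * (5 / 8) ^ Q) := by
      apply mul_le_mul_of_nonneg_right _ (by positivity)
      have : (T : ℝ) ≤ Tm := by exact_mod_cast hT
      linarith
    calc _ ≤ _ := h1
      _ ≤ (T + 1 : ℝ) * ((S.dep + 1) * (5 / 8) ^ Q) + ((5 / 8) ^ Q + T * e) := add_le_add h2 h3
      _ ≤ (Tm + 1 : ℝ) * ((S.dep + 1) * (5 / 8) ^ Q) + ((5 / 8) ^ Q + T * e) := by linarith
      _ = (T + 1) * e := by rw [he]; ring
  induction T with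
  | zero =>
    intro hT t x l s ht
    have h0 : ∀ s : Sd n b, mns (L S (2 * t + 2)) (fun s' => Ex S κ F p s' t 0 x l) s ≤
        (5 / 8) ^ Q + (0 : ℕ) * e := by
      intro s
      simp only [Ex]
      rw [mns_const hb]
      positivity
    exact ⟨key 0 hT t x l s ht h0, h0 s⟩
  | succ T ih =>
    intro hT t x l s ht
    have h0 : ∀ s : Sd n b, mns (L S (2 * t + 2)) (fun s' => Ex S κ F p s' t (T + 1) x l) s ≤
        (5 / 8) ^ Q + (T + 1 : ℕ) * e := by
      intro s
      classical
      have h1 : mns (L S (2 * t + 2)) (fun s' => Ex S κ F p s' t (T + 1) x l) s ≤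
          mns (L S (2 * t + 2)) (fun s' => ∑ i ∈ fS S s t x, p (fe S F s t x :: l) i *
            (if ext (flp x i) (mk s S 0) t (fun _ => none) then
              arr S κ (flp x i) (t + 1) s' + BW S κ F p s' T (t + 1) (flp x i) (fe S F s t x :: l)
            else Ex S κ F p s' t T (flp x i) (fe S F s t x :: l))) s := by
        refine mns_mono _ L_ge fun s' hs' => ?_
        rw [Ex, fS_congr (by omega) fun j hj => hs' j (by omega),
          fe_congr F (by omega) fun j hj => hs' j (by omega)]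
        apply sum_le_sum
        intro i _
        apply mul_le_mul_of_nonneg_left _ (hp0 _ _)
        have hx := ext_congr (s := s') (s' := s) (x := flp x i) S 0 t (fun _ => none) (by omega)
          fun j _ hj => hs' j (by omega)
        by_cases h5 : ext (flp x i) (mk s S 0) t (fun _ => none)
        · rw [if_pos h5, if_pos (hx.2 h5)]
        · rw [if_neg h5, if_neg fun h6 => h5 (hx.1 h6)]
      refine h1.trans ?_
      rw [mns_sum hb]
      simp_rw [mns_mul]
      refine wsum_le (S := S) (F := F) hp0 hp1 (s := s) (t := t) (x := x) (l := l)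
        (f := fun i => mns (L S (2 * t + 2)) (fun s' => if ext (flp x i) (mk s S 0) t (fun _ => none) then
              arr S κ (flp x i) (t + 1) s' + BW S κ F p s' T (t + 1) (flp x i) (fe S F s t x :: l)
            else Ex S κ F p s' t T (flp x i) (fe S F s t x :: l)) s)
        (C := (5 / 8) ^ Q + (T + 1 : ℕ) * e) (by positivity) fun i _ => ?_
      by_cases h5 : ext (flp x i) (mk s S 0) t (fun _ => none)
      · simp only [if_pos h5]
        rw [mns_add]
        have h6 := arr_avg (t := t + 1) hb (by omega) hg hgd (flp x i) s hn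
          (l := L S (2 * t + 2)) L_ge L_mem
        have h8 : mns (L S (2 * t + 2)) (fun s' => BW S κ F p s' T (t + 1) (flp x i) (fe S F s t x :: l)) s ≤
            (T + 1) * e := mns_L (show 2 * t + 2 < 2 * S.sz by omega) hb
          (fun s₂ => (ih (by omega) (t + 1) (flp x i) (fe S F s t x :: l) s₂ (by omega)).1) s
        push_cast
        exact add_le_add h6 h8
      · simp only [if_neg h5]
        refine ((ih (by omega) t (flp x i) (fe S F s t x :: l) s (by omega)).2).trans ?_
        push_cast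
        nlinarith
    exact ⟨key (T + 1) hT t x l s ht h0, h0 s⟩

include hb hg hgd hZ hp0 hp1 in
/-- as long as nothing bad happens the walk sees the forced evaluation -/
theorem coup (hQ : 0 < Q) (hw : S.wf) (hF : S.len 0 ≤ F) (s : Sd n b) (hs : szg S.sz κ s) (T : ℕ) :
    ∀ t x l, t + T < S.sz → passed x (mk s S 0) t (fun _ => none) →
      ¬ ext x (mk s S 0) t (fun _ => none) →
      1 - BW S κ F p s T t x l ≤ prb (obj F (mk s S 0)) p T x l := by
  induction T with
  | zero =>
    intro t x l _ _ _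
    rw [BW, prb]
    linarith [bad_nonneg S κ x t s]
  | succ T ih =>
    intro t x l ht hpass hext
    by_cases hA : S.thr t * b ≤ 8 * (dis univ (Rs s t) x).card ∧ hid x (mk s S 0) t (fun _ => none)
    · obtain ⟨hA1, hA2⟩ := hA
      have hthr := S.gd_thr t hgd (by omega)
      have hev := eval_eq (wf_mk s S 0 hw) hpass hext hA2
      have hlen : lenB (mk s S 0) 0 ≤ F := by rw [lenB_mk]; exact hF
      have himp : imp (obj F (mk s S 0)) x = fS S s t x := by
        unfold imp fS
        apply filter_congr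
        intro i _
        rw [obj_lt_iff hlen (nb_flp x i), tau, hev]
        exact ne_comm
      have hval : obj F (mk s S 0) x = valp F (frc x (mk s S 0) t 0 fun _ => none).1 x := by
        unfold obj pot
        rw [hev]
      have hent : (x, obj F (mk s S 0) x, imp (obj F (mk s S 0)) x) = fe S F s t x := by
        unfold fe
        rw [himp, hval]
      have hne : (fS S s t x).Nonempty := by
        have a1 := card_fr (s := s) (κ := κ) S 0 t (by omega) fun j _ hj => hs j (by omega)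
        have a2 : (fr (mk s S 0) t).card ≤ Z * κ := a1.trans (Nat.mul_le_mul_right _ hg)
        have a3 : Q * b ≤ S.thr t * b := Nat.mul_le_mul_right _ hthr.1
        have a4 : Q * b = b * Q := by ring
        have a5 : 0 < b * Q := by positivity
        have a6 : ¬ dis univ (Rs s t) x ⊆ fr (mk s S 0) t := fun h => by
          have := card_le_card h
          omega
        obtain ⟨i, hi, hi2⟩ := Finset.not_subset.1 a6
        refine ⟨i, ?_⟩
        unfold fS
        rw [mem_filter, frc_free x _ _ _ _ _ rfl hi2, Rl_mk s S 0 t (by omega), Nat.zero_add]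
        exact ⟨mem_univ _, (mem_dis.1 hi).2⟩
      rw [prb, hent, himp, BW]
      have hsum : ∑ i ∈ fS S s t x, p (fe S F s t x :: l) i = 1 := by
        unfold fe
        exact hp1 _ _ _ _ hne
      classical
      have h1 : ∀ i ∈ fS S s t x, p (fe S F s t x :: l) i *
          (1 - (if ext (flp x i) (mk s S 0) t (fun _ => none) then
            arr S κ (flp x i) (t + 1) s + BW S κ F p s T (t + 1) (flp x i) (fe S F s t x :: l)
          else BW S κ F p s T t (flp x i) (fe S F s t x :: l))) ≤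
          p (fe S F s t x :: l) i * prb (obj F (mk s S 0)) p T (flp x i) (fe S F s t x :: l) := by
        intro i hi
        apply mul_le_mul_of_nonneg_left _ (hp0 _ _)
        have hmove : passed (flp x i) (mk s S 0) t (fun _ => none) := by
          apply passed_move (nb_flp x i) _ t 0 _ hpass
          unfold fS at hi
          rw [mem_filter] at hi
          have h2 := hi.2
          have h3 : flp x i i = !x i := by simp [flp]
          rw [h3]
          revert h2
          cases (frc x (mk s S 0) t 0 fun _ => none).2 i <;> cases x i <;> simp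
        by_cases h5 : ext (flp x i) (mk s S 0) t (fun _ => none)
        · rw [if_pos h5]
          have h6 := passed_next _ _ _ hmove h5
          by_cases h7 : ext (flp x i) (mk s S 0) (t + 1) (fun _ => none)
          · have h8 : arr S κ (flp x i) (t + 1) s = 1 := ind_true ⟨h7, hs⟩
            rw [h8]
            have h9 := BW_nonneg (S := S) (κ := κ) (F := F) hp0 s T (t + 1) (flp x i) (fe S F s t x :: l)
            have h10 := prb_nonneg (f := obj F (mk s S 0)) hp0 T (flp x i) (fe S F s t x :: l)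
            linarith
          · have h8 := ih (t + 1) (flp x i) (fe S F s t x :: l) (by omega) h6 h7
            have h9 := arr_nonneg S κ (flp x i) (t + 1) s
            linarith
        · rw [if_neg h5]
          exact ih t (flp x i) (fe S F s t x :: l) (by omega) hmove h5
      refine le_trans ?_ (sum_le_sum h1)
      simp_rw [mul_sub, mul_one]
      rw [sum_sub_distrib, hsum]
      have h2 := bad_nonneg S κ x t s
      have h3 : ∀ A B C : ℝ, 0 ≤ B → A = C → 1 - (B + A) ≤ 1 - C := by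
        intro A B C hB hAC
        rw [hAC]; linarith
      apply h3 _ _ _ h2
      apply sum_congr rfl
      intro i _
      congr
    · have h1 : 1 ≤ bad S κ x t s := by
        unfold bad
        by_cases h2 : S.thr t * b ≤ 8 * (dis univ (Rs s t) x).card
        · rw [ind_true ⟨h2, fun h3 => hA ⟨h2, h3⟩, hs⟩]
          linarith [ind_nonneg (8 * (dis univ (Rs s t) x).card < S.thr t * b ∧
            ¬ ext x (mk s S 0) t (fun _ => none) ∧ szg S.sz κ s)]
        · have h3 : ind (8 * (dis univ (Rs s t) x).card < S.thr t * b ∧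
            ¬ ext x (mk s S 0) t (fun _ => none) ∧ szg S.sz κ s) = 1 := ind_true ⟨by omega, hext, hs⟩
          rw [h3]
          linarith [ind_nonneg (S.thr t * b ≤ 8 * (dis univ (Rs s t) x).card ∧
            ¬ hid x (mk s S 0) t (fun _ => none) ∧ szg S.sz κ s)]
      have h2 : 1 ≤ BW S κ F p s (T + 1) t x l := by
        rw [BW]
        refine le_add_of_le_of_nonneg h1 (sum_nonneg fun i _ => mul_nonneg (hp0 _ _) ?_)
        split_ifs
        · exact add_nonneg (arr_nonneg _ _ _ _ _) (BW_nonneg hp0 _ _ _ _ _)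
        · exact BW_nonneg hp0 _ _ _ _ _
      linarith [prb_nonneg (f := obj F (mk s S 0)) hp0 (T + 1) x l]

end

end Pool.Agent.H686.RP
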